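import Pool.Agent.Q187.EB.Gram

/-!
# Project EB (helper51): job CORP
-/

set_option autoImplicit false

namespace Pool.Agent.Q187.EB

open Finset Matrix Module Polynomial Pool.Agent.Q51.EB
open Pool.Agent.W313.BMX (Splits)

theorem corp (h1 : S_HWP) (h2 : S_GRAM) : S_CORP := by
  intro F _ _ hF f hsep hn
  have hf : f ≠ 0 := by
    rintro rfl
    simp at hn
  obtain ⟨g1, g2, g3, g4, g5, g6, g7⟩ := h2 F f hsep hn
  have hdet : ∀ u, IsCoprime f u → (Pool.Agent.Q51.EB.gram f u).det ≠ 0 := by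
    intro u hu
    rw [g3]
    exact mul_ne_zero ((g7 u).1 hu) g2
  have hsq : ∀ u c, IsCoprime f u → IsCoprime f c →
      hw (Pool.Agent.Q51.EB.gram f (u * c ^ 2)) = hw (Pool.Agent.Q51.EB.gram f u) := by
    intro u c hu hc
    obtain ⟨Q, q1, q2⟩ := g4 u c
    rw [q2]
    exact (h1 F hF _ _ (g1 u) (hdet u hu)).2.2.1 Q (by rw [q1]; exact (g7 c).1 hc)
  have huu : ∀ u : ℤˣ, u * u = 1 := fun u => Int.units_mul_self u
  refine ⟨?_, ?_, ?_, ?_⟩
  · intro a a' b b' ha hb
    have e1 : AdjoinRoot.mk f a = AdjoinRoot.mk f a' := AdjoinRoot.mk_eq_mk.2 ha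
    have e2 : AdjoinRoot.mk f b = AdjoinRoot.mk f b' := AdjoinRoot.mk_eq_mk.2 hb
    have e3 : f ∣ a * b - a' * b' := by
      have : a * b - a' * b' = (a - a') * b + a' * (b - b') := by ring
      rw [this]
      exact dvd_add (Dvd.dvd.mul_right ha _) (Dvd.dvd.mul_left hb _)
    unfold cor
    rw [g6 _ _ e3, g6 _ _ ha, g6 _ _ hb, e1, e2]
  · intro a b c d ha hb hc hd
    unfold cor
    have e1 : a * c ^ 2 * (b * d ^ 2) = (a * b) * (c * d) ^ 2 := by ring
    rw [e1, hsq _ _ (IsCoprime.mul_right ha hb) (IsCoprime.mul_right hc hd), hsq _ _ ha hc,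
      hsq _ _ hb hd]
    have e2 : Algebra.norm F (AdjoinRoot.mk f (a * c ^ 2)) =
        Algebra.norm F (AdjoinRoot.mk f a) * Algebra.norm F (AdjoinRoot.mk f c) ^ 2 := by
      simp only [map_mul, map_pow]
    have e3 : Algebra.norm F (AdjoinRoot.mk f (b * d ^ 2)) =
        Algebra.norm F (AdjoinRoot.mk f b) * Algebra.norm F (AdjoinRoot.mk f d) ^ 2 := by
      simp only [map_mul, map_pow]
    rw [e2, e3, hs_sq_left _ _ _ ((g7 c).1 hc), hs_sq_right _ _ _ ((g7 d).1 hd)]
  · intro a b l hl ha hb hN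
    unfold cor
    have e1 : C l * a * b = C l * (a * b) := by ring
    have hab := IsCoprime.mul_right ha hb
    have q1 := (h1 F hF _ _ (g1 (a * b)) (hdet _ hab)).2.2.2 l hl
    have q2 := (h1 F hF _ _ (g1 a) (hdet _ ha)).2.2.2 l hl
    have hNb := (g7 b).1 hb
    rw [e1, g5, g5, q1, q2, hs_isSquare_right _ _ hNb hN, hs_isSquare_right _ _ hNb hN]
    have q3 : hs l (Pool.Agent.Q51.EB.gram f (a * b)).det = hs l (Pool.Agent.Q51.EB.gram f a).det := by
      rw [g3 (a * b), g3 a, map_mul, map_mul]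
      obtain ⟨r, hr⟩ := hN
      have hr0 : r ≠ 0 := by
        rintro rfl
        rw [mul_zero] at hr
        exact hNb hr
      have : Algebra.norm F (AdjoinRoot.mk f a) * Algebra.norm F (AdjoinRoot.mk f b) *
          (Pool.Agent.Q51.EB.gram f 1).det = Algebra.norm F (AdjoinRoot.mk f a) *
          (Pool.Agent.Q51.EB.gram f 1).det * r ^ 2 := by
        rw [hr]; ring
      rw [this, hs_sq_right _ _ _ hr0]
    rw [q3]
    generalize hs l l ^ (f.natDegree * (f.natDegree - 1) / 2) = u1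
    generalize hs l (Pool.Agent.Q51.EB.gram f a).det ^ (f.natDegree - 1) = u2
    generalize hw (Pool.Agent.Q51.EB.gram f (a * b)) = u3
    generalize hw (Pool.Agent.Q51.EB.gram f a) = u4
    generalize hw (Pool.Agent.Q51.EB.gram f b) = u5
    generalize hw (Pool.Agent.Q51.EB.gram f 1) = u6
    have e2 : u1 * u2 * u3 * (u1 * u2 * u4) * u5 * u6 * 1 =
        (u1 * u1) * (u2 * u2) * (u3 * u4 * u5 * u6 * 1) := by
      simp only [mul_comm, mul_left_comm, mul_assoc]
    rw [e2, huu, huu, one_mul, one_mul]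
  · intro b hb
    unfold cor
    rw [one_mul, map_one, map_one, hs_one_left, mul_one]
    generalize hw (Pool.Agent.Q51.EB.gram f b) = u5
    generalize hw (Pool.Agent.Q51.EB.gram f 1) = u6
    have e2 : u5 * u6 * u5 * u6 = (u5 * u6) * (u5 * u6) := by
      simp only [mul_assoc]
    rw [e2, huu]

end Pool.Agent.Q187.EB
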