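import Pool.Agent.Q187.EB.Hwp

/-!
# Project EB (helper51): job GRAM, the matrices of the trace forms
-/

set_option autoImplicit false

namespace Pool.Agent.Q187.EB

open Finset Matrix Module Polynomial Pool.Agent.Q51.EB
open Pool.Agent.W313.BMX (Splits)

section
variable {F : Type} [Field F]

/-- the power basis -/
theorem pb_apply {f : F[X]} (hf : f ≠ 0) (i : Fin f.natDegree) :
    AdjoinRoot.powerBasisAux hf i = AdjoinRoot.root f ^ (i : ℕ) :=
  (AdjoinRoot.powerBasis hf).basis_eq_pow i

theorem van_mul {f : F[X]} (hf : f ≠ 0) {E : Type} [Field E] [Algebra F E]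
    (α : Fin f.natDegree → E) (hα : ∀ k, aeval (α k) f = 0) (g : F[X]) :
    vandermonde α * (Algebra.leftMulMatrix (AdjoinRoot.powerBasisAux hf) (AdjoinRoot.mk f g)).map
      (algebraMap F E) = diagonal (fun k => aeval (α k) g) * vandermonde α := by
  ext k j
  rw [Matrix.diagonal_mul, Matrix.mul_apply, vandermonde_apply]
  set ev : AdjoinRoot f →ₐ[F] E := AdjoinRoot.liftAlgHom f (Algebra.ofId F E) (α k)
    (by rw [← hα k]; rfl) with hev
  have hevm : ∀ g : F[X], ev (AdjoinRoot.mk f g) = aeval (α k) g := by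
    intro g
    rw [hev]
    exact AdjoinRoot.liftAlgHom_mk ..
  have hevr : ∀ i : ℕ, ev (AdjoinRoot.root f ^ i) = α k ^ i := by
    intro i
    rw [map_pow, ← AdjoinRoot.mk_X, hevm, aeval_X]
  have h1 := (AdjoinRoot.powerBasisAux hf).sum_repr
    (AdjoinRoot.mk f g * AdjoinRoot.powerBasisAux hf j)
  have h2 := congrArg ev h1
  rw [map_sum, map_mul ev, hevm, pb_apply, hevr] at h2
  rw [← h2]
  refine sum_congr rfl fun i _ => ?_
  rw [vandermonde_apply, Matrix.map_apply, Algebra.leftMulMatrix_eq_repr_mul, map_smul, pb_apply,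
    pb_apply, hevr, Algebra.smul_def, mul_comm]

theorem trace_roots {f : F[X]} (hf : f ≠ 0) {E : Type} [Field E] [Algebra F E]
    (α : Fin f.natDegree → E) (hα : ∀ k, aeval (α k) f = 0) (hinj : Function.Injective α)
    (g : F[X]) : algebraMap F E (Algebra.trace F (AdjoinRoot f) (AdjoinRoot.mk f g)) =
      ∑ k, aeval (α k) g := by
  have h := van_mul hf α hα g
  have hV : IsUnit (vandermonde α).det :=
    isUnit_iff_ne_zero.mpr (det_vandermonde_ne_zero_iff.mpr hinj)
  rw [Algebra.trace_eq_matrix_trace (AdjoinRoot.powerBasisAux hf)]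
  have h1 : algebraMap F E (Matrix.trace (Algebra.leftMulMatrix (AdjoinRoot.powerBasisAux hf)
      (AdjoinRoot.mk f g))) = Matrix.trace ((Algebra.leftMulMatrix (AdjoinRoot.powerBasisAux hf)
      (AdjoinRoot.mk f g)).map (algebraMap F E)) := by
    unfold Matrix.trace
    rw [map_sum]
    rfl
  rw [h1]
  have h2 : (Algebra.leftMulMatrix (AdjoinRoot.powerBasisAux hf)
      (AdjoinRoot.mk f g)).map (algebraMap F E) =
      (vandermonde α)⁻¹ * (diagonal (fun k => aeval (α k) g) * vandermonde α) := by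
    rw [← h, ← Matrix.mul_assoc, Matrix.nonsing_inv_mul _ hV, Matrix.one_mul]
  rw [h2, Matrix.trace_mul_comm, Matrix.mul_assoc, Matrix.mul_nonsing_inv _ hV, Matrix.mul_one,
    Matrix.trace_diagonal]

theorem norm_roots {f : F[X]} (hf : f ≠ 0) {E : Type} [Field E] [Algebra F E]
    (α : Fin f.natDegree → E) (hα : ∀ k, aeval (α k) f = 0) (hinj : Function.Injective α)
    (g : F[X]) : algebraMap F E (Algebra.norm F (AdjoinRoot.mk f g)) = ∏ k, aeval (α k) g := by
  have h := van_mul hf α hα g
  have hV : (vandermonde α).det ≠ 0 := det_vandermonde_ne_zero_iff.mpr hinj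
  rw [Algebra.norm_eq_matrix_det (AdjoinRoot.powerBasisAux hf)]
  have h1 : algebraMap F E (Matrix.det (Algebra.leftMulMatrix (AdjoinRoot.powerBasisAux hf)
      (AdjoinRoot.mk f g))) = Matrix.det ((Algebra.leftMulMatrix (AdjoinRoot.powerBasisAux hf)
      (AdjoinRoot.mk f g)).map (algebraMap F E)) := by
    rw [RingHom.map_det]
    rfl
  rw [h1]
  have h2 := congrArg Matrix.det h
  rw [Matrix.det_mul, Matrix.det_mul, Matrix.det_diagonal, mul_comm] at h2
  exact mul_right_cancel₀ hV h2

/-- the roots in an algebraic closure -/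
theorem exists_roots {f : F[X]} (hs : f.Separable) (E : Type) [Field E] [Algebra F E]
    [IsAlgClosed E] : ∃ α : Fin f.natDegree → E, (∀ k, aeval (α k) f = 0) ∧
      Function.Injective α := by
  classical
  have hsp : (f.map (algebraMap F E)).Splits := IsAlgClosed.splits _
  have hc := Polynomial.card_rootSet_eq_natDegree hs hsp
  set eq := Fintype.equivFinOfCardEq hc with heq
  refine ⟨fun k => (eq.symm k : E), fun k => ?_, fun i j hij => ?_⟩
  · have := (eq.symm k).2
    rw [Polynomial.mem_rootSet'] at this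
    exact this.2
  · exact eq.symm.injective (Subtype.ext hij)

theorem gram_eq {f : F[X]} (hf : f ≠ 0) (u : F[X]) (i j : Fin f.natDegree) :
    gram f u i j = Algebra.trace F (AdjoinRoot f) (AdjoinRoot.mk f u *
      AdjoinRoot.powerBasisAux hf i * AdjoinRoot.powerBasisAux hf j) := by
  unfold Pool.Agent.Q51.EB.gram
  rw [pb_apply, pb_apply, mul_assoc, ← pow_add, ← AdjoinRoot.mk_X, ← map_pow, ← map_mul]

theorem gram_mul {f : F[X]} (hf : f ≠ 0) (u c : F[X]) : gram f (u * c) =
    gram f u * Algebra.leftMulMatrix (AdjoinRoot.powerBasisAux hf) (AdjoinRoot.mk f c) := by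
  ext i j
  rw [Matrix.mul_apply, gram_eq hf]
  have h1 := (AdjoinRoot.powerBasisAux hf).sum_repr
    (AdjoinRoot.mk f c * AdjoinRoot.powerBasisAux hf j)
  have h2 : AdjoinRoot.mk f (u * c) * AdjoinRoot.powerBasisAux hf i *
      AdjoinRoot.powerBasisAux hf j = AdjoinRoot.mk f u * AdjoinRoot.powerBasisAux hf i *
      (AdjoinRoot.mk f c * AdjoinRoot.powerBasisAux hf j) := by
    rw [map_mul]; ring
  rw [h2, ← h1, mul_sum, map_sum]
  refine sum_congr rfl fun k _ => ?_
  rw [gram_eq hf, Algebra.leftMulMatrix_eq_repr_mul, mul_smul_comm, map_smul, smul_eq_mul,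
    mul_comm]

theorem gram_symm (f u : F[X]) : (gram f u).IsSymm := by
  unfold Matrix.IsSymm
  ext i j
  rw [Matrix.transpose_apply]
  unfold Pool.Agent.Q51.EB.gram
  rw [add_comm]

theorem gram_one_det {f : F[X]} (hs : f.Separable) (hf : f ≠ 0) : (gram f 1).det ≠ 0 := by
  obtain ⟨α, hα, hinj⟩ := exists_roots hs (AlgebraicClosure F)
  have h1 : (gram f 1).map (algebraMap F (AlgebraicClosure F)) =
      (vandermonde α).transpose * vandermonde α := by
    ext i j
    rw [Matrix.map_apply, Matrix.mul_apply]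
    unfold Pool.Agent.Q51.EB.gram
    rw [trace_roots hf α hα hinj]
    refine sum_congr rfl fun k _ => ?_
    rw [one_mul, map_pow, aeval_X, Matrix.transpose_apply, vandermonde_apply, vandermonde_apply,
      pow_add]
  have h2 : algebraMap F (AlgebraicClosure F) (gram f 1).det = (vandermonde α).det ^ 2 := by
    have h3 := congrArg Matrix.det h1
    rw [Matrix.det_mul, Matrix.det_transpose, ← sq] at h3
    rw [← h3, RingHom.map_det]
    rfl
  intro h0
  rw [h0, map_zero] at h2
  exact pow_ne_zero 2 (det_vandermonde_ne_zero_iff.mpr hinj) h2.symm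

theorem coprime_iff {f : F[X]} (hf : f ≠ 0) (a : F[X]) :
    IsCoprime f a ↔ Algebra.norm F (AdjoinRoot.mk f a) ≠ 0 := by
  constructor
  · rintro ⟨u, v, h⟩
    have h1 : AdjoinRoot.mk f v * AdjoinRoot.mk f a = 1 := by
      rw [← map_mul, ← map_one (AdjoinRoot.mk f), AdjoinRoot.mk_eq_mk]
      refine ⟨-u, ?_⟩
      linear_combination h
    have h2 := congrArg (Algebra.norm F) h1
    rw [map_mul, map_one] at h2
    intro h3
    rw [h3, mul_zero] at h2
    exact zero_ne_one h2
  · intro h
    haveI : Module.Finite F (AdjoinRoot f) := Module.Finite.of_basis (AdjoinRoot.powerBasisAux hf)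
    rw [Algebra.norm_apply] at h
    obtain ⟨y, hy⟩ := (LinearMap.equivOfDetNeZero _ h).surjective 1
    have hy' : AdjoinRoot.mk f a * y = 1 := hy
    obtain ⟨v, rfl⟩ := AdjoinRoot.mk_surjective y
    rw [← map_mul, ← map_one (AdjoinRoot.mk f), AdjoinRoot.mk_eq_mk] at hy'
    obtain ⟨w, hw⟩ := hy'
    exact ⟨-w, v, by linear_combination hw⟩

end

theorem gram_ : S_GRAM := by
  intro F _ f hs hn
  have hf : f ≠ 0 := by
    rintro rfl
    simp at hn
  refine ⟨gram_symm f, gram_one_det hs hf, ?_, ?_, ?_, ?_, coprime_iff hf⟩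
  · intro u
    have h1 := gram_mul hf 1 u
    rw [one_mul] at h1
    rw [h1, Matrix.det_mul, ← Algebra.norm_eq_matrix_det, mul_comm]
  · intro u c
    refine ⟨Algebra.leftMulMatrix (AdjoinRoot.powerBasisAux hf) (AdjoinRoot.mk f c),
      (Algebra.norm_eq_matrix_det _ _).symm, ?_⟩
    have h1 : u * c ^ 2 = u * c * c := by ring
    rw [h1, gram_mul hf (u * c) c]
    congr 1
    rw [← (gram_symm f (u * c)).eq, gram_mul hf u c, Matrix.transpose_mul, (gram_symm f u).eq]
  · intro l u
    ext i j
    rw [Matrix.smul_apply]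
    unfold Pool.Agent.Q51.EB.gram
    rw [mul_assoc, map_mul, AdjoinRoot.mk_C]
    have h1 : AdjoinRoot.of f l * AdjoinRoot.mk f (u * X ^ ((i : ℕ) + j)) =
        l • AdjoinRoot.mk f (u * X ^ ((i : ℕ) + j)) := by
      rw [Algebra.smul_def]
      rfl
    rw [h1, map_smul]
  · intro u u' h
    ext i j
    unfold Pool.Agent.Q51.EB.gram
    congr 1
    rw [AdjoinRoot.mk_eq_mk, ← sub_mul]
    exact Dvd.dvd.mul_right h _

end Pool.Agent.Q187.EB
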