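import Pool.Agent.Q187.EB.Wd2

/-!
# Project EB (helper51): job HWP
-/

set_option autoImplicit false

namespace Pool.Agent.Q187.EB

open Finset Matrix Module Pool.Agent.Q51.EB
open Pool.Agent.W313.BMX (Splits)

section
variable {F : Type} [Field F]

theorem hs_pow (hF : Hil F) (l x : F) (hl : l ≠ 0) (hx : x ≠ 0) (n : ℕ) :
    hs l (x ^ n) = hs l x ^ n := by
  induction n with
  | zero => rw [pow_zero, pow_zero, hs_one_right]
  | succ n ih => rw [pow_succ, hF.bil _ _ _ hl (pow_ne_zero _ hx) hx, ih, pow_succ]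

theorem HWs_scale (hF : Hil F) (l : F) (hl : l ≠ 0) : ∀ (n : ℕ) (a : Fin n → F), (∀ i, a i ≠ 0) →
    HWs (fun i => l * a i) = hs l l ^ (n * (n - 1) / 2) * hs l (∏ i, a i) ^ (n - 1) * HWs a := by
  intro n
  induction n with
  | zero =>
    intro a _
    unfold HWs
    simp
  | succ n ih =>
    intro a ha
    have hT : ∏ j : Fin n, a j.succ ≠ 0 := prod_ne_zero_iff.mpr fun i _ => ha _
    have hln : l ^ n ≠ 0 := pow_ne_zero _ hl
    rw [HWs_succ' hF n _ (fun i => mul_ne_zero hl (ha i)), HWs_succ' hF n a ha]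
    rw [ih (fun j => a j.succ) (fun i => ha _)]
    have h1 : ∏ j : Fin n, l * a j.succ = l ^ n * ∏ j : Fin n, a j.succ := by
      rw [prod_mul_distrib, prod_const, card_univ, Fintype.card_fin]
    rw [h1, Nat.triangle_succ, Nat.add_sub_cancel, Fin.prod_univ_succ]
    set T := ∏ j : Fin n, a j.succ with hTdef
    rw [hs_mul_left hF _ _ _ hl (ha 0) (mul_ne_zero hln hT), hF.bil _ _ _ hl hln hT,
      hF.bil _ _ _ (ha 0) hln hT, hs_pow hF _ _ hl hl, hs_pow hF _ _ (ha 0) hl,
      hF.bil _ _ _ hl (ha 0) hT, hs_comm (a 0) l, mul_pow, pow_add]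
    have h2 : hs l T * hs l T ^ (n - 1) = hs l T ^ n := by
      cases n with
      | zero =>
        have : T = 1 := by rw [hTdef]; simp
        rw [this, hs_one_right]
        simp
      | succ m => rw [Nat.add_sub_cancel, ← pow_succ']
    rw [← h2]
    generalize hs l T ^ (n - 1) = u1
    generalize hs l T = u2
    generalize hs (a 0) T = u3
    generalize hs l (a 0) ^ n = u4
    generalize hs l l ^ n = u5
    generalize hs l l ^ (n * (n - 1) / 2) = u6
    generalize HWs (fun j : Fin n => a j.succ) = u7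
    simp only [mul_comm, mul_left_comm, mul_assoc]

theorem hw_eq [Infinite F] (hF : Hil F) {n : ℕ} {M : Matrix (Fin n) (Fin n) F} {s : ℤˣ}
    (h : HW M s) : hw M = s := by
  unfold hw
  have hex : ∃ s, HW M s := ⟨s, h⟩
  rw [dif_pos hex]
  exact wd F hF n M _ _ (Classical.choose_spec hex) h

end

theorem hwp_aux : S_HWP := by
  intro F _ _ hF n M hM hdet
  have hex : ∃ s, HW M s := by
    obtain ⟨P, a, h1, h2, h3⟩ := diag F hF.two n M hM hdet
    exact ⟨_, P, a, h1, h2, h3, rfl⟩
  have hHW : HW M (hw M) := by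
    obtain ⟨s, hs⟩ := hex
    rw [hw_eq hF hs]
    exact hs
  refine ⟨fun s hs => hw_eq hF hs, hHW, ?_, ?_⟩
  · intro Q hQ
    apply hw_eq hF
    rw [HW_iff] at hHW ⊢
    obtain ⟨P, a, h1, h2, h3, h4⟩ := hHW
    have hu : IsUnit Q.det := isUnit_iff_ne_zero.mpr hQ
    refine ⟨Q⁻¹ * P, a, ?_, h2, ?_, h4⟩
    · rw [Matrix.det_mul]
      refine mul_ne_zero ?_ h1
      rw [Matrix.det_nonsing_inv]
      rw [Ring.inverse_eq_inv']
      exact inv_ne_zero hQ
    · rw [← h3, Matrix.transpose_mul]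
      have e1 : Q * (Q⁻¹ * P) = P := by
        rw [← Matrix.mul_assoc, Matrix.mul_nonsing_inv _ hu, Matrix.one_mul]
      have e2 : P.transpose * (Q⁻¹).transpose * Q.transpose = P.transpose := by
        rw [← Matrix.transpose_mul, ← Matrix.transpose_mul, e1]
      calc P.transpose * (Q⁻¹).transpose * (Q.transpose * M * Q) * (Q⁻¹ * P) =
          (P.transpose * (Q⁻¹).transpose * Q.transpose) * M * (Q * (Q⁻¹ * P)) := by
            simp only [Matrix.mul_assoc]
        _ = P.transpose * M * P := by rw [e1, e2]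
  · intro l hl
    rw [HW_iff] at hHW
    obtain ⟨P, a, h1, h2, h3, h4⟩ := hHW
    have h5 : HW (l • M) (HWs fun i => l * a i) := by
      rw [HW_iff]
      refine ⟨P, _, h1, fun i => mul_ne_zero hl (h2 i), ?_, rfl⟩
      rw [Matrix.mul_smul, Matrix.smul_mul, h3]
      ext i j
      rw [Matrix.smul_apply, Matrix.diagonal_apply, Matrix.diagonal_apply]
      split_ifs
      · rfl
      · exact smul_zero _
    have h6 : ∏ i, a i = M.det * P.det ^ 2 := by
      have := congrArg Matrix.det h3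
      rw [Matrix.det_mul, Matrix.det_mul, Matrix.det_transpose, Matrix.det_diagonal] at this
      rw [← this]; ring
    rw [hw_eq hF h5, HWs_scale hF l hl n a h2, h6, hs_sq_right _ _ _ h1, h4]

theorem hwp (_h1 : S_WD) (_h2 : S_DIAG) : S_HWP := hwp_aux

end Pool.Agent.Q187.EB
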