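import Pool.Agent.Q187.EB.Jc2

/-!
# Project EB (helper51): job JC, end of the proof
-/

set_option autoImplicit false

namespace Pool.Agent.Q187.EB

open Finset Matrix Module Pool.Agent.Q51.EB
open Pool.Agent.W313.BMX (Splits)

theorem adapted {k : Type} [Field k] {n m : ℕ} (K : Submodule k (Fin n → k))
    (hK : finrank k K = m) : ∃ (p : ℕ) (bK : Basis (Fin m) k K)
      (b : Basis (Fin p ⊕ Fin m) k (Fin n → k)), ∀ j, b (Sum.inr j) = bK j := by
  obtain ⟨K', h⟩ := K.exists_isCompl
  let bK : Basis (Fin m) k K := finBasisOfFinrankEq k K hK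
  refine ⟨finrank k K', bK,
    ((finBasis k K').prod bK).map (Submodule.prodEquivOfIsCompl K' K h.symm), fun j => ?_⟩
  rw [Basis.map_apply]
  simp

section
variable {l : ℕ} [hl : Fact l.Prime]

theorem lift_basis {n p m : ℕ} (b : Basis (Fin p ⊕ Fin m) (ZMod l) (Fin n → ZMod l)) :
    ∃ (e : Fin p ⊕ Fin m ≃ Fin n) (U : Matrix (Fin n) (Fin p ⊕ Fin m) ℤ_[l])
      (V : Matrix (Fin p ⊕ Fin m) (Fin n) ℤ_[l]), U * V = 1 ∧ V * U = 1 ∧
      ∀ i j, PadicInt.toZMod (U i j) = b j i := by
  obtain ⟨e⟩ : Nonempty (Fin p ⊕ Fin m ≃ Fin n) := ⟨b.indexEquiv (Pi.basisFun (ZMod l) (Fin n))⟩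
  obtain ⟨U, hU⟩ := lift_mat (l := l) (fun (i : Fin n) (j : Fin p ⊕ Fin m) => b j i)
  set U1 : Matrix (Fin n) (Fin n) ℤ_[l] := U.submatrix id e.symm with hU1
  have hdet : IsUnit U1.det := by
    rw [unit_iff, red_det]
    have h1 : U1.map PadicInt.toZMod =
        (Pi.basisFun (ZMod l) (Fin n)).toMatrix (b.reindex e) := by
      ext i j
      rw [Basis.toMatrix_apply, Basis.reindex_apply, Pi.basisFun_repr]
      exact congrFun (congrFun hU i) (e.symm j)
    rw [h1]
    have h2 := (Pi.basisFun (ZMod l) (Fin n)).toMatrix_mul_toMatrix_flip (b.reindex e)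
    have h3 := congrArg Matrix.det h2
    rw [Matrix.det_mul, Matrix.det_one] at h3
    exact left_ne_zero_of_mul_eq_one h3
  refine ⟨e, U, (U1⁻¹).submatrix e id, ?_, ?_, fun i j => congrFun (congrFun hU i) j⟩
  · have h1 := Matrix.mul_nonsing_inv U1 hdet
    have h2 : U = U1.submatrix id e := by
      ext i j
      rw [Matrix.submatrix_apply, hU1, Matrix.submatrix_apply, id, id, Equiv.symm_apply_apply]
    rw [h2, ← h1, Matrix.submatrix_mul_equiv U1 (U1⁻¹) id e id]
    rw [Matrix.submatrix_id_id]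
  · have h1 := Matrix.nonsing_inv_mul U1 hdet
    have h2 : U = U1.submatrix id e := by
      ext i j
      rw [Matrix.submatrix_apply, hU1, Matrix.submatrix_apply, id, id, Equiv.symm_apply_apply]
    have h3 : (U1⁻¹).submatrix e id * U1.submatrix id e = (U1⁻¹ * U1).submatrix e e := by
      rw [Matrix.submatrix_mul (U1⁻¹) U1 e id e Function.bijective_id]
    conv_lhs => rw [h2]
    have h4 : (U1.submatrix id e).submatrix id e.symm = U1 := by
      ext i j
      rw [Matrix.submatrix_apply, Matrix.submatrix_apply, id, id, Equiv.apply_symm_apply]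
    rw [h3, h1]
    exact Matrix.submatrix_one_equiv e

theorem div_l (x : ℤ_[l]) (h : PadicInt.toZMod x = 0) : ∃ y, x = (l : ℤ_[l]) * y :=
  (Pool.Agent.W335.BMX.toZMod_eq_zero_iff x).mp h

theorem div_mat {α β : Type} (X : Matrix α β ℤ_[l]) (h : ∀ i j, PadicInt.toZMod (X i j) = 0) :
    ∃ Y : Matrix α β ℤ_[l], X = (l : ℤ_[l]) • Y := by
  choose f hf using fun i j => div_l (X i j) (h i j)
  exact ⟨f, by ext i j : 2; exact hf i j⟩

theorem jc_aux (hF : Hil ℚ_[l]) (hl2 : l ≠ 2) (n m : ℕ) (M N : Matrix (Fin n) (Fin n) ℤ_[l])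
    (hM : M.IsSymm) (hMN : (M * N).IsSymm) (hN : IsUnit N.det)
    (hdet : ∃ u : ℤ_[l], IsUnit u ∧ M.det = (l : ℤ_[l]) ^ m * u)
    (K : Submodule (ZMod l) (Fin n → ZMod l)) (hK : finrank (ZMod l) K = m)
    (hKm : ∀ x, x ∈ K ↔ (M.map PadicInt.toZMod).mulVec x = 0)
    (g : K →ₗ[ZMod l] K)
    (hg : ∀ x : K, ((g x : K) : Fin n → ZMod l) = (N.map PadicInt.toZMod).mulVec x) :
    hw ((M * N).map (algebraMap ℤ_[l] ℚ_[l])) * hw (M.map (algebraMap ℤ_[l] ℚ_[l])) =
    qc (PadicInt.toZMod N.det) ^ m * qc (LinearMap.det g) := by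
  classical
  have hl0 : (l : ℤ_[l]) ≠ 0 := by exact_mod_cast hl.out.ne_zero
  obtain ⟨p, bK, b, hb⟩ := adapted K hK
  obtain ⟨e, U, V, hUV, hVU, hU⟩ := lift_basis b
  set Nb : Matrix (Fin n) (Fin n) (ZMod l) := N.map PadicInt.toZMod with hNb
  set Mb : Matrix (Fin n) (Fin n) (ZMod l) := M.map PadicInt.toZMod with hMb
  set Ub : Matrix (Fin n) (Fin p ⊕ Fin m) (ZMod l) := U.map PadicInt.toZMod with hUb
  set X := U.transpose * M * U with hX
  set Y := V * N * U with hY
  have hXY : U.transpose * (M * N) * U = X * Y := by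
    rw [hX, hY]
    have : M * (N * U) = M * ((U * V) * (N * U)) := by rw [hUV, Matrix.one_mul]
    simp only [Matrix.mul_assoc] at this ⊢
    rw [this]
  have hXs : X.IsSymm := by
    unfold Matrix.IsSymm
    rw [hX, Matrix.transpose_mul, Matrix.transpose_mul, Matrix.transpose_transpose, hM.eq,
      Matrix.mul_assoc]
  -- the reduction of `Y`
  have hYb : Y.map PadicInt.toZMod = LinearMap.toMatrix b b (Matrix.toLin' Nb) := by
    have h1 : Nb * Ub = Ub * LinearMap.toMatrix b b (Matrix.toLin' Nb) := by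
      ext i j
      have h2 := congrFun (b.sum_repr (Matrix.toLin' Nb (b j))) i
      rw [Matrix.mul_apply, Matrix.mul_apply]
      rw [Matrix.toLin'_apply, Finset.sum_apply] at h2
      simp only [LinearMap.toMatrix_apply]
      have h3 : (Nb.mulVec (b j)) i = ∑ x, Nb i x * Ub x j := by
        change ∑ x, Nb i x * b j x = _
        refine Finset.sum_congr rfl fun x _ => ?_
        rw [hUb, Matrix.map_apply, hU]
      rw [← h3, ← h2]
      refine Finset.sum_congr rfl fun x _ => ?_
      rw [Pi.smul_apply, smul_eq_mul, mul_comm, hUb, Matrix.map_apply, hU, Matrix.toLin'_apply]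
    have h4 : V.map PadicInt.toZMod * Ub = 1 := by
      rw [hUb, ← Matrix.map_mul, hVU, Matrix.map_one _ (map_zero _) (map_one _)]
    rw [hY, Matrix.map_mul, Matrix.map_mul, Matrix.mul_assoc]
    change V.map PadicInt.toZMod * (Nb * Ub) = _
    rw [h1, ← Matrix.mul_assoc, h4, Matrix.one_mul]
  have hgY : ∀ j k, PadicInt.toZMod (Y (Sum.inr k) (Sum.inr j)) = LinearMap.toMatrix bK bK g k j ∧
      ∀ i, PadicInt.toZMod (Y (Sum.inl i) (Sum.inr j)) = 0 := by
    intro j k
    have h1 : Matrix.toLin' Nb (b (Sum.inr j)) =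
        ∑ k, LinearMap.toMatrix bK bK g k j • b (Sum.inr k) := by
      rw [Matrix.toLin'_apply, hb, ← hg]
      have h2 := congrArg (fun x : K => (x : Fin n → ZMod l)) (bK.sum_repr (g (bK j)))
      beta_reduce at h2
      rw [← h2, Submodule.coe_sum]
      refine Finset.sum_congr rfl fun x _ => ?_
      rw [Submodule.coe_smul, hb, LinearMap.toMatrix_apply]
    have h5 : ∀ i, PadicInt.toZMod (Y i (Sum.inr j)) =
        (b.repr (∑ k, LinearMap.toMatrix bK bK g k j • b (Sum.inr k))) i := by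
      intro i
      have h3 := congrFun (congrFun hYb i) (Sum.inr j)
      rw [LinearMap.toMatrix_apply, h1] at h3
      exact h3
    have h6 : ∀ i, (b.repr (∑ k, LinearMap.toMatrix bK bK g k j • b (Sum.inr k))) i =
        ∑ k, LinearMap.toMatrix bK bK g k j * (if Sum.inr k = i then 1 else 0) := by
      intro i
      rw [map_sum, Finsupp.finsetSum_apply]
      refine Finset.sum_congr rfl fun x _ => ?_
      rw [map_smul, Basis.repr_self, Finsupp.smul_apply, Finsupp.single_apply, smul_eq_mul]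
    constructor
    · rw [h5, h6]
      simp
    · intro i
      rw [h5, h6]
      simp
  -- the reduction of `X`
  have hXz : ∀ i j, PadicInt.toZMod (X i (Sum.inr j)) = 0 := by
    intro i j
    have h1 : Mb.mulVec (b (Sum.inr j)) = 0 := by
      rw [hb]
      exact (hKm _).mp (bK j).2
    have h2 : X.map PadicInt.toZMod = Ub.transpose * (Mb * Ub) := by
      rw [hX, Matrix.map_mul, Matrix.map_mul, Matrix.mul_assoc, Matrix.transpose_map]
    have h3 := congrFun (congrFun h2 i) (Sum.inr j)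
    rw [Matrix.map_apply] at h3
    rw [h3, Matrix.mul_apply]
    refine Finset.sum_eq_zero fun x _ => ?_
    have h4 : (Mb * Ub) x (Sum.inr j) = (Mb.mulVec (b (Sum.inr j))) x := by
      rw [Matrix.mul_apply]
      change _ = ∑ y, Mb x y * b (Sum.inr j) y
      refine Finset.sum_congr rfl fun y _ => ?_
      rw [hUb, Matrix.map_apply, hU]
    rw [h4, h1, Pi.zero_apply, mul_zero]
  obtain ⟨B, hB⟩ := div_mat (l := l) X.toBlocks₁₂ (fun i j => hXz _ _)
  obtain ⟨E, hE⟩ := div_mat (l := l) X.toBlocks₂₂ (fun i j => hXz _ _)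
  obtain ⟨Y12, hY12⟩ := div_mat (l := l) Y.toBlocks₁₂ (fun i j => (hgY j j).2 i)
  have hXb : X = fromBlocks X.toBlocks₁₁ ((l : ℤ_[l]) • B) X.toBlocks₂₁ ((l : ℤ_[l]) • E) := by
    rw [← hB, ← hE, Matrix.fromBlocks_toBlocks]
  have hYbk : Y = fromBlocks Y.toBlocks₁₁ ((l : ℤ_[l]) • Y12) Y.toBlocks₂₁ Y.toBlocks₂₂ := by
    rw [← hY12, Matrix.fromBlocks_toBlocks]
  set A := X.toBlocks₁₁ with hA
  set C := X.toBlocks₂₁ with hC
  set Y11 := Y.toBlocks₁₁ with hY11
  set Y21 := Y.toBlocks₂₁ with hY21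
  set Y22 := Y.toBlocks₂₂ with hY22
  have hCB : C = (l : ℤ_[l]) • B.transpose := by
    have h1 := hXs.eq
    rw [hXb, Matrix.fromBlocks_transpose, Matrix.fromBlocks_inj] at h1
    rw [← h1.2.2.1, Matrix.transpose_smul]
  have redl : PadicInt.toZMod (l : ℤ_[l]) = 0 := by
    rw [map_natCast, ZMod.natCast_self]
  have hCz : C.map PadicInt.toZMod = 0 := by
    ext i j
    rw [hCB, Matrix.map_apply, Matrix.smul_apply, smul_eq_mul, map_mul, redl, zero_mul]
    rfl
  -- units
  obtain ⟨u, hu, hMu⟩ := hdet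
  have hunit : IsUnit (A.det * E.det) := by
    have h1 : X = fromBlocks 1 0 0 ((l : ℤ_[l]) • (1 : Matrix (Fin m) (Fin m) ℤ_[l])) *
        fromBlocks A ((l : ℤ_[l]) • B) B.transpose E := by
      rw [Matrix.fromBlocks_multiply, hXb, hCB]
      simp
    have h2 := congrArg Matrix.det h1
    rw [Matrix.det_mul, Matrix.det_fromBlocks_zero₁₂, Matrix.det_one, one_mul, Matrix.det_smul,
      Matrix.det_one, mul_one, Fintype.card_fin] at h2
    have h3 : X.det = (l : ℤ_[l]) ^ m * (u * (U.submatrix id e.symm).det ^ 2) := by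
      have h4 : X.submatrix e.symm e.symm =
          (U.submatrix id e.symm).transpose * M * (U.submatrix id e.symm) := by
        rw [hX]
        rfl
      have h5 := congrArg Matrix.det h4
      rw [Matrix.det_submatrix_equiv_self, Matrix.det_mul, Matrix.det_mul, Matrix.det_transpose,
        hMu] at h5
      rw [h5]; ring
    rw [h3] at h2
    have h6 := mul_left_cancel₀ (pow_ne_zero m hl0) h2
    have h7 : IsUnit (U.submatrix id e.symm).det := by
      have h8 : (U.submatrix id e.symm) * (V.submatrix e.symm id) = 1 := by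
        rw [Matrix.submatrix_mul_equiv, hUV, Matrix.submatrix_id_id]
      have h9 := congrArg Matrix.det h8
      rw [Matrix.det_mul, Matrix.det_one] at h9
      exact IsUnit.of_mul_eq_one _ h9
    have h10 : IsUnit (fromBlocks A ((l : ℤ_[l]) • B) B.transpose E).det := by
      rw [← h6]
      exact hu.mul (h7.pow 2)
    rw [unit_iff] at h10 ⊢
    rw [red_det, Matrix.fromBlocks_map] at h10
    have h11 : ((l : ℤ_[l]) • B).map PadicInt.toZMod = 0 := by
      ext i j
      rw [Matrix.map_apply, Matrix.smul_apply, smul_eq_mul, map_mul, redl, zero_mul]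
      rfl
    rw [h11, Matrix.det_fromBlocks_zero₁₂] at h10
    rw [map_mul, red_det, red_det]
    exact h10
  have hAu : IsUnit A.det := isUnit_of_mul_isUnit_left hunit
  have hEu : IsUnit E.det := isUnit_of_mul_isUnit_right hunit
  -- determinant of `N`
  have hNd : PadicInt.toZMod N.det = (Y11.map PadicInt.toZMod).det * LinearMap.det g := by
    have h1 : (Y.map PadicInt.toZMod).det = Nb.det := by
      rw [hYb, LinearMap.det_toMatrix, LinearMap.det_toLin']
    rw [red_det, ← h1, hYbk, Matrix.fromBlocks_map]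
    have h11 : ((l : ℤ_[l]) • Y12).map PadicInt.toZMod = 0 := by
      ext i j
      rw [Matrix.map_apply, Matrix.smul_apply, smul_eq_mul, map_mul, redl, zero_mul]
      rfl
    rw [h11, Matrix.det_fromBlocks_zero₁₂]
    congr 1
    rw [← LinearMap.det_toMatrix bK g]
    congr 1
    ext i j
    exact (hgY j i).1
  have hNne : PadicInt.toZMod N.det ≠ 0 := (unit_iff _).mp hN
  have hY11ne : (Y11.map PadicInt.toZMod).det ≠ 0 := fun h => hNne (by rw [hNd, h, zero_mul])
  have hgne : LinearMap.det g ≠ 0 := fun h => hNne (by rw [hNd, h, mul_zero])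
  -- the second block form
  have hX' : U.transpose * (M * N) * U = fromBlocks (A * Y11 + (l : ℤ_[l]) • (B * Y21))
      ((l : ℤ_[l]) • (A * Y12 + B * Y22)) (C * Y11 + (l : ℤ_[l]) • (E * Y21))
      ((l : ℤ_[l]) • (C * Y12 + E * Y22)) := by
    rw [hXY, hXb, hYbk, Matrix.fromBlocks_multiply]
    simp only [Matrix.mul_smul, Matrix.smul_mul, smul_add]
  have hA' : PadicInt.toZMod (A * Y11 + (l : ℤ_[l]) • (B * Y21)).det =
      PadicInt.toZMod A.det * (Y11.map PadicInt.toZMod).det := by
    rw [red_det, red_det, ← Matrix.det_mul, ← Matrix.map_mul]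
    congr 1
    ext i j
    rw [Matrix.map_apply, Matrix.add_apply, Matrix.smul_apply, smul_eq_mul, map_add, map_mul, redl,
      zero_mul, add_zero, Matrix.map_apply]
  have hE' : PadicInt.toZMod (C * Y12 + E * Y22).det =
      PadicInt.toZMod E.det * LinearMap.det g := by
    have h1 : Y22.map PadicInt.toZMod = LinearMap.toMatrix bK bK g := by
      ext i j
      exact (hgY j i).1
    rw [red_det, red_det, ← LinearMap.det_toMatrix bK g, ← h1, ← Matrix.det_mul, ← Matrix.map_mul]
    congr 1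
    have h2 : (C * Y12 + E * Y22).map PadicInt.toZMod =
        (C * Y12).map PadicInt.toZMod + (E * Y22).map PadicInt.toZMod := by
      ext i j
      rw [Matrix.map_apply, Matrix.add_apply, map_add]
      rfl
    rw [h2, Matrix.map_mul, hCz, Matrix.zero_mul, zero_add]
  have hAne := (unit_iff _).mp hAu
  have hEne := (unit_iff _).mp hEu
  have hA'u : IsUnit (A * Y11 + (l : ℤ_[l]) • (B * Y21)).det := by
    rw [unit_iff, hA']
    exact mul_ne_zero hAne hY11ne
  have hE'u : IsUnit (C * Y12 + E * Y22).det := by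
    rw [unit_iff, hE']
    exact mul_ne_zero hEne hgne
  rw [hw_block hF hl2 e M hM U A B C E (by rw [← hX]; exact hXb) hAu hEu,
    hw_block hF hl2 e (M * N) hMN U _ _ _ _ hX' hA'u hE'u]
  rw [map_mul, map_mul, hA', hE', hNd,
    qc_mul (mul_ne_zero hAne hY11ne) (mul_ne_zero hEne hgne), qc_mul hAne hY11ne,
    qc_mul hEne hgne, qc_mul hAne hEne, qc_mul hY11ne hgne]
  generalize hs (l : ℚ_[l]) (l : ℚ_[l]) ^ (m * (m - 1) / 2) = a1
  generalize qc (PadicInt.toZMod A.det) = a2
  generalize qc (PadicInt.toZMod E.det) = a3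
  generalize qc (Y11.map PadicInt.toZMod).det = a4
  generalize qc (LinearMap.det g) = a5
  have s1 := sq_unit a1
  have s2 := sq_unit (a2 ^ m)
  have s3 := sq_unit (a3 ^ m)
  have s4 := sq_unit a3
  simp only [mul_pow]
  calc a1 * (a2 ^ m * a4 ^ m * (a3 ^ m * a5 ^ m)) * (a3 * a5) * (a1 * (a2 ^ m * a3 ^ m) * a3) =
      (a1 * a1) * (a2 ^ m * a2 ^ m) * (a3 ^ m * a3 ^ m) * (a3 * a3) * (a4 ^ m * a5 ^ m * a5) := by
        simp only [mul_comm, mul_left_comm, mul_assoc]
    _ = a4 ^ m * a5 ^ m * a5 := by rw [s1, s2, s3, s4, one_mul, one_mul, one_mul, one_mul]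

end

theorem jc (_h1 : S_HWP) (h2 : S_BIL) : S_JC := by
  intro l _ hl2 n m M N hM hMN hN hdet K hK hKm g hg
  exact jc_aux (h2.2 l) hl2 n m M N hM hMN hN hdet K hK hKm g hg

end Pool.Agent.Q187.EB
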