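import Pool.Agent.Q187.EB.Tr1
import Pool.Agent.Q187.EB.Gram
import Pool.Agent.Q247.EB.PFC
import Pool.Agent.Q91.EL.Small
import Pool.Agent.Q51.EB.Bas

/-!
# Project EB (helper51): job TR
-/

set_option autoImplicit false

namespace Pool.Agent.Q187.EB

open Finset Matrix Module NumberField IsDedekindDomain Polynomial Pool.Agent.Q51.EB
  Pool.Agent.Q51.EL
open Pool.Agent.Q239.EL (mu ph ab_finite ph_formula norm_int_val exists_ratio)

section
variable {L : Type} [Field L] [NumberField L] {l : ℕ} [hl : Fact l.Prime]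

theorem val_int_one {v : HeightOneSpectrum (𝓞 L)} (hv : Abv v l) {t : ℤ} (ht : ¬ (l : ℤ) ∣ t) :
    v.valuation L ((t : ℤ) : L) = 1 := by
  have h1 : ((t : ℤ) : L) = algebraMap (𝓞 L) L ((t : ℤ) : 𝓞 L) := by simp
  have h2 : ¬ v.valuation L ((t : ℤ) : L) < 1 := by
    rw [h1, HeightOneSpectrum.valuation_lt_one_iff_mem, Pool.Agent.Q239.EL.int_mem_iff hl.out hv]
    exact ht
  have h3 : v.valuation L ((t : ℤ) : L) ≤ 1 := by
    rw [h1]
    exact v.valuation_le_one _
  exact le_antisymm h3 (not_lt.mp h2)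

/-- clearing denominators prime to `l` -/
theorem clear (x : L) (hx : ∀ v : HeightOneSpectrum (𝓞 L), Abv v l → v.valuation L x ≤ 1) :
    ∃ (s : ℤ) (x' : 𝓞 L), ¬ (l : ℤ) ∣ s ∧ (x' : L) = x * ((s : ℤ) : L) ^ 2 := by
  obtain ⟨a, y, hy, hxy⟩ := exists_ratio x
  -- an integer multiple of `y`
  have hN : Ideal.absNorm (Ideal.span {y}) ≠ 0 := by
    rw [Ne, Ideal.absNorm_eq_zero_iff, Ideal.span_singleton_eq_bot]
    exact hy
  obtain ⟨c, hc⟩ := Ideal.mem_span_singleton'.mp (Ideal.absNorm_mem (Ideal.span {y}))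
  set d : ℕ := Ideal.absNorm (Ideal.span {y}) with hd
  obtain ⟨k, s, hs, hds⟩ := Nat.exists_eq_pow_mul_and_not_dvd hN l hl.out.ne_one
  have hdx : ((c * a : 𝓞 L) : L) = (l : L) ^ k * ((s : L) * x) := by
    have h1 : ((c * y : 𝓞 L) : L) = ((d : 𝓞 L) : L) := by rw [hc]
    have h2 : (c : L) * (y : L) = (l : L) ^ k * (s : L) := by
      have : ((d : 𝓞 L) : L) = (l : L) ^ k * (s : L) := by
        rw [hds]
        push_cast
        rfl
      rw [← this, ← h1]
      push_cast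
      rfl
    have h3 : ((c * a : 𝓞 L) : L) = (c : L) * (a : L) := by push_cast; rfl
    rw [h3, ← hxy]
    linear_combination x * h2
  have hl0 : (l : L) ≠ 0 := by exact_mod_cast hl.out.ne_zero
  have hint : ∀ v : HeightOneSpectrum (𝓞 L), v.valuation L ((s : L) * x) ≤ 1 := by
    intro v
    by_cases hv : Abv v l
    · rw [map_mul]
      have h1 : v.valuation L (s : L) ≤ 1 := by
        have : (s : L) = algebraMap (𝓞 L) L (s : 𝓞 L) := by simp
        rw [this]
        exact v.valuation_le_one _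
      exact mul_le_one' h1 (hx v hv)
    · have h1 : v.valuation L (l : L) = 1 := by
        have e1 : (l : L) = algebraMap (𝓞 L) L (l : 𝓞 L) := by simp
        have e2 : ¬ v.valuation L (l : L) < 1 := by
          rw [e1, HeightOneSpectrum.valuation_lt_one_iff_mem]
          exact hv
        have e3 : v.valuation L (l : L) ≤ 1 := by
          rw [e1]
          exact v.valuation_le_one _
        exact le_antisymm e3 (not_lt.mp e2)
      have h2 : v.valuation L ((c * a : 𝓞 L) : L) ≤ 1 := v.valuation_le_one _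
      rw [hdx, map_mul, map_pow, h1, one_pow, one_mul] at h2
      exact h2
  obtain ⟨z, hz⟩ := HeightOneSpectrum.mem_integers_of_valuation_le_one L _ hint
  refine ⟨s, (s : 𝓞 L) * z, by exact_mod_cast hs, ?_⟩
  have h1 : (((s : 𝓞 L) * z : 𝓞 L) : L) = (s : L) * (z : L) := by push_cast; rfl
  have h2 : (z : L) = (s : L) * x := hz
  rw [h1, h2]
  push_cast
  ring

theorem sg_clear {v : HeightOneSpectrum (𝓞 L)} (hv : Abv v l) {t : ℤ} (ht : ¬ (l : ℤ) ∣ t)
    {x : L} (hx : v.valuation L x ≤ 1) : sg v (x * ((t : ℤ) : L) ^ 2) = sg v x := by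
  have h1 := val_int_one (L := L) hv ht
  have key : (∃ g : 𝓞 L, v.valuation L (x * ((t : ℤ) : L) ^ 2 - (g : L) ^ 2) < 1) ↔
      ∃ g : 𝓞 L, v.valuation L (x - (g : L) ^ 2) < 1 := by
    constructor
    · rintro ⟨g, hg⟩
      have hco : IsCoprime (l : ℤ) t :=
        (Prime.coprime_iff_not_dvd (Nat.prime_iff_prime_int.mp hl.out)).mpr ht
      obtain ⟨a, b, hab⟩ := hco
      refine ⟨g * (b : 𝓞 L), ?_⟩
      have e1 : ((g * (b : 𝓞 L) : 𝓞 L) : L) = (g : L) * ((b : ℤ) : L) := by push_cast; rfl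
      have e2 : ((b : ℤ) : L) * ((t : ℤ) : L) = 1 - ((a : ℤ) : L) * (l : L) := by
        have := congrArg (fun z : ℤ => (z : L)) hab
        push_cast at this
        linear_combination this
      have e3 : x - ((g * (b : 𝓞 L) : 𝓞 L) : L) ^ 2 =
          ((b : ℤ) : L) ^ 2 * (x * ((t : ℤ) : L) ^ 2 - (g : L) ^ 2) +
          x * (((a : ℤ) : L) * (2 - ((a : ℤ) : L) * (l : L))) * (l : L) := by
        rw [e1]
        have e4 : ((b : ℤ) : L) ^ 2 * ((t : ℤ) : L) ^ 2 = (1 - ((a : ℤ) : L) * (l : L)) ^ 2 := by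
          rw [← e2]; ring
        linear_combination (-x) * e4
      rw [e3]
      apply lt_of_le_of_lt (Valuation.map_add _ _ _)
      rw [max_lt_iff]
      have hil : ∀ z : 𝓞 L, v.valuation L (z : L) ≤ 1 := fun z => v.valuation_le_one _
      constructor
      · rw [map_mul, map_pow]
        have : v.valuation L ((b : ℤ) : L) ≤ 1 := by
          have h := hil ((b : ℤ) : 𝓞 L)
          have h' : ((((b : ℤ) : 𝓞 L)) : L) = ((b : ℤ) : L) := by simp
          rwa [h'] at h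
        exact mul_lt_of_le_one_of_lt (pow_le_one' this 2) hg
      · rw [map_mul, map_mul]
        have h5 : v.valuation L (l : L) < 1 := by
          have e1 : (l : L) = algebraMap (𝓞 L) L (l : 𝓞 L) := by simp
          rw [e1, HeightOneSpectrum.valuation_lt_one_iff_mem]
          exact hv
        have h6 : v.valuation L (((a : ℤ) : L) * (2 - ((a : ℤ) : L) * (l : L))) ≤ 1 := by
          have h := hil (((a : ℤ) : 𝓞 L) * (2 - ((a : ℤ) : 𝓞 L) * (l : 𝓞 L)))
          have h' : ((((a : ℤ) : 𝓞 L) * (2 - ((a : ℤ) : 𝓞 L) * (l : 𝓞 L)) : 𝓞 L) : L) =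
              ((a : ℤ) : L) * (2 - ((a : ℤ) : L) * (l : L)) := by
            change algebraMap (𝓞 L) L (((a : ℤ) : 𝓞 L) * (2 - ((a : ℤ) : 𝓞 L) * (l : 𝓞 L))) = _
            rw [map_mul, map_sub, map_mul, map_intCast, map_natCast, map_ofNat]
          rwa [h'] at h
        exact mul_lt_of_le_one_of_lt (mul_le_one' hx h6) h5
    · rintro ⟨g, hg⟩
      refine ⟨g * (t : 𝓞 L), ?_⟩
      have e1 : ((g * (t : 𝓞 L) : 𝓞 L) : L) = (g : L) * ((t : ℤ) : L) := by push_cast; rfl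
      have e2 : x * ((t : ℤ) : L) ^ 2 - ((g : L) * ((t : ℤ) : L)) ^ 2 =
          (x - (g : L) ^ 2) * ((t : ℤ) : L) ^ 2 := by ring
      rw [e1, e2, map_mul, map_pow, h1, one_pow, mul_one]
      exact hg
  unfold sg
  by_cases h : ∃ g : 𝓞 L, v.valuation L (x - (g : L) ^ 2) < 1
  · rw [if_pos (key.mpr h), if_pos h]
  · rw [if_neg (fun h' => h (key.mp h')), if_neg h]

/-- the trace form in the power basis and in an integral basis -/
theorem gram_P {f : ℤ[X]} {θ : L} (hs : Setup f L θ) (ωq : Basis (Fin (up f ℚ).natDegree) ℚ L)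
    (b : ℚ[X]) : Pool.Agent.Q51.EB.gram (up f ℚ) b =
      (Matrix.of fun k j : Fin (up f ℚ).natDegree => ωq.repr (θ ^ (j : ℕ)) k).transpose *
      (Matrix.of fun i j => Algebra.trace ℚ L (aeval θ b * (ωq i * ωq j))) *
      (Matrix.of fun k j : Fin (up f ℚ).natDegree => ωq.repr (θ ^ (j : ℕ)) k) := by
  ext i j
  have h1 : Pool.Agent.Q51.EB.gram (up f ℚ) b i j =
      Algebra.trace ℚ L (aeval θ b * (θ ^ (i : ℕ) * θ ^ (j : ℕ))) := by
    unfold Pool.Agent.Q51.EB.gram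
    have h2 := Algebra.trace_eq_of_algEquiv (AlgEquiv.ofBijective (phi hs) (phi_bij hs))
      (AdjoinRoot.mk (up f ℚ) (b * X ^ ((i : ℕ) + j)))
    rw [← h2]
    congr 1
    change phi hs (AdjoinRoot.mk (up f ℚ) (b * X ^ ((i : ℕ) + j))) = _
    rw [phi_mk, map_mul, map_pow, aeval_X, pow_add]
  rw [h1, Matrix.mul_apply]
  simp only [Matrix.mul_apply, Matrix.transpose_apply, Matrix.of_apply]
  conv_lhs => rw [← ωq.sum_repr (θ ^ (i : ℕ)), ← ωq.sum_repr (θ ^ (j : ℕ))]
  rw [Finset.sum_mul_sum, Finset.mul_sum, map_sum]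
  have h3 : ∀ x y, Algebra.trace ℚ L (aeval θ b *
      ((ωq.repr (θ ^ (i : ℕ))) x • ωq x * (ωq.repr (θ ^ (j : ℕ))) y • ωq y)) =
      (ωq.repr (θ ^ (i : ℕ))) x * Algebra.trace ℚ L (aeval θ b * (ωq x * ωq y)) *
        (ωq.repr (θ ^ (j : ℕ))) y := by
    intro x y
    have e : aeval θ b * ((ωq.repr (θ ^ (i : ℕ))) x • ωq x * (ωq.repr (θ ^ (j : ℕ))) y • ωq y) =
        ((ωq.repr (θ ^ (i : ℕ))) x * (ωq.repr (θ ^ (j : ℕ))) y) •
          (aeval θ b * (ωq x * ωq y)) := by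
      rw [Algebra.smul_def, Algebra.smul_def, Algebra.smul_def, map_mul]
      ring
    rw [e, map_smul, smul_eq_mul]
    ring
  have h4 : ∀ x, Algebra.trace ℚ L (aeval θ b * ∑ y,
      (ωq.repr (θ ^ (i : ℕ))) x • ωq x * (ωq.repr (θ ^ (j : ℕ))) y • ωq y) =
      ∑ y, (ωq.repr (θ ^ (i : ℕ))) x * Algebra.trace ℚ L (aeval θ b * (ωq x * ωq y)) *
        (ωq.repr (θ ^ (j : ℕ))) y := by
    intro x
    rw [Finset.mul_sum, map_sum]
    exact Finset.sum_congr rfl fun y _ => h3 x y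
  rw [Finset.sum_congr rfl fun x _ => h4 x, Finset.sum_comm]
  refine Finset.sum_congr rfl fun y _ => ?_
  rw [Finset.sum_mul]

theorem hw_trans (hhwp : S_HWP) (hgram : S_GRAM) (hF : Hil ℚ_[l]) {f : ℤ[X]} {θ : L}
    (hs : Setup f L θ) (hn : 1 ≤ (up f ℚ).natDegree)
    (ω : Basis (Fin (up f ℚ).natDegree) ℤ (𝓞 L))
    (ωq : Basis (Fin (up f ℚ).natDegree) ℚ L) (hω : ∀ i, ωq i = (ω i : L))
    (b : ℚ[X]) (x' : 𝓞 L) (hx' : x' ≠ 0) (s : ℤ) (hs0 : s ≠ 0)
    (hx : (x' : L) = aeval θ b * ((s : ℤ) : L) ^ 2) :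
    hw (Pool.Agent.Q51.EB.gram (up f ℚ_[l]) (b.map (Rat.castHom ℚ_[l]))) =
      hw ((TM ω x').map (Int.castRingHom ℚ_[l])) := by
  rw [Pool.Agent.Q247.EB.hw_gram f hs.irr ℚ_[l] b]
  set P : Matrix (Fin (up f ℚ).natDegree) (Fin (up f ℚ).natDegree) ℚ :=
    Matrix.of fun k j : Fin (up f ℚ).natDegree => ωq.repr (θ ^ (j : ℕ)) k with hP
  have hsep : (up f ℚ).Separable := Irreducible.separable hs.irr
  have hPd : P.det ≠ 0 := by
    have h1 := (hgram ℚ (up f ℚ) hsep hn).2.1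
    rw [gram_P hs ωq, Matrix.det_mul] at h1
    exact right_ne_zero_of_mul h1
  have hsq : ((s : ℤ) : ℚ) ≠ 0 := by exact_mod_cast hs0
  have hT : (Matrix.of fun i j => Algebra.trace ℚ L (aeval θ b * (ωq i * ωq j))) =
      (((s : ℤ) : ℚ)⁻¹ ^ 2) • (TM ω x').map (Int.castRingHom ℚ) := by
    ext i j
    rw [Matrix.smul_apply, Matrix.map_apply, Matrix.of_apply, smul_eq_mul]
    unfold TM
    rw [Matrix.of_apply]
    have h2 : (Int.castRingHom ℚ) (Algebra.trace ℤ (𝓞 L) (x' * (ω i * ω j))) =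
        Algebra.trace ℚ L ((x' * (ω i * ω j) : 𝓞 L) : L) := Algebra.coe_trace_int _
    rw [h2]
    have h3 : ((x' * (ω i * ω j) : 𝓞 L) : L) =
        (((s : ℤ) : ℚ) ^ 2) • (aeval θ b * (ωq i * ωq j)) := by
      have : ((x' * (ω i * ω j) : 𝓞 L) : L) = (x' : L) * ((ω i : L) * (ω j : L)) := by
        push_cast
        rfl
      rw [this, hx, hω, hω, Algebra.smul_def, map_pow, map_intCast]
      ring
    rw [h3, map_smul, smul_eq_mul]
    field_simp
  set Q : Matrix (Fin (up f ℚ).natDegree) (Fin (up f ℚ).natDegree) ℚ_[l] :=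
    (((s : ℤ) : ℚ)⁻¹ • P).map (Rat.castHom ℚ_[l]) with hQ
  have hQd : Q.det ≠ 0 := by
    have : Q.det = Rat.castHom ℚ_[l] (((s : ℤ) : ℚ)⁻¹ • P).det :=
      (RingHom.map_det (Rat.castHom ℚ_[l]) _).symm
    rw [this, Matrix.det_smul]
    intro h
    rw [map_eq_zero] at h
    exact mul_ne_zero (pow_ne_zero _ (inv_ne_zero hsq)) hPd h
  have hmm : ((TM ω x').map (Int.castRingHom ℚ)).map (Rat.castHom ℚ_[l]) =
      (TM ω x').map (Int.castRingHom ℚ_[l]) := by
    rw [Matrix.map_map]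
    ext i j
    simp
  have e1 : (Pool.Agent.Q51.EB.gram (up f ℚ) b).map (Rat.castHom ℚ_[l]) =
      Q.transpose * (TM ω x').map (Int.castRingHom ℚ_[l]) * Q := by
    rw [gram_P hs ωq, hT, ← hP, hQ, ← hmm, ← Matrix.transpose_map, ← Matrix.map_mul,
      ← Matrix.map_mul]
    congr 1
    rw [Matrix.transpose_smul, Matrix.smul_mul, Matrix.mul_smul, Matrix.smul_mul, Matrix.mul_smul,
      Matrix.smul_mul, smul_smul, sq]
  have hsymm : ((TM ω x').map (Int.castRingHom ℚ_[l])).IsSymm := by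
    unfold Matrix.IsSymm
    rw [← Matrix.transpose_map, (TM_symm ω _).eq]
  have hdet : ((TM ω x').map (Int.castRingHom ℚ_[l])).det ≠ 0 := by
    have h1 : ((TM ω x').map (Int.castRingHom ℚ_[l])).det = (((TM ω x').det : ℤ) : ℚ_[l]) :=
      (RingHom.map_det (Int.castRingHom ℚ_[l]) _).symm
    rw [h1, TM_eq, Matrix.det_mul, TM_one_det, norm_eq_det]
    have h2 : NumberField.discr L * Algebra.norm ℤ x' ≠ 0 := by
      refine mul_ne_zero (NumberField.discr_ne_zero L) ?_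
      rw [Ne, Algebra.norm_eq_zero_iff]
      exact hx'
    exact_mod_cast h2
  rw [e1]
  exact (hhwp ℚ_[l] hF _ _ hsymm hdet).2.2.1 Q hQd

end

theorem tr_aux (hhwp : S_HWP) (hgram : S_GRAM) (hbil : S_BIL) : S_TR := by
  classical
  intro f L _ _ θ hs
  obtain ⟨⟨B1, hB1, hram⟩, -⟩ := Pool.Agent.Q91.EL.ram L
  refine ⟨2 * (NumberField.discr L).natAbs * B1, mul_ne_zero (mul_ne_zero two_ne_zero
    (Int.natAbs_ne_zero.mpr (NumberField.discr_ne_zero L))) hB1, ?_⟩
  intro l hl hlB b g m T hT hval hm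
  have hl2 : l ≠ 2 := by
    rintro rfl
    exact hlB (Dvd.dvd.mul_right (Dvd.dvd.mul_right (dvd_refl _) _) _)
  have hdisc : ¬ (l : ℤ) ∣ NumberField.discr L := by
    intro h
    apply hlB
    exact Dvd.dvd.mul_right (Dvd.dvd.mul_left (Int.natCast_dvd.mp h) _) _
  have hsq := hram l hl.out (fun h => hlB (Dvd.dvd.mul_left h _))
  have hF := hbil.2 l
  -- degree and bases
  have hdeg : (up f ℚ).natDegree = finrank ℚ L := by
    rw [hs.deg]
    exact natDegree_map_eq_of_injective (Int.castRingHom ℚ).injective_int f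
  have hn : 1 ≤ (up f ℚ).natDegree := by
    rw [hdeg]
    exact Module.finrank_pos
  obtain ⟨ω, ωq, hω⟩ : ∃ (ω : Basis (Fin (up f ℚ).natDegree) ℤ (𝓞 L))
      (ωq : Basis (Fin (up f ℚ).natDegree) ℚ L), ∀ i, ωq i = (ω i : L) := by
    have hc : Fintype.card (Free.ChooseBasisIndex ℤ (𝓞 L)) = (up f ℚ).natDegree := by
      rw [hdeg, finrank_eq_card_basis (NumberField.integralBasis L)]
    let e := Fintype.equivFinOfCardEq hc
    refine ⟨(RingOfIntegers.basis L).reindex e, (NumberField.integralBasis L).reindex e,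
      fun i => ?_⟩
    rw [Basis.reindex_apply, Basis.reindex_apply, NumberField.integralBasis_apply]
  -- a prime above `l`
  obtain ⟨v0, hv0⟩ : ∃ v0 : HeightOneSpectrum (𝓞 L), Abv v0 l := by
    by_contra hcon
    push Not at hcon
    have h1 := Pool.Agent.Q239.EL.sum_ph (L := L) (l := l) hsq
    have h2 : (ab_finite (L := L) hl.out.ne_zero).toFinset = ∅ := by
      ext v
      rw [Set.Finite.mem_toFinset]
      simp only [Finset.notMem_empty, iff_false]
      exact hcon v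
    rw [h2, Finset.sum_empty] at h1
    have : 0 < finrank ℚ L := Module.finrank_pos
    omega
  have hbv : ∀ v : HeightOneSpectrum (𝓞 L), Abv v l → v.valuation L (aeval θ b) ≤ 1 := by
    intro v hv
    by_cases h : v ∈ T
    · rw [(hval v hv).1 h]
      rw [← WithZero.exp_zero, WithZero.exp_le_exp]
      norm_num
    · rw [(hval v hv).2.1 h]
  have hgv : ∀ v : HeightOneSpectrum (𝓞 L), Abv v l → v.valuation L (aeval θ g) ≤ 1 :=
    fun v hv => (hval v hv).2.2.le
  obtain ⟨s, x', hs', hx'⟩ := clear (l := l) (aeval θ b) hbv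
  obtain ⟨t, γ', ht', hγ'⟩ := clear (l := l) (aeval θ g) hgv
  have hs0 : s ≠ 0 := by
    rintro rfl
    exact hs' (dvd_zero _)
  have ht0 : t ≠ 0 := by
    rintro rfl
    exact ht' (dvd_zero _)
  have hvx : ∀ v : HeightOneSpectrum (𝓞 L), Abv v l →
      v.valuation L (x' : L) = v.valuation L (aeval θ b) := by
    intro v hv
    rw [hx', map_mul, map_pow, val_int_one hv hs', one_pow, mul_one]
  have hvγ : ∀ v : HeightOneSpectrum (𝓞 L), Abv v l → v.valuation L (γ' : L) = 1 := by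
    intro v hv
    rw [hγ', map_mul, map_pow, val_int_one hv ht', one_pow, mul_one]
    exact (hval v hv).2.2
  have hx0 : x' ≠ 0 := by
    rintro rfl
    have h1 := hvx v0 hv0
    have z0 : ((0 : 𝓞 L) : L) = 0 := map_zero (algebraMap (𝓞 L) L)
    rw [z0, map_zero] at h1
    by_cases h : v0 ∈ T
    · rw [(hval v0 hv0).1 h] at h1
      exact WithZero.exp_ne_zero h1.symm
    · rw [(hval v0 hv0).2.1 h] at h1
      exact zero_ne_one h1
  have hγ0 : γ' ≠ 0 := by
    rintro rfl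
    have h1 := hvγ v0 hv0
    have z0 : ((0 : 𝓞 L) : L) = 0 := map_zero (algebraMap (𝓞 L) L)
    rw [z0, map_zero] at h1
    exact zero_ne_one h1
  have hx1 : ∀ v : HeightOneSpectrum (𝓞 L), Abv v l → (v ∈ T → mu v (Ideal.span {x'}) = 1) ∧
      (v ∉ T → mu v (Ideal.span {x'}) = 0) := by
    intro v hv
    have h1 := Pool.Agent.Q239.EL.val_int v hx0
    rw [hvx v hv] at h1
    constructor
    · intro h
      rw [(hval v hv).1 h, WithZero.exp_inj] at h1
      omega
    · intro h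
      rw [(hval v hv).2.1 h, ← WithZero.exp_zero, WithZero.exp_inj] at h1
      omega
  have hγ1 : ∀ v : HeightOneSpectrum (𝓞 L), Abv v l → γ' ∉ v.asIdeal := by
    intro v hv h
    have h1 := (v.valuation_lt_one_iff_mem (K := L) γ').mpr h
    exact absurd (hvγ v hv) h1.ne
  have key := tr_int ω hF hl2 hsq hdisc hx0 hγ0 T hT hx1 hγ1 m hm
  have e1 := hw_trans hhwp hgram hF hs hn ω ωq hω b x' hx0 s hs0 hx'
  have e2 := hw_trans hhwp hgram hF hs hn ω ωq hω (b * g) (x' * γ') (mul_ne_zero hx0 hγ0) (s * t)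
    (mul_ne_zero hs0 ht0) (by
      have : ((x' * γ' : 𝓞 L) : L) = (x' : L) * (γ' : L) := by push_cast; rfl
      rw [this, hx', hγ', map_mul]
      push_cast
      ring)
  rw [e1, e2, key]
  have hnorm : ((Algebra.norm ℤ γ' : ℤ) : ℚ_[l]) =
      ((Algebra.norm ℚ (aeval θ g) : ℚ) : ℚ_[l]) * (((t : ℤ) : ℚ_[l]) ^ finrank ℚ L) ^ 2 := by
    have h1 : ((Algebra.norm ℤ γ' : ℤ) : ℚ) =
        Algebra.norm ℚ (aeval θ g) * (((t : ℤ) : ℚ) ^ finrank ℚ L) ^ 2 := by
      rw [Algebra.coe_norm_int, hγ', map_mul, map_pow]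
      have h2 : ((t : ℤ) : L) = algebraMap ℚ L ((t : ℤ) : ℚ) := by simp
      rw [h2, Algebra.norm_algebraMap]
    have h3 := congrArg (fun q : ℚ => (q : ℚ_[l])) h1
    push_cast at h3
    exact h3
  have ht1 : (((t : ℤ) : ℚ_[l]) ^ finrank ℚ L) ≠ 0 := pow_ne_zero _ (by exact_mod_cast ht0)
  rw [hnorm, hs_sq_right _ _ _ ht1, hs_comm]
  congr 1
  refine Finset.prod_congr rfl fun v hv => ?_
  rw [hγ']
  exact sg_clear (hT v hv) ht' (hgv v (hT v hv))

theorem tr (_h1 : S_JC) (h2 : S_GRAM) (_h3 : S_BC) : S_TR :=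
  tr_aux hwp_aux h2 Pool.Agent.Q247.EB.bil

end Pool.Agent.Q187.EB
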