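import Pool.Agent.Q187.EB.Wd

/-!
# Project EB (helper51): jobs WD and DIAG
-/

set_option autoImplicit false

namespace Pool.Agent.Q187.EB

open Finset Matrix Module Pool.Agent.Q51.EB
open Pool.Agent.W313.BMX (Splits)

section
variable {F : Type} [Field F]

theorem toBilin_col {n : ℕ} (M P : Matrix (Fin n) (Fin n) F) (i j : Fin n) :
    Matrix.toBilin' M (fun k => P k i) (fun k => P k j) = (P.transpose * M * P) i j := by
  rw [Matrix.toBilin'_apply', Matrix.mul_assoc, Matrix.mul_apply]
  rfl

theorem symm_of_diag {n : ℕ} {M P : Matrix (Fin n) (Fin n) F} {a : Fin n → F} (hP : P.det ≠ 0)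
    (h : P.transpose * M * P = Matrix.diagonal a) : M.IsSymm := by
  have hu : IsUnit P.det := isUnit_iff_ne_zero.mpr hP
  have hut : IsUnit P.transpose.det := by rw [Matrix.det_transpose]; exact hu
  have e1 : M = (P.transpose)⁻¹ * Matrix.diagonal a * P⁻¹ := by
    rw [← h]
    rw [Matrix.mul_assoc, Matrix.mul_assoc, Matrix.mul_assoc, Matrix.mul_nonsing_inv _ hu,
      Matrix.mul_one, ← Matrix.mul_assoc, Matrix.nonsing_inv_mul _ hut, Matrix.one_mul]
  unfold Matrix.IsSymm
  rw [e1, Matrix.transpose_mul, Matrix.transpose_mul, Matrix.diagonal_transpose,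
    ← Matrix.transpose_nonsing_inv, Matrix.transpose_transpose, Matrix.mul_assoc]

theorem toBilin_symm {n : ℕ} {M : Matrix (Fin n) (Fin n) F} (h : M.IsSymm) :
    (Matrix.toBilin' M).IsSymm := by
  refine ⟨fun x y => ?_⟩
  rw [Matrix.toBilin'_apply', Matrix.toBilin'_apply', Matrix.dotProduct_mulVec,
    dotProduct_comm, ← Matrix.mulVec_transpose, h.eq]

theorem ob_of_diag {n : ℕ} {M P : Matrix (Fin n) (Fin n) F} {a : Fin n → F}
    (ha : ∀ i, a i ≠ 0) (h : P.transpose * M * P = Matrix.diagonal a) :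
    Ob (Matrix.toBilin' M) (fun i k => P k i) a := by
  refine ⟨fun i j hij => ?_, fun i => ?_, ha⟩
  · rw [toBilin_col, h, Matrix.diagonal_apply_ne _ hij]
  · rw [toBilin_col, h, Matrix.diagonal_apply_eq]

theorem HW_iff {n : ℕ} (M : Matrix (Fin n) (Fin n) F) (s : ℤˣ) : HW M s ↔
    ∃ (P : Matrix (Fin n) (Fin n) F) (a : Fin n → F), P.det ≠ 0 ∧ (∀ i, a i ≠ 0) ∧
    P.transpose * M * P = Matrix.diagonal a ∧ s = HWs a := Iff.rfl

end

theorem wd : S_WD := by
  intro F _ _ hF n M s s' h h'
  rw [HW_iff] at h h'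
  obtain ⟨P, a, hP, ha, hd, rfl⟩ := h
  obtain ⟨P', a', hP', ha', hd', rfl⟩ := h'
  have hM := symm_of_diag hP hd
  have o := ob_of_diag ha hd
  have o' := ob_of_diag ha' hd'
  have hc : Fintype.card (Fin n) = finrank F (Fin n → F) := by
    rw [finrank_fintype_fun_eq_card]
  have s1 := o.linInd.span_eq_top_of_card_eq_finrank' hc
  have s2 := o'.linInd.span_eq_top_of_card_eq_finrank' hc
  exact st_all hF (toBilin_symm hM) n _ _ _ _ o o' (s1.trans s2.symm)

theorem diag : S_DIAG := by
  intro F _ h2 n M hM hdet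
  have hB := toBilin_symm hM
  haveI : Invertible (2 : F) := invertibleOfNonzero h2
  have hr : finrank F (Fin n → F) = n := by
    rw [finrank_fintype_fun_eq_card, Fintype.card_fin]
  obtain ⟨v, hv⟩ : ∃ v : Basis (Fin n) F (Fin n → F), ∀ i j, i ≠ j →
      Matrix.toBilin' M (v i) (v j) = 0 := by
    obtain ⟨v, hv⟩ := LinearMap.BilinForm.exists_orthogonal_basis
      (LinearMap.BilinForm.isSymm_iff.mp hB)
    refine ⟨v.reindex (finCongr hr), fun i j hij => ?_⟩
    rw [Basis.reindex_apply, Basis.reindex_apply]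
    exact hv (fun h' => hij ((finCongr hr).symm.injective h'))
  set P : Matrix (Fin n) (Fin n) F := fun k i => v i k with hP
  have hcol : ∀ i j, Matrix.toBilin' M (v i) (v j) = (P.transpose * M * P) i j := fun i j =>
    toBilin_col M P i j
  have hd : P.transpose * M * P = Matrix.diagonal fun i => Matrix.toBilin' M (v i) (v i) := by
    ext i j
    rw [← hcol]
    by_cases hij : i = j
    · subst hij
      rw [Matrix.diagonal_apply_eq]
    · rw [Matrix.diagonal_apply_ne _ hij, hv i j hij]
  have ha : ∀ i, Matrix.toBilin' M (v i) (v i) ≠ 0 := by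
    intro i h0
    have h1 : ∀ j, Matrix.toBilin' M (v i) (v j) = 0 := by
      intro j
      by_cases hij : i = j
      · rw [← hij, h0]
      · exact hv i j hij
    have h3 : ∀ x, Matrix.toBilin' M (v i) x = 0 := by
      intro x
      rw [← v.sum_repr x, map_sum]
      exact sum_eq_zero fun j _ => by rw [map_smul, h1, smul_zero]
    have h4 : Matrix.vecMul (v i) M = 0 := by
      funext k
      have := h3 (Pi.single k 1)
      rw [Matrix.toBilin'_apply', Matrix.dotProduct_mulVec, dotProduct_single, mul_one] at this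
      exact this
    exact v.ne_zero i (Matrix.eq_zero_of_vecMul_eq_zero hdet h4)
  refine ⟨P, _, ?_, ha, hd⟩
  intro h5
  have h6 := congrArg Matrix.det hd
  rw [Matrix.det_mul, h5, mul_zero, Matrix.det_diagonal] at h6
  exact (prod_ne_zero_iff.mpr fun i _ => ha i) h6.symm

end Pool.Agent.Q187.EB
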