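import Mathlib

/-!
# Project EB (helper51): determinants on products of vector spaces, norms of finite fields
-/

set_option autoImplicit false

namespace Pool.Agent.Q187.EB

open Finset Module

theorem det_pi' {k : Type} [Field k] (ι : Type) [Fintype ι] : ∀ (V : ι → Type)
    [∀ i, AddCommGroup (V i)] [∀ i, Module k (V i)] [∀ i, Module.Finite k (V i)]
    (g : ∀ i, V i →ₗ[k] V i) (f : (∀ i, V i) →ₗ[k] (∀ i, V i)),
    (∀ x i, f x i = g i (x i)) → LinearMap.det f = ∏ i, LinearMap.det (g i) := by
  refine Fintype.induction_empty_option (P := fun ι _ => ∀ (V : ι → Type)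
    [∀ i, AddCommGroup (V i)] [∀ i, Module k (V i)] [∀ i, Module.Finite k (V i)]
    (g : ∀ i, V i →ₗ[k] V i) (f : (∀ i, V i) →ₗ[k] (∀ i, V i)),
    (∀ x i, f x i = g i (x i)) → LinearMap.det f = ∏ i, LinearMap.det (g i)) ?_ ?_ ?_ ι
  · intro α β _ e ih V _ _ _ g f hf
    let _ : Fintype α := Fintype.ofEquiv β e.symm
    let E : ((i : α) → V (e i)) ≃ₗ[k] ((i : β) → V i) := LinearEquiv.piCongrLeft k V e
    have hE : ∀ x a, E x (e a) = x a := by
      intro x a
      exact Equiv.piCongrLeft_apply_apply V e x a
    have h3 := LinearMap.det_conj f E.symm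
    rw [← h3, ih (fun a => V (e a)) (fun a => g (e a)), ← Equiv.prod_comp e]
    · intro x a
      have h4 : ∀ y : (i : β) → V i, E.symm y a = y (e a) := by
        intro y
        have := hE (E.symm y) a
        rw [E.apply_symm_apply] at this
        exact this.symm
      change E.symm (f (E x)) a = _
      rw [h4, hf, hE]
  · intro V _ _ _ g f _
    rw [Finset.univ_eq_empty, Finset.prod_empty]
    have h : f = LinearMap.id := by
      ext x : 1
      exact Subsingleton.elim _ _
    rw [h, LinearMap.det_id]
  · intro α _ ih V _ _ _ g f hf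
    let E : ((i : Option α) → V i) ≃ₗ[k] (V none × ((i : α) → V (some i))) :=
      LinearEquiv.piOptionEquivProd k
    have h3 := LinearMap.det_conj f E
    let f' : ((i : α) → V (some i)) →ₗ[k] ((i : α) → V (some i)) :=
      LinearMap.pi fun a => (g (some a)).comp (LinearMap.proj a)
    have h2 : (E : ((i : Option α) → V i) →ₗ[k] (V none × ((i : α) → V (some i)))) ∘ₗ f ∘ₗ
        (E.symm : (V none × ((i : α) → V (some i))) →ₗ[k] ((i : Option α) → V i)) =
        LinearMap.prodMap (g none) f' := by
      refine LinearMap.ext fun p => ?_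
      have e1 : ∀ y : ((i : Option α) → V i), E y = (y none, fun a => y (some a)) := fun y => rfl
      have e2 : E.symm p none = p.1 := rfl
      have e3 : ∀ a, E.symm p (some a) = p.2 a := fun a => rfl
      change E (f (E.symm p)) = _
      rw [e1, hf, e2, LinearMap.prodMap_apply]
      refine Prod.ext rfl (funext fun a => ?_)
      change f (E.symm p) (some a) = g (some a) (p.2 a)
      rw [hf, e3]
    rw [← h3, h2, LinearMap.det_prodMap, ih (fun a => V (some a)) (fun a => g (some a)) f'
      (fun x i => rfl), Fintype.prod_option]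

theorem det_equiv {k : Type} [Field k] {ι : Type} [Fintype ι] (V : ι → Type)
    [∀ i, AddCommGroup (V i)] [∀ i, Module k (V i)] [∀ i, Module.Finite k (V i)]
    (g : ∀ i, V i →ₗ[k] V i) {K : Type} [AddCommGroup K] [Module k K]
    (E : K ≃ₗ[k] (∀ i, V i)) (f : K →ₗ[k] K) (hf : ∀ x i, E (f x) i = g i (E x i)) :
    LinearMap.det f = ∏ i, LinearMap.det (g i) := by
  rw [← LinearMap.det_conj f E]
  apply det_pi'
  intro x i
  change E (f (E.symm x)) i = _
  rw [hf, E.apply_symm_apply]

theorem isSquare_norm_iff {k K : Type} [Field k] [Field K] [Algebra k K] [Finite K]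
    (h2 : ringChar K ≠ 2) (x : K) (hx : x ≠ 0) :
    IsSquare (Algebra.norm k x) ↔ IsSquare x := by
  constructor
  · intro h
    have : Finite k := Finite.of_injective _ (algebraMap k K).injective
    have : Fintype k := Fintype.ofFinite k
    have : Fintype K := Fintype.ofFinite K
    have h2' : ringChar k ≠ 2 := by rwa [Algebra.ringChar_eq k K]
    have hn : Algebra.norm k x ≠ 0 := by
      rw [Ne, Algebra.norm_eq_zero_iff]; exact hx
    rw [FiniteField.isSquare_iff h2' hn] at h
    rw [FiniteField.isSquare_iff h2 hx]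
    have h3 := FiniteField.algebraMap_norm_eq_pow (K := k) (x := x)
    have h4 := congrArg (algebraMap k K) h
    rw [map_pow, h3, map_one, ← pow_mul] at h4
    rw [← h4]
    congr 1
    rw [Nat.card_eq_fintype_card, Nat.card_eq_fintype_card]
    have h5 : Fintype.card K = Fintype.card k ^ finrank k K := Module.card_eq_pow_finrank
    have h6 : (Fintype.card k - 1) ∣ (Fintype.card K - 1) := by
      rw [h5]
      simpa using Nat.sub_dvd_pow_sub_pow (Fintype.card k) 1 (finrank k K)
    have h7 : Fintype.card k % 2 = 1 := FiniteField.odd_card_of_char_ne_two h2'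
    have h8 : Fintype.card K % 2 = 1 := FiniteField.odd_card_of_char_ne_two h2
    obtain ⟨c, hc⟩ := h6
    have h9 : 1 < Fintype.card k := Fintype.one_lt_card
    rw [hc, Nat.mul_div_cancel_left _ (by omega)]
    obtain ⟨d, hd⟩ : ∃ d, Fintype.card k = 2 * d + 1 := ⟨Fintype.card k / 2, by omega⟩
    have h10 : Fintype.card K = 2 * (d * c) + 1 := by
      have : 2 * d * c = 2 * (d * c) := by ring
      rw [hd, Nat.add_sub_cancel, this] at hc
      have := Fintype.card_pos (α := K)
      omega
    rw [h10, hd]
    have e1 : (2 * (d * c) + 1) / 2 = d * c := by omega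
    have e2 : (2 * d + 1) / 2 = d := by omega
    rw [e1, e2, mul_comm]
  · rintro ⟨y, rfl⟩
    exact ⟨Algebra.norm k y, map_mul _ _ _⟩

end Pool.Agent.Q187.EB
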