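import Pool.Agent.Q51.EB.Stm

/-!
# Project EB (helper51): elementary properties of Hilbert symbols and of the product of the symbols of a
diagonal form
-/

set_option autoImplicit false

namespace Pool.Agent.Q187.EB

open Finset Matrix Module Pool.Agent.Q51.EB
open Pool.Agent.W313.BMX (Splits)

section sym
variable {F : Type} [Field F]

theorem splits_comm (a b : F) : Splits a b ↔ Splits b a := by
  constructor
  · rintro ⟨x, y, z, h, e⟩
    exact ⟨y, x, z, by tauto, by rw [e]; ring⟩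
  · rintro ⟨x, y, z, h, e⟩
    exact ⟨y, x, z, by tauto, by rw [e]; ring⟩

theorem hs_congr {a b a' b' : F} (h : Splits a b ↔ Splits a' b') : hs a b = hs a' b' := by
  unfold hs
  by_cases h1 : Splits a b
  · rw [if_pos h1, if_pos (h.1 h1)]
  · rw [if_neg h1, if_neg (fun h2 => h1 (h.2 h2))]

theorem hs_comm (a b : F) : hs a b = hs b a := hs_congr (splits_comm a b)

theorem hs_of_splits {a b : F} (h : Splits a b) : hs a b = 1 := by
  unfold hs
  rw [if_pos h]

/-- binary forms -/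
theorem splits_bin {a0 a1 b0 b1 p q r s : F} (h0 : b0 = p ^ 2 * a0 + q ^ 2 * a1)
    (h1 : b1 = r ^ 2 * a0 + s ^ 2 * a1) (h2 : p * r * a0 + q * s * a1 = 0)
    (hd : p * s - q * r ≠ 0) (h : Splits b0 b1) : Splits a0 a1 := by
  obtain ⟨x, y, z, hne, e⟩ := h
  refine ⟨p * x + r * y, q * x + s * y, z, ?_, ?_⟩
  · by_contra hcon
    push Not at hcon
    obtain ⟨c1, c2, c3⟩ := hcon
    have e1 : (p * s - q * r) * x = 0 := by linear_combination s * c1 - r * c2
    have e2 : (p * s - q * r) * y = 0 := by linear_combination p * c2 - q * c1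
    have hx : x = 0 := by
      rcases mul_eq_zero.mp e1 with h | h
      · exact absurd h hd
      · exact h
    have hy : y = 0 := by
      rcases mul_eq_zero.mp e2 with h | h
      · exact absurd h hd
      · exact h
    rcases hne with h | h | h
    · exact h hx
    · exact h hy
    · exact h c3
  · rw [e, h0, h1]
    linear_combination (-2 * x * y) * h2

theorem hs_bin {a0 a1 b0 b1 p q r s : F} (h0 : b0 = p ^ 2 * a0 + q ^ 2 * a1)
    (h1 : b1 = r ^ 2 * a0 + s ^ 2 * a1) (h2 : p * r * a0 + q * s * a1 = 0)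
    (hd : p * s - q * r ≠ 0) : hs a0 a1 = hs b0 b1 := by
  apply hs_congr
  constructor
  · -- inverse transformation
    obtain ⟨Δ, hΔ⟩ : ∃ Δ, Δ = p * s - q * r := ⟨_, rfl⟩
    rw [← hΔ] at hd
    have e1 : a0 * Δ ^ 2 = s ^ 2 * b0 + q ^ 2 * b1 := by
      rw [h0, h1, hΔ]
      linear_combination (-2 * q * s) * h2
    have e2 : a1 * Δ ^ 2 = r ^ 2 * b0 + p ^ 2 * b1 := by
      rw [h0, h1, hΔ]
      linear_combination (-2 * p * r) * h2
    have e3 : s * r * b0 + q * p * b1 = 0 := by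
      rw [h0, h1]
      linear_combination (p * s + q * r) * h2
    apply splits_bin (p := s / Δ) (q := -q / Δ) (r := -r / Δ) (s := p / Δ)
    · have : (s / Δ) ^ 2 * b0 + (-q / Δ) ^ 2 * b1 = (s ^ 2 * b0 + q ^ 2 * b1) / Δ ^ 2 := by
        field_simp
      rw [this, ← e1]
      field_simp
    · have : (-r / Δ) ^ 2 * b0 + (p / Δ) ^ 2 * b1 = (r ^ 2 * b0 + p ^ 2 * b1) / Δ ^ 2 := by
        field_simp
      rw [this, ← e2]
      field_simp
    · have : s / Δ * (-r / Δ) * b0 + -q / Δ * (p / Δ) * b1 =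
          -((s * r * b0 + q * p * b1) / Δ ^ 2) := by
        field_simp
        ring
      rw [this, e3, zero_div, neg_zero]
    · have : s / Δ * (p / Δ) - -q / Δ * (-r / Δ) = 1 / Δ := by
        field_simp
        rw [hΔ]
        ring
      rw [this]
      exact one_div_ne_zero hd
  · exact splits_bin h0 h1 h2 hd

theorem hs_sq_left (a b c : F) (hc : c ≠ 0) : hs (a * c ^ 2) b = hs a b := by
  symm
  apply hs_bin (p := c) (q := 0) (r := 0) (s := 1)
  · ring
  · ring
  · ring
  · simpa using hc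

theorem hs_sq_right (a b c : F) (hc : c ≠ 0) : hs a (b * c ^ 2) = hs a b := by
  rw [hs_comm, hs_sq_left _ _ _ hc, hs_comm]

theorem hs_one_right (a : F) : hs a 1 = 1 := by
  apply hs_of_splits
  exact ⟨0, 1, 1, Or.inr (Or.inl one_ne_zero), by ring⟩

theorem hs_one_left (a : F) : hs 1 a = 1 := by
  rw [hs_comm, hs_one_right]

theorem hs_isSquare_right (a b : F) (hb : b ≠ 0) (h : IsSquare b) : hs a b = 1 := by
  obtain ⟨c, rfl⟩ := h
  have hc : c ≠ 0 := fun h => hb (by rw [h, zero_mul])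
  have := hs_sq_right a 1 c hc
  rw [one_mul, sq] at this
  rw [this, hs_one_right]

theorem hs_neg (a : F) : hs a (-a) = 1 := by
  apply hs_of_splits
  exact ⟨1, 1, 0, Or.inl one_ne_zero, by ring⟩

theorem sq_unit (u : ℤˣ) : u * u = 1 := Int.units_mul_self u

theorem hs_mul_left (hF : Hil F) (a b c : F) (ha : a ≠ 0) (hb : b ≠ 0) (hc : c ≠ 0) :
    hs (a * b) c = hs a c * hs b c := by
  rw [hs_comm, hF.bil c a b hc ha hb, hs_comm c a, hs_comm c b]

theorem hs_prod (hF : Hil F) {ι : Type} (a : F) (ha : a ≠ 0) (S : Finset ι) (f : ι → F)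
    (hf : ∀ i ∈ S, f i ≠ 0) : hs a (∏ i ∈ S, f i) = ∏ i ∈ S, hs a (f i) := by
  classical
  induction S using Finset.induction_on with
  | empty => simp [hs_one_right]
  | insert x S hx ih =>
    rw [prod_insert hx, prod_insert hx, hF.bil a _ _ ha (hf x (mem_insert_self _ _)) ?_, ih]
    · exact fun i hi => hf i (mem_insert_of_mem hi)
    · exact prod_ne_zero_iff.mpr fun i hi => hf i (mem_insert_of_mem hi)

/-- the product of the symbols -/
noncomputable def HWs {n : ℕ} (a : Fin n → F) : ℤˣ := ∏ i, ∏ j ∈ Ioi i, hs (a i) (a j)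

theorem HWs_succ (n : ℕ) (a : Fin (n + 1) → F) :
    HWs a = (∏ j : Fin n, hs (a 0) (a j.succ)) * HWs (fun j => a j.succ) := by
  unfold HWs
  rw [Fin.prod_univ_succ, Fin.prod_Ioi_zero]
  congr 1
  refine prod_congr rfl fun i _ => ?_
  rw [Fin.prod_Ioi_succ]

theorem HWs_succ' (hF : Hil F) (n : ℕ) (a : Fin (n + 1) → F) (ha : ∀ i, a i ≠ 0) :
    HWs a = hs (a 0) (∏ j : Fin n, a j.succ) * HWs (fun j => a j.succ) := by
  rw [HWs_succ, hs_prod hF _ (ha 0) _ _ fun i _ => ha _]

theorem HWs_two (hF : Hil F) (n : ℕ) (a : Fin (n + 2) → F) (ha : ∀ i, a i ≠ 0) :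
    HWs a = hs (a 0) (a 1) * hs (a 0 * a 1) (∏ j : Fin n, a j.succ.succ) *
      HWs (fun j : Fin n => a j.succ.succ) := by
  have hp : ∏ j : Fin n, a j.succ.succ ≠ 0 := prod_ne_zero_iff.mpr fun i _ => ha _
  rw [HWs_succ' hF (n + 1) a ha, HWs_succ' hF n (fun j => a j.succ) (fun i => ha _),
    Fin.prod_univ_succ (n := n) (f := fun j => a j.succ)]
  have h1 : a (Fin.succ 0) = a 1 := rfl
  rw [h1, hF.bil _ _ _ (ha 0) (ha 1) hp, hs_mul_left hF _ _ _ (ha 0) (ha 1) hp]
  simp only [mul_assoc]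

end sym

end Pool.Agent.Q187.EB
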