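import Pool.Agent.Q187.EB.Loc

/-!
# Project EB (helper51): job JC, Hasse-Witt invariants over `ℤ_l`, relative form
-/

set_option autoImplicit false

namespace Pool.Agent.Q187.EB

open Finset Matrix Module Pool.Agent.Q51.EB
open Pool.Agent.W313.BMX (Splits)

/-- Gram-Schmidt over a local ring -/
theorem gs {R V : Type} [CommRing R] [AddCommGroup V] [Module R V] (B : V →ₗ[R] V →ₗ[R] R)
    (hB : ∀ x y, B x y = B y x) (I : Ideal R) (hI : ∀ x, x ∉ I → IsUnit x) :
    ∀ (n : ℕ) (e : Fin n → V), (∀ i j, i ≠ j → B (e i) (e j) ∈ I) → (∀ i, B (e i) (e i) ∉ I) →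
    ∃ f : Fin n → V, (∀ i, f i ∈ Submodule.span R (Set.range e)) ∧
      (∀ i j, i ≠ j → B (f i) (f j) = 0) ∧ ∀ i, B (f i) (f i) ∉ I := by
  intro n
  induction n with
  | zero =>
    intro e _ _
    exact ⟨e, fun i => i.elim0, fun i => i.elim0, fun i => i.elim0⟩
  | succ n ih =>
    intro e h1 h2
    obtain ⟨v, hv⟩ := (hI _ (h2 0)).exists_right_inv
    set e' : Fin n → V := fun j => e j.succ - (v * B (e 0) (e j.succ)) • e 0 with he'
    have h0 : ∀ j, B (e 0) (e' j) = 0 := by
      intro j
      rw [he']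
      simp only [map_sub, map_smul, smul_eq_mul]
      linear_combination (-B (e 0) (e j.succ)) * hv
    have hij : ∀ i j, B (e' i) (e' j) = B (e i.succ) (e j.succ) -
        v * B (e 0) (e i.succ) * B (e 0) (e j.succ) := by
      intro i j
      have hei : e' i = e i.succ - (v * B (e 0) (e i.succ)) • e 0 := rfl
      have : B (e' i) (e' j) = B (e i.succ) (e' j) - (v * B (e 0) (e i.succ)) * B (e 0) (e' j) := by
        rw [hei]
        simp only [map_sub, map_smul, smul_eq_mul, LinearMap.sub_apply, LinearMap.smul_apply]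
      rw [this, h0, mul_zero, sub_zero, he']
      simp only [map_sub, map_smul, smul_eq_mul]
      rw [hB (e i.succ) (e 0)]
      ring
    have hm : ∀ i : Fin n, B (e 0) (e i.succ) ∈ I := fun i => h1 _ _ (Fin.succ_ne_zero i).symm
    obtain ⟨f, f1, f2, f3⟩ := ih e' (by
      intro i j hne
      rw [hij]
      refine I.sub_mem (h1 _ _ fun h => hne (Fin.succ_injective _ h)) ?_
      exact I.mul_mem_left _ (hm j)) (by
      intro i hi
      rw [hij] at hi
      apply h2 i.succ
      have := I.add_mem hi (I.mul_mem_left (v * B (e 0) (e i.succ)) (hm i))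
      simpa using this)
    have hf0 : ∀ i, B (e 0) (f i) = 0 := by
      intro i
      have : Submodule.span R (Set.range e') ≤ LinearMap.ker (B (e 0)) := by
        rw [Submodule.span_le]
        rintro _ ⟨j, rfl⟩
        exact h0 j
      exact this (f1 i)
    have hsp : Submodule.span R (Set.range e') ≤ Submodule.span R (Set.range e) := by
      rw [Submodule.span_le]
      rintro _ ⟨j, rfl⟩
      exact Submodule.sub_mem _ (Submodule.subset_span ⟨_, rfl⟩)
        (Submodule.smul_mem _ _ (Submodule.subset_span ⟨_, rfl⟩))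
    refine ⟨Fin.cons (e 0) f, ?_, ?_, ?_⟩
    · intro i
      refine Fin.cases ?_ (fun j => ?_) i
      · exact Submodule.subset_span ⟨0, rfl⟩
      · exact hsp (f1 j)
    · intro i j
      refine Fin.cases ?_ (fun i => ?_) i
      · refine Fin.cases (fun h => absurd rfl h) (fun j _ => ?_) j
        exact hf0 j
      · refine Fin.cases (fun _ => ?_) (fun j h => ?_) j
        · rw [hB]; exact hf0 i
        · exact f2 i j fun h' => h (by rw [h'])
    · intro i
      refine Fin.cases ?_ (fun j => ?_) i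
      · exact h2 0
      · exact f3 j

section
variable {l : ℕ} [hl : Fact l.Prime]

theorem lift_mat {α β : Type} (P : Matrix α β (ZMod l)) :
    ∃ Q : Matrix α β ℤ_[l], Q.map PadicInt.toZMod = P := by
  have h := ZMod.ringHom_surjective (PadicInt.toZMod (p := l))
  choose f hf using h
  exact ⟨fun i j => f (P i j), by ext i j; exact hf _⟩

theorem red_det {α : Type} [Fintype α] [DecidableEq α] (M : Matrix α α ℤ_[l]) :
    PadicInt.toZMod M.det = (M.map PadicInt.toZMod).det := by
  rw [RingHom.map_det]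
  rfl

theorem toBilin_col' {R : Type} [CommRing R] {n : ℕ} (M P : Matrix (Fin n) (Fin n) R) (i j : Fin n) :
    Matrix.toBilin' M (fun k => P k i) (fun k => P k j) = (P.transpose * M * P) i j := by
  rw [Matrix.toBilin'_apply', Matrix.mul_assoc, Matrix.mul_apply]
  rfl

/-- unimodular forms over `ℤ_l` can be diagonalised -/
theorem ud (hl2 : l ≠ 2) {n : ℕ} (M : Matrix (Fin n) (Fin n) ℤ_[l]) (hM : M.IsSymm)
    (hd : IsUnit M.det) : ∃ (P : Matrix (Fin n) (Fin n) ℤ_[l]) (a : Fin n → ℤ_[l]),
      (∀ i, IsUnit (a i)) ∧ P.transpose * M * P = Matrix.diagonal a := by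
  have h2 : (2 : ZMod l) ≠ 0 := by
    have := Pool.Agent.W335.BMX.two_not_dvd hl2
    have h3 := Pool.Agent.W335.BMX.cast_ne_zero this
    simpa using h3
  obtain ⟨Pb, ab, p1, p2, p3⟩ := diag (ZMod l) h2 n (M.map PadicInt.toZMod)
    (by
      unfold Matrix.IsSymm
      rw [← Matrix.transpose_map, hM.eq]) (by rw [← red_det]; exact (unit_iff _).mp hd)
  obtain ⟨P0, hP0⟩ := lift_mat Pb
  have hBs : ∀ x y, Matrix.toBilin' M x y = Matrix.toBilin' M y x := by
    intro x y
    rw [Matrix.toBilin'_apply', Matrix.toBilin'_apply', Matrix.dotProduct_mulVec,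
      dotProduct_comm, ← Matrix.mulVec_transpose, hM.eq]
  have hmod : ∀ i j, PadicInt.toZMod (Matrix.toBilin' M (fun k => P0 k i) (fun k => P0 k j)) =
      Matrix.diagonal ab i j := by
    intro i j
    rw [toBilin_col', ← p3, ← hP0, ← Matrix.transpose_map, ← Matrix.map_mul, ← Matrix.map_mul]
    rfl
  obtain ⟨f, -, f2, f3⟩ := gs (Matrix.toBilin' M) hBs (RingHom.ker (PadicInt.toZMod (p := l)))
    (fun x hx => (unit_iff x).mpr fun h => hx (RingHom.mem_ker.mpr h)) n
    (fun i k => P0 k i) (by
      intro i j hij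
      rw [RingHom.mem_ker, hmod, Matrix.diagonal_apply_ne _ hij]) (by
      intro i
      rw [RingHom.mem_ker, hmod, Matrix.diagonal_apply_eq]
      exact p2 i)
  refine ⟨fun k i => f i k, fun i => Matrix.toBilin' M (f i) (f i), ?_, ?_⟩
  · intro i
    exact (unit_iff _).mpr fun h => f3 i (RingHom.mem_ker.mpr h)
  · ext i j : 1
    have := toBilin_col' M (fun k i => f i k) i j
    rw [← this]
    by_cases hij : i = j
    · subst hij
      rw [Matrix.diagonal_apply_eq]
    · rw [Matrix.diagonal_apply_ne _ hij]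
      exact f2 i j hij

theorem ud_det {n : ℕ} {M P : Matrix (Fin n) (Fin n) ℤ_[l]} {a : Fin n → ℤ_[l]}
    (ha : ∀ i, IsUnit (a i)) (h : P.transpose * M * P = Matrix.diagonal a) :
    qc (PadicInt.toZMod (∏ i, a i)) = qc (PadicInt.toZMod M.det) := by
  have h1 := congrArg Matrix.det h
  rw [Matrix.det_mul, Matrix.det_mul, Matrix.det_transpose, Matrix.det_diagonal] at h1
  have hu : IsUnit (∏ i, a i) := (IsUnit.prod_univ_iff).mpr fun i => ha i
  rw [← h1] at hu
  have hP : IsUnit P.det := isUnit_of_mul_isUnit_right hu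
  have hM : IsUnit M.det := isUnit_of_mul_isUnit_right (isUnit_of_mul_isUnit_left hu)
  have h2 : ∏ i, a i = P.det ^ 2 * M.det := by rw [← h1]; ring
  rw [h2, map_mul, map_pow, qc_mul (pow_ne_zero _ ((unit_iff _).mp hP)) ((unit_iff _).mp hM),
    qc_sq, one_mul]

end

end Pool.Agent.Q187.EB
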