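import Pool.Agent.Q187.EB.Jc

/-!
# Project EB (helper51): job JC, second part
-/

set_option autoImplicit false

namespace Pool.Agent.Q187.EB

open Finset Matrix Module Pool.Agent.Q51.EB
open Pool.Agent.W313.BMX (Splits)

section
variable {l : ℕ} [hl : Fact l.Prime]

theorem HW_of (hF : Hil ℚ_[l]) {n : ℕ} {ι : Type} [Fintype ι] [DecidableEq ι] (e : ι ≃ Fin n)
    (M : Matrix (Fin n) (Fin n) ℤ_[l]) (W : Matrix (Fin n) ι ℤ_[l]) (a : ι → ℤ_[l])
    (ha : ∀ i, a i ≠ 0) (h : W.transpose * M * W = Matrix.diagonal a) :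
    hw (M.map (algebraMap ℤ_[l] ℚ_[l])) = HWs (fun i => ((a (e.symm i) : ℤ_[l]) : ℚ_[l])) := by
  apply hw_eq hF
  rw [HW_iff]
  have key : ((W.map (algebraMap ℤ_[l] ℚ_[l])).submatrix id e.symm).transpose *
      M.map (algebraMap ℤ_[l] ℚ_[l]) * (W.map (algebraMap ℤ_[l] ℚ_[l])).submatrix id e.symm =
      Matrix.diagonal (fun i => ((a (e.symm i) : ℤ_[l]) : ℚ_[l])) := by
    have h1 : (W.map (algebraMap ℤ_[l] ℚ_[l])).transpose * M.map (algebraMap ℤ_[l] ℚ_[l]) *
        W.map (algebraMap ℤ_[l] ℚ_[l]) = Matrix.diagonal (fun i => algebraMap ℤ_[l] ℚ_[l] (a i)) := by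
      rw [← Matrix.transpose_map, ← Matrix.map_mul, ← Matrix.map_mul, h,
        Matrix.diagonal_map (map_zero _)]
    have h2 := congrArg (fun X => X.submatrix e.symm e.symm) h1
    beta_reduce at h2
    rw [Matrix.submatrix_diagonal_equiv] at h2
    exact h2
  refine ⟨_, _, ?_, fun i => coe_ne' (ha _), key, rfl⟩
  intro h0
  have := congrArg Matrix.det key
  rw [Matrix.det_mul, h0, mul_zero, Matrix.det_diagonal] at this
  exact (prod_ne_zero_iff.mpr fun i _ => coe_ne' (ha (e.symm i))) this.symm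

theorem hw_block (hF : Hil ℚ_[l]) (hl2 : l ≠ 2) {n p m : ℕ} (e : Fin p ⊕ Fin m ≃ Fin n)
    (M : Matrix (Fin n) (Fin n) ℤ_[l]) (hM : M.IsSymm)
    (U : Matrix (Fin n) (Fin p ⊕ Fin m) ℤ_[l])
    (A : Matrix (Fin p) (Fin p) ℤ_[l]) (B : Matrix (Fin p) (Fin m) ℤ_[l])
    (C : Matrix (Fin m) (Fin p) ℤ_[l]) (E : Matrix (Fin m) (Fin m) ℤ_[l])
    (h : U.transpose * M * U = fromBlocks A ((l : ℤ_[l]) • B) C ((l : ℤ_[l]) • E))
    (hA : IsUnit A.det) (hE : IsUnit E.det) :
    hw (M.map (algebraMap ℤ_[l] ℚ_[l])) =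
      hs (l : ℚ_[l]) (l : ℚ_[l]) ^ (m * (m - 1) / 2) *
        qc (PadicInt.toZMod (A.det * E.det)) ^ m * qc (PadicInt.toZMod E.det) := by
  have hl0 : (l : ℤ_[l]) ≠ 0 := by exact_mod_cast hl.out.ne_zero
  have hsy : (U.transpose * M * U).transpose = U.transpose * M * U := by
    rw [Matrix.transpose_mul, Matrix.transpose_mul, Matrix.transpose_transpose, hM.eq,
      Matrix.mul_assoc]
  rw [h, Matrix.fromBlocks_transpose, Matrix.fromBlocks_inj] at hsy
  obtain ⟨hAs, -, hBC, hEs⟩ := hsy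
  have hEs' : E.transpose = E := by
    ext i j
    have := congrFun (congrFun hEs i) j
    simp only [Matrix.transpose_apply, Matrix.smul_apply, smul_eq_mul] at this
    exact mul_left_cancel₀ hl0 this
  -- the Schur complement
  set S : Matrix (Fin m) (Fin m) ℤ_[l] := E - (l : ℤ_[l]) • (B.transpose * A⁻¹ * B) with hS
  have hAi : (A⁻¹).transpose = A⁻¹ := by rw [Matrix.transpose_nonsing_inv, hAs]
  have hSs : S.IsSymm := by
    unfold Matrix.IsSymm
    rw [hS, Matrix.transpose_sub, Matrix.transpose_smul, Matrix.transpose_mul, Matrix.transpose_mul,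
      Matrix.transpose_transpose, hAi, hEs', Matrix.mul_assoc]
  have hSd : PadicInt.toZMod S.det = PadicInt.toZMod E.det := by
    rw [red_det, red_det]
    congr 1
    ext i j
    rw [Matrix.map_apply, Matrix.map_apply, hS, Matrix.sub_apply, Matrix.smul_apply, smul_eq_mul,
      map_sub, map_mul, map_natCast, ZMod.natCast_self, zero_mul, sub_zero]
  have hSu : IsUnit S.det := (unit_iff _).mpr (by rw [hSd]; exact (unit_iff _).mp hE)
  obtain ⟨P1, a1, u1, d1⟩ := ud hl2 A hAs hA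
  obtain ⟨P2, a2, u2, d2⟩ := ud hl2 S hSs hSu
  set L : Matrix (Fin p ⊕ Fin m) (Fin p ⊕ Fin m) ℤ_[l] :=
    fromBlocks 1 (-(A⁻¹ * ((l : ℤ_[l]) • B))) 0 1 with hL
  set D : Matrix (Fin p ⊕ Fin m) (Fin p ⊕ Fin m) ℤ_[l] := fromBlocks P1 0 0 P2 with hD
  have hLX : L.transpose * (U.transpose * M * U) * L = fromBlocks A 0 0 ((l : ℤ_[l]) • S) := by
    rw [h, ← hBC, hL, Matrix.fromBlocks_transpose, Matrix.fromBlocks_multiply,
      Matrix.fromBlocks_multiply, Matrix.fromBlocks_inj]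
    refine ⟨?_, ?_, ?_, ?_⟩
    · simp
    · rw [Matrix.transpose_one, Matrix.one_mul, Matrix.one_mul, Matrix.transpose_zero,
        Matrix.zero_mul, add_zero, Matrix.zero_mul, add_zero, Matrix.mul_one, Matrix.mul_neg,
        ← Matrix.mul_assoc, Matrix.mul_nonsing_inv _ hA, Matrix.one_mul, neg_add_cancel]
    · rw [Matrix.transpose_one, Matrix.one_mul, Matrix.mul_zero, add_zero, Matrix.mul_one,
        Matrix.transpose_neg, Matrix.transpose_mul, hAi, Matrix.neg_mul, Matrix.mul_assoc,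
        Matrix.nonsing_inv_mul _ hA, Matrix.mul_one, neg_add_cancel]
    · rw [Matrix.transpose_one, Matrix.one_mul, Matrix.one_mul, Matrix.mul_one,
        Matrix.transpose_neg, Matrix.transpose_mul, hAi, Matrix.neg_mul, Matrix.mul_assoc,
        Matrix.nonsing_inv_mul _ hA, Matrix.mul_one, neg_add_cancel, Matrix.zero_mul, zero_add,
        hS, Matrix.transpose_smul, smul_sub, Matrix.neg_mul,
        Matrix.smul_mul, Matrix.smul_mul, Matrix.mul_smul]
      rw [add_comm, ← sub_eq_add_neg]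
  have hWd : (U * L * D).transpose * M * (U * L * D) =
      Matrix.diagonal (Sum.elim a1 (fun j => (l : ℤ_[l]) * a2 j)) := by
    have : (U * L * D).transpose * M * (U * L * D) =
        D.transpose * (L.transpose * (U.transpose * M * U) * L) * D := by
      rw [Matrix.transpose_mul, Matrix.transpose_mul]
      simp only [Matrix.mul_assoc]
    rw [this, hLX, hD, Matrix.fromBlocks_transpose, Matrix.fromBlocks_multiply,
      Matrix.fromBlocks_multiply]
    simp only [Matrix.transpose_zero, Matrix.zero_mul, Matrix.mul_zero, add_zero, zero_add,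
      Matrix.mul_smul, Matrix.smul_mul, d1, d2, smul_zero]
    rw [← Matrix.fromBlocks_diagonal]
    congr 1
    ext i j
    rw [Matrix.smul_apply, Matrix.diagonal_apply, Matrix.diagonal_apply, smul_eq_mul]
    split_ifs <;> simp
  have h9 := HW_of hF e M (U * L * D) _ (by
    rintro (i | j)
    · exact (u1 i).ne_zero
    · exact mul_ne_zero hl0 (u2 j).ne_zero) hWd
  rw [h9]
  have h10 := HWs_val hF hl2 n (fun i => Sum.elim a1 a2 (e.symm i))
    (fun i => Sum.elim (fun _ => 0) (fun _ => 1) (e.symm i)) (by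
      intro i
      rcases e.symm i with x | x
      · exact u1 x
      · exact u2 x) (by
      intro i
      rcases e.symm i with x | x
      · exact Nat.zero_le _
      · exact le_refl _)
  have h11 : (fun i => ((Sum.elim a1 (fun j => (l : ℤ_[l]) * a2 j) (e.symm i) : ℤ_[l]) : ℚ_[l])) =
      fun i => (l : ℚ_[l]) ^ (Sum.elim (fun _ => 0) (fun _ => 1) (e.symm i) : ℕ) *
        ((Sum.elim a1 a2 (e.symm i) : ℤ_[l]) : ℚ_[l]) := by
    funext i
    rcases e.symm i with x | x
    · simp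
    · simp
  rw [h11, h10]
  have s1 : ∑ i, (Sum.elim (fun _ => 0) (fun _ => 1) (e.symm i) : ℕ) = m := by
    rw [Equiv.sum_comp e.symm (fun x => (Sum.elim (fun _ => 0) (fun _ => 1) x : ℕ)),
      Fintype.sum_sum_type]
    simp
  have s2 : ∏ i, (Sum.elim a1 a2 (e.symm i) : ℤ_[l]) = (∏ i, a1 i) * ∏ j, a2 j := by
    rw [Equiv.prod_comp e.symm (fun x => (Sum.elim a1 a2 x : ℤ_[l])), Fintype.prod_sum_type]
    rfl
  have s3 : ∏ i, (Sum.elim a1 a2 (e.symm i) : ℤ_[l]) ^
      (Sum.elim (fun _ => 0) (fun _ => 1) (e.symm i) : ℕ) = ∏ j, a2 j := by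
    rw [Equiv.prod_comp e.symm (fun x => (Sum.elim a1 a2 x : ℤ_[l]) ^
      (Sum.elim (fun _ => 0) (fun _ => 1) x : ℕ)), Fintype.prod_sum_type]
    simp
  rw [s1, s2, s3]
  have v1 : IsUnit (∏ i, a1 i) := (IsUnit.prod_univ_iff).mpr fun i => u1 i
  have v2 : IsUnit (∏ i, a2 i) := (IsUnit.prod_univ_iff).mpr fun i => u2 i
  rw [map_mul, map_mul, qc_mul ((unit_iff _).mp v1) ((unit_iff _).mp v2),
    qc_mul ((unit_iff _).mp hA) ((unit_iff _).mp hE), ud_det u1 d1, ud_det u2 d2, hSd]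

end

end Pool.Agent.Q187.EB
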