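import Pool.Agent.Q187.EB.Hwp
import Pool.Agent.W335.BMX.Odd

/-!
# Project EB (helper51): Hilbert symbols over `ℚ_l`, `l` odd
-/

set_option autoImplicit false

namespace Pool.Agent.Q187.EB

open Finset Matrix Module Pool.Agent.Q51.EB
open Pool.Agent.W313.BMX (Splits)

section
variable {l : ℕ} [hl : Fact l.Prime]

theorem unit_iff (u : ℤ_[l]) : IsUnit u ↔ PadicInt.toZMod u ≠ 0 := by
  rw [Ne, ← RingHom.mem_ker, PadicInt.ker_toZMod, IsLocalRing.mem_maximalIdeal, mem_nonunits_iff,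
    not_not]

theorem coe_ne' {u : ℤ_[l]} (hu : u ≠ 0) : (u : ℚ_[l]) ≠ 0 := by
  intro h
  exact hu (PadicInt.ext (by rw [h]; rfl))

theorem coe_ne {u : ℤ_[l]} (hu : IsUnit u) : (u : ℚ_[l]) ≠ 0 := coe_ne' hu.ne_zero

theorem l_ne : (l : ℚ_[l]) ≠ 0 := by exact_mod_cast hl.out.ne_zero

theorem unit_rep (hl2 : l ≠ 2) (u : ℤ_[l]) (hu : IsUnit u) : ∃ (k : ℤ) (s : ℤ_[l]),
    ¬ (l : ℤ) ∣ k ∧ s ≠ 0 ∧ (k : ℤ_[l]) = u * s ^ 2 ∧ (k : ZMod l) = PadicInt.toZMod u := by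
  obtain ⟨k, hk⟩ := ZMod.intCast_surjective (PadicInt.toZMod u)
  have h0 := (unit_iff u).mp hu
  obtain ⟨v, hv⟩ := hu.exists_right_inv
  have h1 : PadicInt.toZMod (v * (k : ℤ_[l])) = 1 ^ 2 := by
    rw [map_mul, Pool.Agent.W335.BMX.toZMod_int, hk, ← map_mul, mul_comm, hv, map_one, one_pow]
  obtain ⟨s, hs⟩ := Pool.Agent.W335.BMX.sq_of_residue hl2 _ 1 one_ne_zero h1
  have hks : (k : ℤ_[l]) = u * s ^ 2 := by
    rw [sq, ← hs, ← mul_assoc, hv, one_mul]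
  have hkd : ¬ (l : ℤ) ∣ k := by
    intro h
    rw [← ZMod.intCast_zmod_eq_zero_iff_dvd] at h
    exact h0 (hk ▸ h)
  refine ⟨k, s, hkd, ?_, hks, hk⟩
  rintro rfl
  have : (k : ℤ_[l]) = 0 := by rw [hks]; ring
  have h2 := Pool.Agent.W335.BMX.toZMod_int (p := l) k
  rw [this, map_zero, hk] at h2
  exact h0 h2.symm

theorem hs_units (hl2 : l ≠ 2) (u w : ℤ_[l]) (hu : IsUnit u) (hw : IsUnit w) :
    hs (u : ℚ_[l]) (w : ℚ_[l]) = 1 := by
  obtain ⟨k, s, hk, hs0, e, -⟩ := unit_rep hl2 u hu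
  obtain ⟨k', s', hk', hs0', e', -⟩ := unit_rep hl2 w hw
  have h1 : ((s : ℤ_[l]) : ℚ_[l]) ≠ 0 := coe_ne' hs0
  have h2 : ((s' : ℤ_[l]) : ℚ_[l]) ≠ 0 := coe_ne' hs0'
  rw [← hs_sq_left _ _ _ h1, ← hs_sq_right _ _ _ h2]
  have e1 : (u : ℚ_[l]) * (s : ℚ_[l]) ^ 2 = ((k : ℤ) : ℚ_[l]) := by
    have := congrArg (fun x : ℤ_[l] => (x : ℚ_[l])) e
    push_cast at this
    exact this.symm
  have e2 : (w : ℚ_[l]) * (s' : ℚ_[l]) ^ 2 = ((k' : ℤ) : ℚ_[l]) := by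
    have := congrArg (fun x : ℤ_[l] => (x : ℚ_[l])) e'
    push_cast at this
    exact this.symm
  rw [e1, e2]
  exact hs_of_splits (Pool.Agent.W335.BMX.odd2 l hl2 k k' hk hk')

theorem hs_l_unit (hl2 : l ≠ 2) (u : ℤ_[l]) (hu : IsUnit u) :
    hs (l : ℚ_[l]) (u : ℚ_[l]) = qc (PadicInt.toZMod u) := by
  obtain ⟨k, s, hk, hs0, e, hkm⟩ := unit_rep hl2 u hu
  have h1 : ((s : ℤ_[l]) : ℚ_[l]) ≠ 0 := coe_ne' hs0
  rw [← hs_sq_right _ _ _ h1]
  have e1 : (u : ℚ_[l]) * (s : ℚ_[l]) ^ 2 = ((k : ℤ) : ℚ_[l]) := by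
    have := congrArg (fun x : ℤ_[l] => (x : ℚ_[l])) e
    push_cast at this
    exact this.symm
  rw [e1]
  have h3 := Pool.Agent.W335.BMX.odd3 l hl2 1 k
    (by
      intro h
      have : (l : ℤ) ∣ ((1 : ℕ) : ℤ) := by exact_mod_cast h
      exact hl.out.one_lt.ne' (Nat.dvd_one.mp (Int.natCast_dvd_natCast.mp this))) hk
  rw [legendreSym.eq_one_iff l (Pool.Agent.W335.BMX.cast_ne_zero hk), hkm] at h3
  have h4 : (((l : ℤ) * 1 : ℤ) : ℚ_[l]) = (l : ℚ_[l]) := by push_cast; ring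
  rw [h4] at h3
  unfold hs qc
  by_cases h5 : IsSquare (PadicInt.toZMod u)
  · rw [if_pos (h3.mpr h5), if_pos h5]
  · rw [if_neg (fun h => h5 (h3.mp h)), if_neg h5]

theorem qc_mul {x y : ZMod l} (hx : x ≠ 0) (hy : y ≠ 0) : qc (x * y) = qc x * qc y := by
  classical
  have key : ∀ z : ZMod l, z ≠ 0 → ((qc z : ℤˣ) : ℤ) = quadraticChar (ZMod l) z := by
    intro z hz
    rw [quadraticChar_apply, quadraticCharFun, if_neg hz]
    unfold qc
    split_ifs <;> rfl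
  ext
  rw [Units.val_mul, key _ hx, key _ hy, key _ (mul_ne_zero hx hy), map_mul]

theorem qc_one : qc (1 : ZMod l) = 1 := by
  unfold qc
  rw [if_pos (IsSquare.one)]

theorem qc_pow {x : ZMod l} (hx : x ≠ 0) (n : ℕ) : qc (x ^ n) = qc x ^ n := by
  induction n with
  | zero => rw [pow_zero, pow_zero, qc_one]
  | succ n ih => rw [pow_succ, qc_mul (pow_ne_zero _ hx) hx, ih, pow_succ]

theorem qc_sq (x : ZMod l) : qc (x ^ 2) = 1 := by
  unfold qc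
  rw [if_pos ⟨x, sq x⟩]

theorem HWs_val (hF : Hil ℚ_[l]) (hl2 : l ≠ 2) : ∀ (n : ℕ) (u : Fin n → ℤ_[l]) (ε : Fin n → ℕ),
    (∀ i, IsUnit (u i)) → (∀ i, ε i ≤ 1) →
    HWs (fun i => (l : ℚ_[l]) ^ ε i * (u i : ℚ_[l])) =
      hs (l : ℚ_[l]) (l : ℚ_[l]) ^ ((∑ i, ε i) * ((∑ i, ε i) - 1) / 2) *
        qc (PadicInt.toZMod (∏ i, u i)) ^ (∑ i, ε i) *
        qc (PadicInt.toZMod (∏ i, u i ^ ε i)) := by
  intro n
  induction n with
  | zero =>
    intro u ε _ _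
    unfold HWs
    simp [qc_one]
  | succ n ih =>
    intro u ε hu hε
    have hne : ∀ i, (l : ℚ_[l]) ^ ε i * (u i : ℚ_[l]) ≠ 0 :=
      fun i => mul_ne_zero (pow_ne_zero _ l_ne) (coe_ne (hu i))
    rw [HWs_succ' hF n _ hne, ih (fun j => u j.succ) (fun j => ε j.succ) (fun j => hu _)
      (fun j => hε _)]
    set m := ∑ j : Fin n, ε j.succ with hm
    set d := ∏ j : Fin n, u j.succ with hd
    set d' := ∏ j : Fin n, u j.succ ^ ε j.succ with hd'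
    have hdu : IsUnit d := by
      rw [hd]; exact (IsUnit.prod_univ_iff).mpr fun j => hu _
    have hdu' : IsUnit d' := by
      rw [hd']; exact (IsUnit.prod_univ_iff).mpr fun j => (hu _).pow _
    have e1 : ∏ j : Fin n, (l : ℚ_[l]) ^ ε j.succ * (u j.succ : ℚ_[l]) =
        (l : ℚ_[l]) ^ m * (d : ℚ_[l]) := by
      rw [prod_mul_distrib, prod_pow_eq_pow_sum, hd]
      congr 1
      exact (map_prod (PadicInt.Coe.ringHom (p := l)) (fun j : Fin n => u j.succ) univ).symm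
    rw [e1, Fin.sum_univ_succ, Fin.prod_univ_succ, Fin.prod_univ_succ]
    rw [← hm, ← hd, ← hd']
    have hl0 := l_ne (l := l)
    have hu0 := coe_ne (hu 0)
    have hd0 := coe_ne hdu
    rw [hs_mul_left hF _ _ _ (pow_ne_zero _ hl0) hu0 (mul_ne_zero (pow_ne_zero _ hl0) hd0),
      hF.bil _ _ _ (pow_ne_zero _ hl0) (pow_ne_zero _ hl0) hd0,
      hF.bil _ _ _ hu0 (pow_ne_zero _ hl0) hd0, hs_units hl2 _ _ (hu 0) hdu,
      hs_pow hF _ _ hu0 hl0, hs_comm (u 0 : ℚ_[l]) (l : ℚ_[l]), hs_l_unit hl2 _ (hu 0),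
      map_mul, map_mul, qc_mul ((unit_iff _).mp (hu 0)) ((unit_iff _).mp hdu), map_pow,
      qc_mul (pow_ne_zero _ ((unit_iff _).mp (hu 0))) ((unit_iff _).mp hdu'),
      qc_pow ((unit_iff _).mp (hu 0))]
    rcases Nat.le_one_iff_eq_zero_or_eq_one.mp (hε 0) with h0 | h0
    · rw [h0, pow_zero, hs_one_left, hs_one_left, zero_add]
      rw [mul_pow, pow_zero]
      simp only [mul_comm, mul_left_comm, mul_assoc, one_mul]
    · rw [h0, pow_one, hs_pow hF _ _ hl0 hl0, hs_l_unit hl2 _ hdu]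
      have h5 : (1 + m) * (1 + m - 1) / 2 = m + m * (m - 1) / 2 := by
        rw [add_comm 1 m, Nat.triangle_succ, add_comm]
      rw [h5, pow_add, mul_pow, pow_add, pow_add, pow_one, pow_one]
      generalize hs (l : ℚ_[l]) (l : ℚ_[l]) ^ m = a1
      generalize qc (PadicInt.toZMod d) ^ m = a2
      generalize qc (PadicInt.toZMod (u 0)) ^ m = a3
      generalize hs (l : ℚ_[l]) (l : ℚ_[l]) ^ (m * (m - 1) / 2) = a4
      generalize qc (PadicInt.toZMod d) = a5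
      generalize qc (PadicInt.toZMod (u 0)) = a6
      generalize qc (PadicInt.toZMod d') = a7
      have h6 : a6 * a6 = 1 := sq_unit a6
      calc a1 * a5 * (a3 * 1) * (a4 * a2 * a7) = a1 * a4 * (a3 * (a5 * a2)) * a7 * 1 := by
            simp only [mul_comm, mul_left_comm, mul_assoc, one_mul]
        _ = a1 * a4 * (a3 * (a5 * a2)) * a7 * (a6 * a6) := by rw [h6]
        _ = a1 * a4 * (a6 * a3 * (a5 * a2)) * (a6 * a7) := by
            simp only [mul_comm, mul_left_comm, mul_assoc]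
end

end Pool.Agent.Q187.EB
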