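import Pool.Agent.Q187.EB.DetPi
import Pool.Agent.Q51.EB.CHR
import Pool.Agent.Q239.EL.NV

/-!
# Project EB (helper51): the reduction of the ring of integers modulo `l` and its residue fields
-/

set_option autoImplicit false

namespace Pool.Agent.Q187.EB

open Finset Matrix Module NumberField IsDedekindDomain Pool.Agent.Q51.EB Pool.Agent.Q51.EL

section
variable {L : Type} [Field L] [NumberField L] {l : ℕ} [hl : Fact l.Prime]

theorem charP_res {v : HeightOneSpectrum (𝓞 L)} (hv : Abv v l) : CharP (𝓞 L ⧸ v.asIdeal) l := by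
  have hl0 : ((l : ℕ) : 𝓞 L ⧸ v.asIdeal) = 0 := by
    have h1 : Ideal.Quotient.mk v.asIdeal (l : 𝓞 L) = 0 := Ideal.Quotient.eq_zero_iff_mem.mpr hv
    rwa [map_natCast] at h1
  obtain ⟨p, hp⟩ := CharP.exists (𝓞 L ⧸ v.asIdeal)
  have h1 : p ∣ l := (CharP.cast_eq_zero_iff (𝓞 L ⧸ v.asIdeal) p l).mp hl0
  have h2 : p ≠ 1 := CharP.char_ne_one (𝓞 L ⧸ v.asIdeal) p
  rcases (Nat.dvd_prime hl.out).mp h1 with h | h
  · exact absurd h h2
  · rwa [← h]

theorem mem_l (hsq : Squarefree (Ideal.span {(l : 𝓞 L)})) {Z : 𝓞 L}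
    (hZ : ∀ v : HeightOneSpectrum (𝓞 L), Abv v l → Z ∈ v.asIdeal) :
    Z ∈ Ideal.span {(l : 𝓞 L)} := by
  have hl0 : (l : 𝓞 L) ≠ 0 := by exact_mod_cast hl.out.ne_zero
  have h1 : Z ∈ (Ideal.span {(l : 𝓞 L)}).radical := by
    rw [Ideal.radical_eq_sInf, Submodule.mem_sInf]
    rintro P ⟨hP, hPp⟩
    have hPl : (l : 𝓞 L) ∈ P := hP (Ideal.mem_span_singleton_self _)
    have hP0 : P ≠ ⊥ := by
      rintro rfl
      exact hl0 ((Submodule.mem_bot _).mp hPl)
    exact hZ ⟨P, hPp, hP0⟩ hPl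
  obtain ⟨k, hk⟩ := h1
  have h2 := hsq.isRadical
  have h3 : Ideal.span {(l : 𝓞 L)} ∣ (Ideal.span {Z}) ^ k := by
    rw [Ideal.span_singleton_pow, Ideal.dvd_iff_le, Ideal.span_singleton_le_iff_mem]
    exact hk
  have h4 := h2 k _ h3
  rwa [Ideal.dvd_iff_le, Ideal.span_singleton_le_iff_mem] at h4

variable {n : ℕ} (ω : Basis (Fin n) ℤ (𝓞 L))

theorem coords_iff (z : Fin n → ℤ) :
    (∑ i, z i • ω i) ∈ Ideal.span {(l : 𝓞 L)} ↔ ∀ i, (l : ℤ) ∣ z i := by
  constructor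
  · intro h i
    obtain ⟨y, hy⟩ := Ideal.mem_span_singleton'.mp h
    have h1 : (l : ℤ) • y = ∑ i, z i • ω i := by
      rw [← hy, zsmul_eq_mul]
      push_cast
      ring
    have h2 := congrArg (fun x => ω.repr x i) h1
    beta_reduce at h2
    rw [map_smul, Finsupp.smul_apply, Basis.repr_sum_self, smul_eq_mul] at h2
    exact ⟨_, h2.symm⟩
  · intro h
    refine Ideal.sum_mem _ fun i _ => ?_
    obtain ⟨c, hc⟩ := h i
    rw [hc, zsmul_eq_mul]
    push_cast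
    rw [mul_assoc]
    exact Ideal.mul_mem_right _ _ (Ideal.mem_span_singleton_self _)

/-- the map to the residue field -/
noncomputable def piv (l : ℕ) {n : ℕ} (ω : Basis (Fin n) ℤ (𝓞 L)) (v : HeightOneSpectrum (𝓞 L))
    [Algebra (ZMod l) (𝓞 L ⧸ v.asIdeal)] : (Fin n → ZMod l) →ₗ[ZMod l] (𝓞 L ⧸ v.asIdeal) :=
  Fintype.linearCombination (ZMod l) (fun i => Ideal.Quotient.mk v.asIdeal (ω i))

theorem piv_int (v : HeightOneSpectrum (𝓞 L)) [Algebra (ZMod l) (𝓞 L ⧸ v.asIdeal)]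
    (z : Fin n → ℤ) : piv l ω v (fun i => (z i : ZMod l)) =
      Ideal.Quotient.mk v.asIdeal (∑ i, z i • ω i) := by
  unfold piv
  rw [Fintype.linearCombination_apply, map_sum]
  refine Finset.sum_congr rfl fun i _ => ?_
  rw [Algebra.smul_def, map_intCast, zsmul_eq_mul, map_mul, map_intCast]

theorem lmul_sum (x : 𝓞 L) (z : Fin n → ℤ) :
    ∑ i, (Algebra.leftMulMatrix ω x).mulVec z i • ω i = x * ∑ i, z i • ω i := by
  have h1 := Algebra.leftMulMatrix_mulVec_repr ω x (∑ i, z i • ω i)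
  rw [Basis.repr_sum_self] at h1
  rw [h1]
  exact ω.sum_repr _

theorem map_mulVec_int (X : Matrix (Fin n) (Fin n) ℤ) (z : Fin n → ℤ) :
    (X.map (Int.castRingHom (ZMod l))).mulVec (fun i => (z i : ZMod l)) =
      fun i => ((X.mulVec z i : ℤ) : ZMod l) := by
  funext i
  unfold Matrix.mulVec dotProduct
  push_cast
  rfl

theorem exists_int (y : Fin n → ZMod l) : ∃ z : Fin n → ℤ, y = fun i => (z i : ZMod l) := by
  choose z hz using fun i => ZMod.intCast_surjective (y i)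
  exact ⟨z, funext fun i => (hz i).symm⟩

theorem piv_mul (v : HeightOneSpectrum (𝓞 L)) [Algebra (ZMod l) (𝓞 L ⧸ v.asIdeal)] (x : 𝓞 L)
    (y : Fin n → ZMod l) :
    piv l ω v (((Algebra.leftMulMatrix ω x).map (Int.castRingHom (ZMod l))).mulVec y) =
      Ideal.Quotient.mk v.asIdeal x * piv l ω v y := by
  obtain ⟨z, rfl⟩ := exists_int y
  rw [map_mulVec_int, piv_int, piv_int, lmul_sum, map_mul]

variable (hsq : Squarefree (Ideal.span {(l : 𝓞 L)}))
include hsq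

theorem ker_iff (x : 𝓞 L) (T : Finset (HeightOneSpectrum (𝓞 L)))
    (hx : ∀ v : HeightOneSpectrum (𝓞 L), Abv v l → (x ∈ v.asIdeal ↔ v ∈ T))
    (z : Fin n → ℤ) :
    ((Algebra.leftMulMatrix ω x).map (Int.castRingHom (ZMod l))).mulVec
      (fun i => (z i : ZMod l)) = 0 ↔
    ∀ v : HeightOneSpectrum (𝓞 L), Abv v l → v ∉ T → (∑ i, z i • ω i) ∈ v.asIdeal := by
  rw [map_mulVec_int]
  have h1 : (fun i => (((Algebra.leftMulMatrix ω x).mulVec z i : ℤ) : ZMod l)) = 0 ↔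
      ∀ i, (l : ℤ) ∣ (Algebra.leftMulMatrix ω x).mulVec z i := by
    constructor
    · intro h i
      exact (ZMod.intCast_zmod_eq_zero_iff_dvd _ _).mp (congrFun h i)
    · intro h
      funext i
      exact (ZMod.intCast_zmod_eq_zero_iff_dvd _ _).mpr (h i)
  rw [h1, ← coords_iff ω, lmul_sum]
  constructor
  · intro h v hv hvT
    have h2 : x * ∑ i, z i • ω i ∈ v.asIdeal :=
      (Ideal.span_singleton_le_iff_mem _).mpr hv h
    rcases v.isPrime.mem_or_mem h2 with h3 | h3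
    · exact absurd ((hx v hv).mp h3) hvT
    · exact h3
  · intro h
    apply mem_l hsq
    intro v hv
    by_cases hvT : v ∈ T
    · exact Ideal.mul_mem_right _ _ ((hx v hv).mpr hvT)
    · exact Ideal.mul_mem_left _ _ (h v hv hvT)

end

end Pool.Agent.Q187.EB
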