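import Pool.Agent.Q187.EB.Res
import Pool.Agent.Q187.EB.Loc

/-!
# Project EB (helper51): the determinant on the kernel
-/

set_option autoImplicit false

namespace Pool.Agent.Q187.EB

open Finset Matrix Module NumberField IsDedekindDomain Pool.Agent.Q51.EB Pool.Agent.Q51.EL

section
variable {L : Type} [Field L] [NumberField L] {l : ℕ} [hl : Fact l.Prime]

theorem qc_prod {ι : Type} (S : Finset ι) (f : ι → ZMod l) (hf : ∀ i ∈ S, f i ≠ 0) :
    qc (∏ i ∈ S, f i) = ∏ i ∈ S, qc (f i) := by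
  classical
  induction S using Finset.induction_on with
  | empty => rw [prod_empty, prod_empty, qc_one]
  | insert a S ha ih =>
    rw [prod_insert ha, prod_insert ha, qc_mul (hf a (mem_insert_self _ _)) ?_, ih]
    · exact fun i hi => hf i (mem_insert_of_mem hi)
    · exact prod_ne_zero_iff.mpr fun i hi => hf i (mem_insert_of_mem hi)

theorem res_main (hl2 : l ≠ 2) {n : ℕ} (ω : Basis (Fin n) ℤ (𝓞 L))
    (hsq : Squarefree (Ideal.span {(l : 𝓞 L)})) (x γ : 𝓞 L)
    (T : Finset (HeightOneSpectrum (𝓞 L))) (hT : ∀ v ∈ T, Abv v l)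
    (hx : ∀ v : HeightOneSpectrum (𝓞 L), Abv v l → (x ∈ v.asIdeal ↔ v ∈ T))
    (hγ : ∀ v : HeightOneSpectrum (𝓞 L), Abv v l → γ ∉ v.asIdeal)
    (K : Submodule (ZMod l) (Fin n → ZMod l))
    (hK : ∀ y, y ∈ K ↔
      ((Algebra.leftMulMatrix ω x).map (Int.castRingHom (ZMod l))).mulVec y = 0)
    (g : K →ₗ[ZMod l] K) (hg : ∀ y : K, ((g y : K) : Fin n → ZMod l) =
      ((Algebra.leftMulMatrix ω γ).map (Int.castRingHom (ZMod l))).mulVec y)
    (m : ℕ) (hm : ∏ v ∈ T, Ideal.absNorm v.asIdeal = l ^ m) :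
    finrank (ZMod l) K = m ∧ qc (LinearMap.det g) = ∏ v ∈ T, sg v (γ : L) := by
  classical
  let V : {v // v ∈ T} → Type := fun i => 𝓞 L ⧸ i.1.asIdeal
  letI : ∀ i : {v // v ∈ T}, Algebra (ZMod l) (𝓞 L ⧸ i.1.asIdeal) := fun i =>
    haveI := charP_res (hT i.1 i.2)
    ZMod.algebra _ l
  haveI : ∀ i : {v // v ∈ T}, Finite (𝓞 L ⧸ i.1.asIdeal) := fun i => kfin i.1
  haveI : ∀ i : {v // v ∈ T}, Module.Finite (ZMod l) (𝓞 L ⧸ i.1.asIdeal) := fun i =>
    Module.Finite.of_finite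
  let E0 : K →ₗ[ZMod l] ((i : {v // v ∈ T}) → 𝓞 L ⧸ i.1.asIdeal) :=
    LinearMap.pi fun i => (piv l ω i.1).comp K.subtype
  have hE0 : ∀ y i, E0 y i = piv l ω i.1 (y : Fin n → ZMod l) := fun y i => rfl
  have hinj : Function.Injective E0 := by
    rw [injective_iff_map_eq_zero]
    intro y hy
    obtain ⟨z, hz⟩ := exists_int (y : Fin n → ZMod l)
    have h1 : (∑ i, z i • ω i) ∈ Ideal.span {(l : 𝓞 L)} := by
      apply mem_l hsq
      intro v hv
      by_cases hvT : v ∈ T
      · have h2 := congrFun hy ⟨v, hvT⟩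
        rw [hE0, hz, piv_int] at h2
        exact Ideal.Quotient.eq_zero_iff_mem.mp h2
      · have h2 := (hK _).mp y.2
        rw [hz, ker_iff ω hsq x T hx] at h2
        exact h2 v hv hvT
    rw [coords_iff] at h1
    ext i
    rw [hz]
    exact (ZMod.intCast_zmod_eq_zero_iff_dvd _ _).mpr (h1 i)
  have hsurj : Function.Surjective E0 := by
    intro r
    choose R hR using fun i : {v // v ∈ T} => Ideal.Quotient.mk_surjective (r i)
    obtain ⟨Y, hY⟩ := IsDedekindDomain.exists_forall_sub_mem_ideal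
      (s := (Pool.Agent.Q239.EL.ab_finite (L := L) hl.out.ne_zero).toFinset)
      (fun v : HeightOneSpectrum (𝓞 L) => v.asIdeal) (fun _ => 1)
      (fun v _ => v.prime)
      (fun v _ w _ hvw h => hvw (HeightOneSpectrum.ext h))
      (fun v => if h : v.1 ∈ T then R ⟨v.1, h⟩ else 0)
    have hsum : ∑ i, (ω.repr Y i) • ω i = Y := ω.sum_repr Y
    have hmem : (fun i => ((ω.repr Y i : ℤ) : ZMod l)) ∈ K := by
      rw [hK, ker_iff ω hsq x T hx]
      intro v hv hvT
      rw [hsum]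
      have h3 := hY v ((Set.Finite.mem_toFinset _).mpr hv)
      rw [pow_one, dif_neg hvT, sub_zero] at h3
      exact h3
    refine ⟨⟨_, hmem⟩, funext fun i => ?_⟩
    rw [hE0]
    change piv l ω i.1 (fun j => ((ω.repr Y j : ℤ) : ZMod l)) = r i
    rw [piv_int, hsum, ← hR i]
    have h3 := hY i.1 ((Set.Finite.mem_toFinset _).mpr (hT _ i.2))
    rw [pow_one, dif_pos i.2] at h3
    exact Ideal.Quotient.eq.mpr h3
  let E := LinearEquiv.ofBijective E0 ⟨hinj, hsurj⟩
  constructor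
  · have h1 := E.finrank_eq
    rw [Module.finrank_pi_fintype] at h1
    have h2 : ∀ i : {v // v ∈ T}, Ideal.absNorm i.1.asIdeal =
        l ^ finrank (ZMod l) (𝓞 L ⧸ i.1.asIdeal) := by
      intro i
      haveI : Fintype (𝓞 L ⧸ i.1.asIdeal) := Fintype.ofFinite _
      rw [Ideal.absNorm_apply, Submodule.cardQuot_apply, Nat.card_eq_fintype_card,
        Module.card_eq_pow_finrank (K := ZMod l), ZMod.card]
    rw [← Finset.prod_coe_sort] at hm
    rw [Finset.prod_congr rfl (fun i _ => h2 i), Finset.prod_pow_eq_pow_sum] at hm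
    rw [h1]
    exact Nat.pow_right_injective hl.out.two_le hm
  · rw [det_equiv (fun i : {v // v ∈ T} => 𝓞 L ⧸ i.1.asIdeal)
      (fun i => LinearMap.mulLeft (ZMod l) (Ideal.Quotient.mk i.1.asIdeal γ)) E g (by
        intro y i
        change E0 (g y) i = _
        rw [hE0, hg, piv_mul]
        rfl)]
    have h4 : ∀ i : {v // v ∈ T}, LinearMap.det (LinearMap.mulLeft (ZMod l)
        (Ideal.Quotient.mk i.1.asIdeal γ)) =
        Algebra.norm (ZMod l) (Ideal.Quotient.mk i.1.asIdeal γ) := by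
      intro i
      rw [Algebra.norm_apply]
      rfl
    have h5 : ∀ i : {v // v ∈ T}, Ideal.Quotient.mk i.1.asIdeal γ ≠ 0 := by
      intro i h
      exact hγ i.1 (hT _ i.2) (Ideal.Quotient.eq_zero_iff_mem.mp h)
    rw [Finset.prod_congr rfl (fun i _ => h4 i), qc_prod _ _ (by
      intro i _
      rw [Ne, Algebra.norm_eq_zero_iff]
      exact h5 i)]
    rw [← Finset.prod_coe_sort T (fun v => sg v (γ : L))]
    refine Finset.prod_congr rfl fun i _ => ?_
    have h6 := (kdata i.1 l hl.out hl2 (hT _ i.2)).1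
    have h7 := isSquare_norm_iff (k := ZMod l) h6 (Ideal.Quotient.mk i.1.asIdeal γ) (h5 i)
    have h8 := sg_iff i.1 γ
    by_cases h9 : IsSquare (Ideal.Quotient.mk i.1.asIdeal γ)
    · rw [h8.mpr h9]
      unfold qc
      rw [if_pos (h7.mpr h9)]
    · rw [sg_neg (fun h => h9 (h8.mp h))]
      unfold qc
      rw [if_neg (fun h => h9 (h7.mp h))]

end

end Pool.Agent.Q187.EB
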