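import Pool.Agent.Q187.EB.Res2
import Pool.Agent.Q187.EB.Jc3
import Pool.Agent.Q51.EB.CT

/-!
# Project EB (helper51): job TR, integral elements
-/

set_option autoImplicit false

namespace Pool.Agent.Q187.EB

open Finset Matrix Module NumberField IsDedekindDomain Pool.Agent.Q51.EB Pool.Agent.Q51.EL
open Pool.Agent.Q239.EL (mu ph ab_finite ph_formula norm_int_val)

section
variable {L : Type} [Field L] [NumberField L] {l : ℕ} [hl : Fact l.Prime] {n : ℕ}

/-- the matrix of the trace form `Tr (x z²)` -/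
noncomputable def TM (ω : Basis (Fin n) ℤ (𝓞 L)) (x : 𝓞 L) : Matrix (Fin n) (Fin n) ℤ :=
  Matrix.of fun i j => Algebra.trace ℤ (𝓞 L) (x * (ω i * ω j))

variable (ω : Basis (Fin n) ℤ (𝓞 L))

omit [NumberField L] in
theorem TM_mul (x γ : 𝓞 L) : TM ω (x * γ) = TM ω x * Algebra.leftMulMatrix ω γ := by
  ext i j
  rw [Matrix.mul_apply]
  have h1 : ∑ k, Algebra.leftMulMatrix ω γ k j • ω k = γ * ω j := by
    conv_rhs => rw [← ω.sum_repr (γ * ω j)]
    refine Finset.sum_congr rfl fun k _ => ?_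
    rw [Algebra.leftMulMatrix_eq_repr_mul]
  have h3 : x * γ * (ω i * ω j) = ∑ k, Algebra.leftMulMatrix ω γ k j • (x * (ω i * ω k)) := by
    have h4 : ∀ k, Algebra.leftMulMatrix ω γ k j • (x * (ω i * ω k)) =
        (x * ω i) * (Algebra.leftMulMatrix ω γ k j • ω k) := by
      intro k
      rw [zsmul_eq_mul, zsmul_eq_mul]
      ring
    rw [Finset.sum_congr rfl fun k _ => h4 k, ← Finset.mul_sum, h1]
    ring
  unfold TM
  rw [Matrix.of_apply, h3, map_sum]
  refine Finset.sum_congr rfl fun k _ => ?_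
  rw [map_smul, smul_eq_mul, mul_comm]
  rfl

omit [NumberField L] in
theorem TM_eq (x : 𝓞 L) : TM ω x = TM ω 1 * Algebra.leftMulMatrix ω x := by
  rw [← TM_mul, one_mul]

omit [NumberField L] in
theorem TM_symm (x : 𝓞 L) : (TM ω x).IsSymm := by
  unfold Matrix.IsSymm
  ext i j
  unfold TM
  rw [Matrix.transpose_apply, Matrix.of_apply, Matrix.of_apply, mul_comm (ω j) (ω i)]

theorem TM_one_det : (TM ω 1).det = NumberField.discr L := by
  rw [← NumberField.discr_eq_discr L ω, Algebra.discr_def]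
  congr 1
  ext i j
  unfold TM
  rw [Matrix.of_apply, one_mul]
  rfl

theorem norm_eq_det (x : 𝓞 L) : (Algebra.leftMulMatrix ω x).det = Algebra.norm ℤ x :=
  (Algebra.norm_eq_matrix_det ω x).symm

/-- the valuation of the norm -/
theorem norm_pow {x : 𝓞 L} (hx : x ≠ 0) (T : Finset (HeightOneSpectrum (𝓞 L)))
    (hT : ∀ v ∈ T, Abv v l)
    (hx1 : ∀ v : HeightOneSpectrum (𝓞 L), Abv v l → (v ∈ T → mu v (Ideal.span {x}) = 1) ∧
      (v ∉ T → mu v (Ideal.span {x}) = 0)) (m : ℕ)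
    (hm : ∏ v ∈ T, Ideal.absNorm v.asIdeal = l ^ m) :
    ∃ w : ℤ, ¬ (l : ℤ) ∣ w ∧ Algebra.norm ℤ x = (l : ℤ) ^ m * w := by
  classical
  have hn0 : Algebra.norm ℤ x ≠ 0 := by
    rw [Ne, Algebra.norm_eq_zero_iff]; exact hx
  have h1 : padicValInt l (Algebra.norm ℤ x) = m := by
    have h2 := norm_int_val (l := l) x
    rw [ph_formula (l := l) _ (Pool.Agent.Q239.EL.span_ne hx), ← Algebra.coe_norm_int,
      padicValRat.of_int] at h2
    have h3 : ∑ v ∈ (ab_finite (L := L) hl.out.ne_zero).toFinset,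
        mu v (Ideal.span {x}) * ph l v.asIdeal = ∑ v ∈ T, ph l v.asIdeal := by
      have e1 : ∑ v ∈ T, mu v (Ideal.span {x}) * ph l v.asIdeal =
          ∑ v ∈ (ab_finite (L := L) hl.out.ne_zero).toFinset,
            mu v (Ideal.span {x}) * ph l v.asIdeal := by
        apply Finset.sum_subset
        · intro v hv
          exact (Set.Finite.mem_toFinset _).mpr (hT v hv)
        · intro v hv hvT
          have hv' : Abv v l :=
            (Set.Finite.mem_toFinset (ab_finite (L := L) hl.out.ne_zero)).mp hv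
          rw [(hx1 v hv').2 hvT, zero_mul]
      rw [← e1]
      refine Finset.sum_congr rfl fun v hv => ?_
      rw [(hx1 v (hT v hv)).1 hv, one_mul]
    rw [h3] at h2
    have h4 : ∑ v ∈ T, ph l v.asIdeal = m := by
      have h5 : ∏ v ∈ T, Ideal.absNorm v.asIdeal = l ^ ∑ v ∈ T, ph l v.asIdeal := by
        rw [← Finset.prod_pow_eq_pow_sum]
        exact Finset.prod_congr rfl fun v hv => absN_pow (hT v hv)
      rw [hm] at h5
      exact (Nat.pow_right_injective hl.out.two_le h5).symm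
    rw [h4] at h2
    exact_mod_cast h2
  have h2 : (l : ℤ) ^ m ∣ Algebra.norm ℤ x := by
    rw [padicValInt_dvd_iff]
    right
    exact h1.ge
  obtain ⟨w, hw⟩ := h2
  refine ⟨w, ?_, hw⟩
  intro hlw
  have h3 : (l : ℤ) ^ (m + 1) ∣ Algebra.norm ℤ x := by
    obtain ⟨c, hc⟩ := hlw
    exact ⟨c, by rw [hw, hc]; ring⟩
  rw [padicValInt_dvd_iff] at h3
  rcases h3 with h3 | h3
  · exact hn0 h3
  · omega

theorem int_unit {a : ℤ} (ha : ¬ (l : ℤ) ∣ a) : IsUnit ((a : ℤ) : ℤ_[l]) := by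
  rw [unit_iff, Pool.Agent.W335.BMX.toZMod_int]
  exact Pool.Agent.W335.BMX.cast_ne_zero ha

theorem map_map' (A : Matrix (Fin n) (Fin n) ℤ) :
    (A.map (Int.castRingHom ℤ_[l])).map (algebraMap ℤ_[l] ℚ_[l]) =
      A.map (Int.castRingHom ℚ_[l]) := by
  rw [Matrix.map_map]
  ext i j
  simp

theorem map_red (A : Matrix (Fin n) (Fin n) ℤ) :
    (A.map (Int.castRingHom ℤ_[l])).map PadicInt.toZMod = A.map (Int.castRingHom (ZMod l)) := by
  rw [Matrix.map_map]
  ext i j
  simp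

theorem tr_int (hF : Hil ℚ_[l]) (hl2 : l ≠ 2) (hsq : Squarefree (Ideal.span {(l : 𝓞 L)}))
    (hdisc : ¬ (l : ℤ) ∣ NumberField.discr L) {x γ : 𝓞 L} (hx : x ≠ 0) (hγ0 : γ ≠ 0)
    (T : Finset (HeightOneSpectrum (𝓞 L)))
    (hT : ∀ v ∈ T, Abv v l)
    (hx1 : ∀ v : HeightOneSpectrum (𝓞 L), Abv v l → (v ∈ T → mu v (Ideal.span {x}) = 1) ∧
      (v ∉ T → mu v (Ideal.span {x}) = 0))
    (hγ : ∀ v : HeightOneSpectrum (𝓞 L), Abv v l → γ ∉ v.asIdeal) (m : ℕ)
    (hm : ∏ v ∈ T, Ideal.absNorm v.asIdeal = l ^ m) :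
    hw ((TM ω (x * γ)).map (Int.castRingHom ℚ_[l])) * hw ((TM ω x).map (Int.castRingHom ℚ_[l])) =
      hs (l : ℚ_[l]) ((Algebra.norm ℤ γ : ℤ) : ℚ_[l]) ^ m * ∏ v ∈ T, sg v (γ : L) := by
  classical
  have hxv : ∀ v : HeightOneSpectrum (𝓞 L), Abv v l → (x ∈ v.asIdeal ↔ v ∈ T) := by
    intro v hv
    rw [← Ideal.span_singleton_le_iff_mem, ← Ideal.dvd_iff_le,
      Pool.Agent.Q239.EL.mu_pos_iff (Pool.Agent.Q239.EL.span_ne hx)]
    constructor
    · intro h
      by_contra hvT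
      exact h ((hx1 v hv).2 hvT)
    · intro h
      rw [(hx1 v hv).1 h]
      exact one_ne_zero
  obtain ⟨w, hw1, hw2⟩ := norm_pow hx T hT hx1 m hm
  obtain ⟨w', hw1', hw2'⟩ := norm_pow (l := l) hγ0 ∅ (fun v hv => absurd hv (Finset.notMem_empty v))
    (fun v hv => ⟨fun h => absurd h (Finset.notMem_empty v), fun _ => by
      by_contra h
      rw [← Ne, ← Pool.Agent.Q239.EL.mu_pos_iff (Pool.Agent.Q239.EL.span_ne hγ0),
        Ideal.dvd_iff_le, Ideal.span_singleton_le_iff_mem] at h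
      exact hγ v hv h⟩) 0 (by rw [Finset.prod_empty, pow_zero])
  rw [pow_zero, one_mul] at hw2'
  set M : Matrix (Fin n) (Fin n) ℤ_[l] := (TM ω x).map (Int.castRingHom ℤ_[l]) with hM
  set N : Matrix (Fin n) (Fin n) ℤ_[l] :=
    (Algebra.leftMulMatrix ω γ).map (Int.castRingHom ℤ_[l]) with hN
  have hMN : M * N = (TM ω (x * γ)).map (Int.castRingHom ℤ_[l]) := by
    rw [hM, hN, ← Matrix.map_mul, ← TM_mul]
  have hMs : M.IsSymm := by
    unfold Matrix.IsSymm
    rw [hM, ← Matrix.transpose_map, (TM_symm ω x).eq]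
  have hMNs : (M * N).IsSymm := by
    unfold Matrix.IsSymm
    rw [hMN, ← Matrix.transpose_map, (TM_symm ω _).eq]
  have hNd : N.det = ((Algebra.norm ℤ γ : ℤ) : ℤ_[l]) := by
    rw [hN, ← norm_eq_det ω]
    exact (RingHom.map_det (Int.castRingHom ℤ_[l]) _).symm
  have hNu : IsUnit N.det := by
    rw [hNd, hw2']
    exact int_unit hw1'
  have hMd : ∃ u : ℤ_[l], IsUnit u ∧ M.det = (l : ℤ_[l]) ^ m * u := by
    refine ⟨((NumberField.discr L * w : ℤ) : ℤ_[l]), int_unit ?_, ?_⟩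
    · intro h
      rcases (Int.Prime.dvd_mul' hl.out h) with h | h
      · exact hdisc h
      · exact hw1 h
    · have h1 : M.det = (((TM ω x).det : ℤ) : ℤ_[l]) :=
        (RingHom.map_det (Int.castRingHom ℤ_[l]) _).symm
      rw [h1, TM_eq, Matrix.det_mul, TM_one_det, norm_eq_det, hw2]
      push_cast
      ring
  -- the kernel
  have hG : IsUnit ((TM ω 1).map (Int.castRingHom (ZMod l))).det := by
    have h1 : ((TM ω 1).map (Int.castRingHom (ZMod l))).det = (((TM ω 1).det : ℤ) : ZMod l) :=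
      (RingHom.map_det (Int.castRingHom (ZMod l)) _).symm
    rw [h1, TM_one_det, isUnit_iff_ne_zero]
    exact Pool.Agent.W335.BMX.cast_ne_zero hdisc
  have hKer : ∀ y : Fin n → ZMod l, (M.map PadicInt.toZMod).mulVec y = 0 ↔
      ((Algebra.leftMulMatrix ω x).map (Int.castRingHom (ZMod l))).mulVec y = 0 := by
    intro y
    rw [hM, map_red, TM_eq, Matrix.map_mul, ← Matrix.mulVec_mulVec]
    constructor
    · intro h
      have h2 := congrArg (((TM ω 1).map (Int.castRingHom (ZMod l)))⁻¹).mulVec h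
      rw [Matrix.mulVec_mulVec, Matrix.nonsing_inv_mul _ hG, Matrix.one_mulVec,
        Matrix.mulVec_zero] at h2
      exact h2
    · intro h
      rw [h, Matrix.mulVec_zero]
  set K : Submodule (ZMod l) (Fin n → ZMod l) :=
    LinearMap.ker (Matrix.toLin' (M.map PadicInt.toZMod)) with hKdef
  have hK : ∀ y, y ∈ K ↔ (M.map PadicInt.toZMod).mulVec y = 0 := by
    intro y
    rw [hKdef, LinearMap.mem_ker, Matrix.toLin'_apply]
  have hstab : ∀ y ∈ K, Matrix.toLin' (N.map PadicInt.toZMod) y ∈ K := by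
    intro y hy
    rw [hK, hKer] at hy ⊢
    rw [Matrix.toLin'_apply, hN, map_red, Matrix.mulVec_mulVec, ← Matrix.map_mul, ← map_mul,
      mul_comm x γ, map_mul, Matrix.map_mul, ← Matrix.mulVec_mulVec, hy, Matrix.mulVec_zero]
  let g : K →ₗ[ZMod l] K := (Matrix.toLin' (N.map PadicInt.toZMod)).restrict hstab
  have hg : ∀ y : K, ((g y : K) : Fin n → ZMod l) = (N.map PadicInt.toZMod).mulVec y := by
    intro y
    change Matrix.toLin' (N.map PadicInt.toZMod) y = _
    rw [Matrix.toLin'_apply]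
  have hg' : ∀ y : K, ((g y : K) : Fin n → ZMod l) =
      ((Algebra.leftMulMatrix ω γ).map (Int.castRingHom (ZMod l))).mulVec y := by
    intro y
    rw [hg, hN, map_red]
  obtain ⟨r1, r2⟩ := res_main hl2 ω hsq x γ T hT hxv hγ K (fun y => (hK y).trans (hKer y)) g hg' m hm
  have key := jc_aux hF hl2 n m M N hMs hMNs hNu hMd K r1 hK g hg
  rw [hMN, hM, map_map', map_map'] at key
  rw [key, r2, hNd, ← hs_l_unit hl2 _ (by rw [hw2']; exact int_unit hw1')]
  push_cast
  rfl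

end

end Pool.Agent.Q187.EB
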