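import Pool.Agent.Q187.EB.Hs

/-!
# Project EB (helper51): the Hasse-Witt invariant is well defined (jobs WD, DIAG)
-/

set_option autoImplicit false

namespace Pool.Agent.Q187.EB

open Finset Matrix Module Pool.Agent.Q51.EB
open Pool.Agent.W313.BMX (Splits)

section ob
variable {F : Type} [Field F] {V : Type} [AddCommGroup V] [Module F V]

/-- an orthogonal family with the values `a` -/
structure Ob (B : LinearMap.BilinForm F V) {n : ℕ} (e : Fin n → V) (a : Fin n → F) : Prop where
  orth : ∀ i j, i ≠ j → B (e i) (e j) = 0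
  val : ∀ i, B (e i) (e i) = a i
  ne : ∀ i, a i ≠ 0

variable {B : LinearMap.BilinForm F V}

theorem Ob.coef {n : ℕ} {e : Fin n → V} {a : Fin n → F} (h : Ob B e a) (c : Fin n → F) (i : Fin n) :
    B (e i) (∑ j, c j • e j) = c i * a i := by
  rw [map_sum, Finset.sum_eq_single i]
  · rw [map_smul, h.val, smul_eq_mul]
  · intro j _ hj
    rw [map_smul, h.orth i j hj.symm, smul_zero]
  · intro hi
    exact absurd (mem_univ i) hi

theorem Ob.expand {n : ℕ} {e : Fin n → V} {a : Fin n → F} (h : Ob B e a) {x : V}
    (hx : x ∈ Submodule.span F (Set.range e)) : x = ∑ i, (B (e i) x / a i) • e i := by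
  rw [Submodule.mem_span_range_iff_exists_fun] at hx
  obtain ⟨c, rfl⟩ := hx
  refine sum_congr rfl fun i _ => ?_
  rw [h.coef c i, mul_div_assoc, div_self (h.ne i), mul_one]

theorem Ob.nondeg {n : ℕ} {e : Fin n → V} {a : Fin n → F} (h : Ob B e a) {x : V}
    (hx : x ∈ Submodule.span F (Set.range e)) (h0 : ∀ i, B (e i) x = 0) : x = 0 := by
  rw [h.expand hx]
  exact sum_eq_zero fun i _ => by rw [h0 i, zero_div, zero_smul]

theorem Ob.linInd {n : ℕ} {e : Fin n → V} {a : Fin n → F} (h : Ob B e a) :
    LinearIndependent F e := by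
  rw [Fintype.linearIndependent_iff]
  intro c hc i
  have h1 := h.coef c i
  rw [hc, map_zero] at h1
  rcases mul_eq_zero.mp h1.symm with h2 | h2
  · exact h2
  · exact absurd h2 (h.ne i)

/-- the discriminants differ by a square -/
theorem Ob.disc {n : ℕ} {e e' : Fin n → V} {a a' : Fin n → F} (h : Ob B e a) (h' : Ob B e' a')
    (hs : ∀ j, e' j ∈ Submodule.span F (Set.range e)) :
    ∃ d : F, d ≠ 0 ∧ ∏ i, a' i = (∏ i, a i) * d ^ 2 := by
  classical
  set P : Matrix (Fin n) (Fin n) F := fun i j => B (e i) (e' j) / a i with hP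
  have h1 : Matrix.diagonal a' = P.transpose * Matrix.diagonal a * P := by
    ext j k
    have e1 : (P.transpose * Matrix.diagonal a * P) j k = B (e' j) (e' k) := by
      conv_rhs => rw [h.expand (hs j)]
      rw [map_sum, LinearMap.sum_apply, Matrix.mul_apply]
      refine sum_congr rfl fun i _ => ?_
      rw [Matrix.mul_diagonal, Matrix.transpose_apply, map_smul, LinearMap.smul_apply, smul_eq_mul]
      simp only [hP]
      rw [mul_assoc, mul_div_cancel₀ _ (h.ne i)]
    rw [e1]
    by_cases hjk : j = k
    · subst hjk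
      rw [Matrix.diagonal_apply_eq, h'.val]
    · rw [Matrix.diagonal_apply_ne _ hjk, h'.orth j k hjk]
  have h2 := congrArg Matrix.det h1
  rw [Matrix.det_mul, Matrix.det_mul, Matrix.det_diagonal, Matrix.det_diagonal,
    Matrix.det_transpose] at h2
  refine ⟨P.det, ?_, ?_⟩
  · intro h3
    rw [h3, mul_zero] at h2
    exact (prod_ne_zero_iff.mpr fun i _ => h'.ne i) h2
  · rw [h2]; ring

theorem Ob.tail {n : ℕ} {e : Fin (n + 1) → V} {a : Fin (n + 1) → F} (h : Ob B e a) :
    Ob B (fun j : Fin n => e j.succ) (fun j => a j.succ) :=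
  ⟨fun i j hij => h.orth _ _ (fun h' => hij (Fin.succ_injective _ h')), fun i => h.val _,
    fun i => h.ne _⟩

theorem Ob.tail_span {n : ℕ} {e : Fin (n + 1) → V} {a : Fin (n + 1) → F} (h : Ob B e a) (x : V) :
    x ∈ Submodule.span F (Set.range fun j : Fin n => e j.succ) ↔
      x ∈ Submodule.span F (Set.range e) ∧ B (e 0) x = 0 := by
  constructor
  · intro hx
    refine ⟨Submodule.span_mono ?_ hx, ?_⟩
    · rintro _ ⟨j, rfl⟩
      exact ⟨_, rfl⟩
    · rw [Submodule.mem_span_range_iff_exists_fun] at hx
      obtain ⟨c, rfl⟩ := hx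
      rw [map_sum]
      refine sum_eq_zero fun j _ => ?_
      rw [map_smul, h.orth 0 j.succ (Fin.succ_ne_zero j).symm, smul_zero]
  · rintro ⟨hx, h0⟩
    rw [h.expand hx, Fin.sum_univ_succ, h0, zero_div, zero_smul, zero_add]
    refine Submodule.sum_mem _ fun j _ => Submodule.smul_mem _ _ (Submodule.subset_span ⟨j, rfl⟩)

/-- the inductive statement -/
def St (B : LinearMap.BilinForm F V) (n : ℕ) : Prop := ∀ (e e' : Fin n → V) (a a' : Fin n → F),
  Ob B e a → Ob B e' a' → Submodule.span F (Set.range e) = Submodule.span F (Set.range e') →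
  HWs a = HWs a'

/-- families with proportional first vectors -/
theorem step1 (hF : Hil F) {n : ℕ} (IH : St B n) {e e' : Fin (n + 1) → V}
    {a a' : Fin (n + 1) → F} (h : Ob B e a) (h' : Ob B e' a')
    (hs : Submodule.span F (Set.range e) = Submodule.span F (Set.range e')) (c : F)
    (hc : e' 0 = c • e 0) : HWs a = HWs a' := by
  have hc0 : c ≠ 0 := by
    rintro rfl
    have := h'.val 0
    rw [hc, zero_smul, map_zero] at this
    exact h'.ne 0 this.symm
  have ha0 : a' 0 = a 0 * c ^ 2 := by
    rw [← h'.val 0, hc, map_smul, LinearMap.map_smul, LinearMap.smul_apply, h.val]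
    simp only [smul_eq_mul]
    ring
  have hts : Submodule.span F (Set.range fun j : Fin n => e j.succ) =
      Submodule.span F (Set.range fun j : Fin n => e' j.succ) := by
    ext x
    rw [h.tail_span, h'.tail_span, hs, hc, map_smul, LinearMap.smul_apply, smul_eq_mul]
    constructor
    · rintro ⟨h1, h2⟩
      exact ⟨h1, by rw [h2, mul_zero]⟩
    · rintro ⟨h1, h2⟩
      refine ⟨h1, ?_⟩
      rcases mul_eq_zero.mp h2 with h3 | h3
      · exact absurd h3 hc0
      · exact h3
  have h1 := IH _ _ _ _ h.tail h'.tail hts
  obtain ⟨d, hd, hd2⟩ := h.tail.disc h'.tail (fun j => by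
    rw [hts]
    exact Submodule.subset_span ⟨j, rfl⟩)
  rw [HWs_succ' hF n a h.ne, HWs_succ' hF n a' h'.ne, hd2, ha0, hs_sq_left _ _ _ hc0,
    hs_sq_right _ _ _ hd, h1]

/-- binary moves -/
theorem step2 (hF : Hil F) (hB : B.IsSymm) {n : ℕ} {e e' : Fin (n + 2) → V}
    {a a' : Fin (n + 2) → F} (h : Ob B e a) (h' : Ob B e' a')
    (hj : ∀ j : Fin n, e' j.succ.succ = e j.succ.succ) (p q r s : F)
    (h0 : e' 0 = p • e 0 + q • e 1) (h1 : e' 1 = r • e 0 + s • e 1) : HWs a = HWs a' := by
  have h01 : B (e 0) (e 1) = 0 := h.orth 0 1 (by simp)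
  have h10 : B (e 1) (e 0) = 0 := h.orth 1 0 (by simp)
  have v0 : a' 0 = p ^ 2 * a 0 + q ^ 2 * a 1 := by
    rw [← h'.val 0, h0]
    simp only [map_add, map_smul, LinearMap.add_apply, LinearMap.smul_apply, h01, h10, h.val,
      smul_eq_mul]
    ring
  have v1 : a' 1 = r ^ 2 * a 0 + s ^ 2 * a 1 := by
    rw [← h'.val 1, h1]
    simp only [map_add, map_smul, LinearMap.add_apply, LinearMap.smul_apply, h01, h10, h.val,
      smul_eq_mul]
    ring
  have v2 : p * r * a 0 + q * s * a 1 = 0 := by
    have := h'.orth 0 1 (by simp)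
    rw [h0, h1] at this
    simp only [map_add, map_smul, LinearMap.add_apply, LinearMap.smul_apply, h01, h10, h.val,
      smul_eq_mul] at this
    linear_combination this
  have vd : a' 0 * a' 1 = (a 0 * a 1) * (p * s - q * r) ^ 2 := by
    rw [v0, v1]
    linear_combination (p * r * a 0 + q * s * a 1) * v2
  have hd : p * s - q * r ≠ 0 := by
    intro h3
    rw [h3] at vd
    have : a' 0 * a' 1 = 0 := by rw [vd]; ring
    exact (mul_ne_zero (h'.ne 0) (h'.ne 1)) this
  have vj : ∀ j : Fin n, a' j.succ.succ = a j.succ.succ := by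
    intro j
    rw [← h'.val, ← h.val, hj]
  rw [HWs_two hF n a h.ne, HWs_two hF n a' h'.ne, hs_bin v0 v1 v2 hd, vd,
    hs_sq_left _ _ _ hd]
  simp only [vj]

/-- extension of an anisotropic vector to an orthogonal family -/
theorem ext1 (h2 : (2 : F) ≠ 0) (hB : B.IsSymm) {n : ℕ} {e : Fin (n + 1) → V}
    {a : Fin (n + 1) → F} (h : Ob B e a) (ε : V) (hε : ε ∈ Submodule.span F (Set.range e))
    (hε0 : B ε ε ≠ 0) : ∃ (g : Fin n → V) (b : Fin n → F),
      Ob B (Fin.cons ε g : Fin (n + 1) → V) (Fin.cons (B ε ε) b : Fin (n + 1) → F) ∧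
      Submodule.span F (Set.range (Fin.cons ε g : Fin (n + 1) → V)) =
        Submodule.span F (Set.range e) := by
  set W := Submodule.span F (Set.range e) with hW
  haveI : FiniteDimensional F W := FiniteDimensional.span_of_finite F (Set.finite_range e)
  have hWr : finrank F W = n + 1 := by
    rw [hW, finrank_span_eq_card h.linInd, Fintype.card_fin]
  set φ : W →ₗ[F] F := (B ε).domRestrict W with hφ
  have hφx : ∀ x : W, φ x = B ε (x : V) := fun x => rfl
  have hφs : Function.Surjective φ := by
    intro y
    refine ⟨(y / B ε ε) • ⟨ε, hε⟩, ?_⟩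
    rw [map_smul, hφx, smul_eq_mul, div_mul_cancel₀ _ hε0]
  set K := LinearMap.ker φ with hK
  have hKr : finrank F K = n := by
    have h3 : finrank F (LinearMap.range φ) + finrank F K = finrank F W :=
      LinearMap.finrank_range_add_finrank_ker φ
    rw [LinearMap.range_eq_top.mpr hφs, finrank_top, finrank_self, hWr] at h3
    omega
  set ι : K →ₗ[F] V := W.subtype ∘ₗ K.subtype with hι
  set B' : LinearMap.BilinForm F K := LinearMap.BilinForm.comp B ι ι with hB'
  have hBx : ∀ x y : K, B' x y = B (ι x) (ι y) := fun x y => rfl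
  have hB's : B'.IsSymm := ⟨fun x y => by rw [hBx, hBx]; exact hB.eq _ _⟩
  haveI : Invertible (2 : F) := invertibleOfNonzero h2
  obtain ⟨v, hv⟩ : ∃ v : Basis (Fin n) F K, ∀ i j, i ≠ j → B' (v i) (v j) = 0 := by
    obtain ⟨v, hv⟩ := LinearMap.BilinForm.exists_orthogonal_basis
      (LinearMap.BilinForm.isSymm_iff.mp hB's)
    refine ⟨v.reindex (finCongr hKr), fun i j hij => ?_⟩
    rw [Basis.reindex_apply, Basis.reindex_apply]
    exact hv (fun h' => hij ((finCongr hKr).symm.injective h'))
  have hιK : ∀ k : K, B ε (ι k) = 0 := by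
    intro k
    have h3 : φ (k : W) = 0 := k.2
    exact h3
  have hιW : ∀ k : K, ι k ∈ W := fun k => (k : W).2
  have hdec : ∀ x ∈ W, ∃ k : K, x = (B ε x / B ε ε) • ε + ι k := by
    intro x hx
    have hm : (⟨x, hx⟩ : W) - (B ε x / B ε ε) • ⟨ε, hε⟩ ∈ K := by
      rw [hK, LinearMap.mem_ker, map_sub, map_smul, hφx, hφx, smul_eq_mul,
        div_mul_cancel₀ _ hε0, sub_self]
    refine ⟨⟨_, hm⟩, ?_⟩
    have : ι ⟨(⟨x, hx⟩ : W) - (B ε x / B ε ε) • ⟨ε, hε⟩, hm⟩ = x - (B ε x / B ε ε) • ε := rfl
    rw [this]
    abel
  refine ⟨fun j => ι (v j), fun j => B (ι (v j)) (ι (v j)), ⟨?_, ?_, ?_⟩, ?_⟩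
  · intro i j hij
    refine Fin.cases ?_ (fun i' => ?_) i hij
    · intro hij
      refine Fin.cases ?_ (fun j' => ?_) j hij
      · intro h3; exact absurd rfl h3
      · intro _
        rw [Fin.cons_zero, Fin.cons_succ]
        exact hιK _
    · intro hij
      refine Fin.cases ?_ (fun j' => ?_) j hij
      · intro _
        rw [Fin.cons_zero, Fin.cons_succ, hB.eq]
        exact hιK _
      · intro hij
        rw [Fin.cons_succ, Fin.cons_succ, ← hBx]
        exact hv _ _ (fun h3 => hij (by rw [h3]))
  · intro i
    refine Fin.cases ?_ (fun i' => ?_) i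
    · rw [Fin.cons_zero, Fin.cons_zero]
    · rw [Fin.cons_succ, Fin.cons_succ]
  · intro i
    refine Fin.cases ?_ (fun j => ?_) i
    · rw [Fin.cons_zero]
      exact hε0
    · rw [Fin.cons_succ]
      intro h3
      have h4 : ∀ i, B' (v j) (v i) = 0 := by
        intro i
        by_cases hji : j = i
        · rw [← hji, hBx, h3]
        · exact hv j i hji
      have h5 : ∀ k : K, B (ι (v j)) (ι k) = 0 := by
        intro k
        rw [← hBx, ← v.sum_repr k, map_sum]
        refine sum_eq_zero fun i _ => ?_
        rw [map_smul, h4, smul_zero]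
      have h6 : ι (v j) = 0 := by
        refine h.nondeg (hιW _) fun i => ?_
        rw [hB.eq]
        obtain ⟨k, hk⟩ := hdec (e i) (Submodule.subset_span ⟨i, rfl⟩)
        rw [hk, map_add, map_smul, hB.eq (ι (v j)) ε, hιK, smul_zero, zero_add]
        exact h5 k
      have h7 : v j = 0 := by
        apply Subtype.ext
        apply Subtype.ext
        exact h6
      exact v.ne_zero j h7
  · apply le_antisymm
    · rw [Submodule.span_le]
      rintro _ ⟨i, rfl⟩
      refine Fin.cases ?_ (fun j => ?_) i
      · rw [Fin.cons_zero]; exact hε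
      · rw [Fin.cons_succ]; exact hιW _
    · intro x hx
      obtain ⟨k, hk⟩ := hdec x hx
      rw [hk]
      refine Submodule.add_mem _ (Submodule.smul_mem _ _ (Submodule.subset_span ⟨0, ?_⟩)) ?_
      · rw [Fin.cons_zero]
      · rw [← v.sum_repr k, map_sum]
        refine Submodule.sum_mem _ fun j _ => ?_
        rw [map_smul]
        refine Submodule.smul_mem _ _ (Submodule.subset_span ⟨j.succ, ?_⟩)
        rw [Fin.cons_succ]

/-- the first planes are nondegenerate -/
theorem step3 (hF : Hil F) (hB : B.IsSymm) {n : ℕ} (IH : St B (n + 1)) {e e' : Fin (n + 2) → V}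
    {a a' : Fin (n + 2) → F} (h : Ob B e a) (h' : Ob B e' a')
    (hs : Submodule.span F (Set.range e) = Submodule.span F (Set.range e'))
    (hD : a 0 * a' 0 - (B (e 0) (e' 0)) ^ 2 ≠ 0) : HWs a = HWs a' := by
  obtain ⟨β, hβ⟩ : ∃ β, β = B (e 0) (e' 0) := ⟨_, rfl⟩
  have hβ' : B (e' 0) (e 0) = β := by rw [hβ]; exact hB.eq _ _
  rw [← hβ] at hD
  have ha0 := h.ne 0
  have ha0' := h'.ne 0
  -- the second vectors
  obtain ⟨ε, hε⟩ : ∃ ε, ε = e' 0 - (β / a 0) • e 0 := ⟨_, rfl⟩
  obtain ⟨ε', hε'⟩ : ∃ ε', ε' = e 0 - (β / a' 0) • e' 0 := ⟨_, rfl⟩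
  have he0W : e 0 ∈ Submodule.span F (Set.range e) := Submodule.subset_span ⟨0, rfl⟩
  have he0W' : e' 0 ∈ Submodule.span F (Set.range e) := by
    rw [hs]; exact Submodule.subset_span ⟨0, rfl⟩
  have hεv : B ε ε = (a 0 * a' 0 - β ^ 2) / a 0 := by
    rw [hε]
    simp only [map_sub, map_smul, LinearMap.sub_apply, LinearMap.smul_apply, h.val, h'.val, ← hβ,
      hβ', smul_eq_mul]
    field_simp
    ring
  have hεv' : B ε' ε' = (a 0 * a' 0 - β ^ 2) / a' 0 := by
    rw [hε']
    simp only [map_sub, map_smul, LinearMap.sub_apply, LinearMap.smul_apply, h.val, h'.val, ← hβ,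
      hβ', smul_eq_mul]
    field_simp
    ring
  have hεn : B ε ε ≠ 0 := by rw [hεv]; exact div_ne_zero hD ha0
  have hεn' : B ε' ε' ≠ 0 := by rw [hεv']; exact div_ne_zero hD ha0'
  have hεo : B (e 0) ε = 0 := by
    rw [hε, map_sub, map_smul, ← hβ, h.val, smul_eq_mul, div_mul_cancel₀ _ ha0, sub_self]
  have hεo' : B (e' 0) ε' = 0 := by
    rw [hε', map_sub, map_smul, hβ', h'.val, smul_eq_mul, div_mul_cancel₀ _ ha0', sub_self]
  have hεt : ε ∈ Submodule.span F (Set.range fun j : Fin (n + 1) => e j.succ) := by
    rw [h.tail_span]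
    refine ⟨?_, hεo⟩
    rw [hε]
    exact Submodule.sub_mem _ he0W' (Submodule.smul_mem _ _ he0W)
  obtain ⟨g, b, hg, hgs⟩ := ext1 hF.two hB h.tail ε hεt hεn
  -- the first new family
  have hgt : ∀ j : Fin (n + 1), (Fin.cons ε g : Fin (n + 1) → V) j ∈
      Submodule.span F (Set.range fun j : Fin (n + 1) => e j.succ) := by
    intro j
    rw [← hgs]
    exact Submodule.subset_span ⟨j, rfl⟩
  have hg0 : ∀ j : Fin (n + 1), B (e 0) ((Fin.cons ε g : Fin (n + 1) → V) j) = 0 := fun j =>
    ((h.tail_span _).1 (hgt j)).2
  have hgj : ∀ j : Fin n, B (e 0) (g j) = 0 := by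
    intro j
    have := hg0 j.succ
    rwa [Fin.cons_succ] at this
  have hεg : ∀ j : Fin n, B ε (g j) = 0 := by
    intro j
    have := hg.orth 0 j.succ (Fin.succ_ne_zero j).symm
    rwa [Fin.cons_zero, Fin.cons_succ] at this
  have hgg : ∀ i j : Fin n, i ≠ j → B (g i) (g j) = 0 := by
    intro i j hij
    have := hg.orth i.succ j.succ (fun h3 => hij (Fin.succ_injective _ h3))
    rwa [Fin.cons_succ, Fin.cons_succ] at this
  have hgv : ∀ j, B (g j) (g j) = b j := by
    intro j
    have := hg.val j.succ
    rwa [Fin.cons_succ, Fin.cons_succ] at this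
  have hbn : ∀ j, b j ≠ 0 := by
    intro j
    have := hg.ne j.succ
    rwa [Fin.cons_succ] at this
  -- general construction
  have mk : ∀ (x y : V), B x x ≠ 0 → B y y ≠ 0 → B x y = 0 → (∀ j, B x (g j) = 0) →
      (∀ j, B y (g j) = 0) → Ob B (Fin.cons x (Fin.cons y g) : Fin (n + 2) → V)
        (Fin.cons (B x x) (Fin.cons (B y y) b) : Fin (n + 2) → F) := by
    intro x y hx hy hxy hxg hyg
    refine ⟨?_, ?_, ?_⟩
    · intro i j
      refine Fin.cases ?_ (fun i' => ?_) i
      · refine Fin.cases ?_ (fun j' => ?_) j
        · intro h3; exact absurd rfl h3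
        · intro _
          rw [Fin.cons_zero, Fin.cons_succ]
          refine Fin.cases ?_ (fun j'' => ?_) j'
          · rw [Fin.cons_zero]; exact hxy
          · rw [Fin.cons_succ]; exact hxg _
      · refine Fin.cases ?_ (fun j' => ?_) j
        · intro _
          rw [Fin.cons_zero, Fin.cons_succ, hB.eq]
          refine Fin.cases ?_ (fun j'' => ?_) i'
          · rw [Fin.cons_zero]; exact hxy
          · rw [Fin.cons_succ]; exact hxg _
        · intro hij
          rw [Fin.cons_succ, Fin.cons_succ]
          revert hij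
          refine Fin.cases ?_ (fun i'' => ?_) i'
          · refine Fin.cases ?_ (fun j'' => ?_) j'
            · intro h3; exact absurd rfl h3
            · intro _
              rw [Fin.cons_zero, Fin.cons_succ]
              exact hyg _
          · refine Fin.cases ?_ (fun j'' => ?_) j'
            · intro _
              rw [Fin.cons_zero, Fin.cons_succ, hB.eq]
              exact hyg _
            · intro hij
              rw [Fin.cons_succ, Fin.cons_succ]
              exact hgg _ _ (fun h3 => hij (by rw [h3]))
    · intro i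
      refine Fin.cases ?_ (fun i' => ?_) i
      · rw [Fin.cons_zero, Fin.cons_zero]
      · rw [Fin.cons_succ, Fin.cons_succ]
        refine Fin.cases ?_ (fun i'' => ?_) i'
        · rw [Fin.cons_zero, Fin.cons_zero]
        · rw [Fin.cons_succ, Fin.cons_succ]
          exact hgv _
    · intro i
      refine Fin.cases ?_ (fun i' => ?_) i
      · rw [Fin.cons_zero]; exact hx
      · rw [Fin.cons_succ]
        refine Fin.cases ?_ (fun i'' => ?_) i'
        · rw [Fin.cons_zero]; exact hy
        · rw [Fin.cons_succ]; exact hbn _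
  have hx1 : B (e 0) (e 0) ≠ 0 := by rw [h.val]; exact ha0
  have hx1' : B (e' 0) (e' 0) ≠ 0 := by rw [h'.val]; exact ha0'
  have hf := mk (e 0) ε hx1 hεn hεo hgj hεg
  have he'0 : e' 0 = (β / a 0) • e 0 + (1 : F) • ε := by rw [hε]; module
  have he'g : ∀ j, B (e' 0) (g j) = 0 := by
    intro j
    rw [he'0]
    simp only [map_add, map_smul, LinearMap.add_apply, LinearMap.smul_apply, hgj, hεg, smul_zero,
      add_zero]
  have hε'g : ∀ j, B ε' (g j) = 0 := by
    intro j
    rw [hε']
    simp only [map_sub, map_smul, LinearMap.sub_apply, LinearMap.smul_apply, hgj, he'g, smul_zero,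
      sub_zero]
  have hf' := mk (e' 0) ε' hx1' hεn' hεo' he'g hε'g
  -- spans
  have hspan : ∀ (x y : V), x ∈ Submodule.span F (Set.range e) →
      y ∈ Submodule.span F (Set.range e) → e 0 ∈ Submodule.span F {x, y} →
      ε ∈ Submodule.span F {x, y} → Submodule.span F (Set.range e) = Submodule.span F
        (Set.range (Fin.cons x (Fin.cons y g) : Fin (n + 2) → V)) := by
    intro x y hx hy h0 h1
    have hxy : Submodule.span F {x, y} ≤ Submodule.span F
        (Set.range (Fin.cons x (Fin.cons y g) : Fin (n + 2) → V)) := by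
      rw [Submodule.span_le]
      rintro z (rfl | rfl)
      · exact Submodule.subset_span ⟨0, by rw [Fin.cons_zero]⟩
      · refine Submodule.subset_span ⟨1, ?_⟩
        rfl
    apply le_antisymm
    · -- each e j
      have ht : Submodule.span F (Set.range fun j : Fin (n + 1) => e j.succ) ≤ Submodule.span F
          (Set.range (Fin.cons x (Fin.cons y g) : Fin (n + 2) → V)) := by
        rw [← hgs, Submodule.span_le]
        rintro _ ⟨j, rfl⟩
        refine Fin.cases ?_ (fun j' => ?_) j
        · rw [Fin.cons_zero]
          exact hxy h1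
        · rw [Fin.cons_succ]
          refine Submodule.subset_span ⟨j'.succ.succ, ?_⟩
          rw [Fin.cons_succ, Fin.cons_succ]
      rw [Submodule.span_le]
      rintro _ ⟨j, rfl⟩
      refine Fin.cases ?_ (fun j' => ?_) j
      · exact hxy h0
      · exact ht (Submodule.subset_span ⟨j', rfl⟩)
    · rw [Submodule.span_le]
      rintro _ ⟨j, rfl⟩
      refine Fin.cases ?_ (fun j' => ?_) j
      · rw [Fin.cons_zero]; exact hx
      · rw [Fin.cons_succ]
        refine Fin.cases ?_ (fun j'' => ?_) j'
        · rw [Fin.cons_zero]; exact hy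
        · rw [Fin.cons_succ]
          have := hgt j''.succ
          rw [Fin.cons_succ] at this
          exact ((h.tail_span _).1 this).1
  have hεW : ε ∈ Submodule.span F (Set.range e) := ((h.tail_span _).1 hεt).1
  have hε'W : ε' ∈ Submodule.span F (Set.range e) := by
    rw [hε']
    exact Submodule.sub_mem _ he0W (Submodule.smul_mem _ _ he0W')
  have hs1 := hspan (e 0) ε he0W hεW (Submodule.subset_span (Or.inl rfl))
    (Submodule.subset_span (Or.inr rfl))
  have hxin : e' 0 ∈ Submodule.span F {e' 0, ε'} := Submodule.subset_span (Or.inl rfl)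
  have hyin : ε' ∈ Submodule.span F {e' 0, ε'} := Submodule.subset_span (Or.inr rfl)
  have he0in : e 0 ∈ Submodule.span F {e' 0, ε'} := by
    have : e 0 = (β / a' 0) • e' 0 + ε' := by rw [hε']; module
    rw [this]
    exact Submodule.add_mem _ (Submodule.smul_mem _ _ hxin) hyin
  have hεin : ε ∈ Submodule.span F {e' 0, ε'} := by
    rw [hε]
    exact Submodule.sub_mem _ hxin (Submodule.smul_mem _ _ he0in)
  have hs2 := hspan (e' 0) ε' he0W' hε'W he0in hεin
  have q1 := step1 hF IH h hf hs1 1 (by rw [Fin.cons_zero, one_smul])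
  have q3 := step1 hF IH h' hf' (hs.symm.trans hs2) 1 (by rw [Fin.cons_zero, one_smul])
  have q2 := step2 hF hB hf hf' (fun j => by
      rw [Fin.cons_succ, Fin.cons_succ, Fin.cons_succ, Fin.cons_succ]) (β / a 0) 1
      (1 - β ^ 2 / (a 0 * a' 0)) (-(β / a' 0)) (by
        rw [Fin.cons_zero, Fin.cons_zero]
        exact he'0) (by
        show ε' = (1 - β ^ 2 / (a 0 * a' 0)) • e 0 + (-(β / a' 0)) • ε
        rw [hε', hε]
        have : β ^ 2 / (a 0 * a' 0) = β / a' 0 * (β / a 0) := by field_simp
        rw [this]
        module)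
  rw [q1, q2, q3]

theorem exists_x [Infinite F] (u v : F) (hu : u ≠ 0) (hv : v ≠ 0) :
    ∃ x : F, x ≠ 0 ∧ u + x ^ 2 * v ≠ 0 := by
  classical
  by_contra hcon
  push Not at hcon
  have h1 : (Polynomial.X * (Polynomial.C u + Polynomial.X ^ 2 * Polynomial.C v) :
      Polynomial F) = 0 := by
    apply Polynomial.funext
    intro x
    simp only [Polynomial.eval_mul, Polynomial.eval_X, Polynomial.eval_add, Polynomial.eval_C,
      Polynomial.eval_pow, Polynomial.eval_zero]
    by_cases hx : x = 0
    · rw [hx, zero_mul]
    · rw [hcon x hx, mul_zero]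
  rcases mul_eq_zero.mp h1 with h2 | h2
  · exact Polynomial.X_ne_zero h2
  · have h3 := congrArg (Polynomial.eval 0) h2
    simp at h3
    exact hu h3

theorem st_all [Infinite F] (hF : Hil F) (hB : B.IsSymm) : ∀ n, St B n := by
  intro n
  induction n with
  | zero =>
    intro e e' a a' _ _ _
    unfold HWs
    rfl
  | succ n IH =>
    intro e e' a a' h h' hs
    cases n with
    | zero =>
      rw [HWs_succ, HWs_succ]
      unfold HWs
      rfl
    | succ n =>
      by_cases c1 : a 0 * a' 0 - (B (e 0) (e' 0)) ^ 2 = 0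
      · -- modify e'
        have h01 : B (e' 0) (e' 1) = 0 := h'.orth 0 1 (by simp)
        have h10 : B (e' 1) (e' 0) = 0 := h'.orth 1 0 (by simp)
        have ha0 := h.ne 0
        have ha0' := h'.ne 0
        have ha1' := h'.ne 1
        -- general change of the first two vectors
        have key : ∀ p q r s : F, p * s - q * r ≠ 0 → p * r * a' 0 + q * s * a' 1 = 0 →
            p ^ 2 * a' 0 + q ^ 2 * a' 1 ≠ 0 → r ^ 2 * a' 0 + s ^ 2 * a' 1 ≠ 0 →
            a 0 * (p ^ 2 * a' 0 + q ^ 2 * a' 1) -
              (p * B (e 0) (e' 0) + q * B (e 0) (e' 1)) ^ 2 ≠ 0 → HWs a = HWs a' := by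
          intro p q r s hd ho hv0 hv1 hD
          obtain ⟨e'', he''⟩ : ∃ e'' : Fin (n + 2) → V, e'' = Fin.cons (p • e' 0 + q • e' 1)
            (Fin.cons (r • e' 0 + s • e' 1) fun j => e' j.succ.succ) := ⟨_, rfl⟩
          obtain ⟨a'', ha''⟩ : ∃ a'' : Fin (n + 2) → F, a'' = Fin.cons
            (p ^ 2 * a' 0 + q ^ 2 * a' 1) (Fin.cons (r ^ 2 * a' 0 + s ^ 2 * a' 1)
              fun j => a' j.succ.succ) := ⟨_, rfl⟩
          have e0 : e'' 0 = p • e' 0 + q • e' 1 := by rw [he'']; rfl
          have e1 : e'' 1 = r • e' 0 + s • e' 1 := by rw [he'']; rfl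
          have ej : ∀ j : Fin n, e'' j.succ.succ = e' j.succ.succ := by
            intro j; rw [he'']; rfl
          have a0 : a'' 0 = p ^ 2 * a' 0 + q ^ 2 * a' 1 := by rw [ha'']; rfl
          have a1 : a'' 1 = r ^ 2 * a' 0 + s ^ 2 * a' 1 := by rw [ha'']; rfl
          have aj : ∀ j : Fin n, a'' j.succ.succ = a' j.succ.succ := by
            intro j; rw [ha'']; rfl
          have hj0 : ∀ j : Fin n, B (e' 0) (e' j.succ.succ) = 0 := fun j =>
            h'.orth _ _ (Fin.succ_ne_zero _).symm
          have hj1 : ∀ j : Fin n, B (e' 1) (e' j.succ.succ) = 0 := fun j =>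
            h'.orth _ _ (fun h3 => by
              have : (Fin.succ 0 : Fin (n + 2)) = j.succ.succ := h3
              exact (Fin.succ_ne_zero j).symm (Fin.succ_injective _ this))
          have b01 : B (e'' 0) (e'' 1) = 0 := by
            rw [e0, e1]
            simp only [map_add, map_smul, LinearMap.add_apply, LinearMap.smul_apply, h01, h10,
              h'.val, smul_eq_mul]
            linear_combination ho
          have b0j : ∀ j : Fin n, B (e'' 0) (e'' j.succ.succ) = 0 := by
            intro j
            rw [e0, ej]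
            simp only [map_add, map_smul, LinearMap.add_apply, LinearMap.smul_apply, hj0, hj1,
              smul_zero, add_zero]
          have b1j : ∀ j : Fin n, B (e'' 1) (e'' j.succ.succ) = 0 := by
            intro j
            rw [e1, ej]
            simp only [map_add, map_smul, LinearMap.add_apply, LinearMap.smul_apply, hj0, hj1,
              smul_zero, add_zero]
          have h'' : Ob B e'' a'' := by
            refine ⟨?_, ?_, ?_⟩
            · intro i j
              refine Fin.cases ?_ (fun i' => ?_) i
              · refine Fin.cases ?_ (fun j' => ?_) j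
                · intro h3; exact absurd rfl h3
                · intro _
                  refine Fin.cases ?_ (fun j'' => ?_) j'
                  · exact b01
                  · exact b0j _
              · refine Fin.cases ?_ (fun j' => ?_) j
                · intro _
                  rw [hB.eq]
                  refine Fin.cases ?_ (fun j'' => ?_) i'
                  · exact b01
                  · exact b0j _
                · refine Fin.cases ?_ (fun i'' => ?_) i'
                  · refine Fin.cases ?_ (fun j'' => ?_) j'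
                    · intro h3; exact absurd rfl h3
                    · intro _
                      exact b1j _
                  · refine Fin.cases ?_ (fun j'' => ?_) j'
                    · intro _
                      rw [hB.eq]
                      exact b1j _
                    · intro hij
                      rw [ej, ej]
                      exact h'.orth _ _ hij
            · intro i
              refine Fin.cases ?_ (fun i' => ?_) i
              · rw [a0, e0]
                simp only [map_add, map_smul, LinearMap.add_apply, LinearMap.smul_apply, h01, h10,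
                  h'.val, smul_eq_mul]
                ring
              · refine Fin.cases ?_ (fun i'' => ?_) i'
                · show B (e'' 1) (e'' 1) = a'' 1
                  rw [a1, e1]
                  simp only [map_add, map_smul, LinearMap.add_apply, LinearMap.smul_apply, h01,
                    h10, h'.val, smul_eq_mul]
                  ring
                · rw [ej, aj]
                  exact h'.val _
            · intro i
              refine Fin.cases ?_ (fun i' => ?_) i
              · rw [a0]; exact hv0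
              · refine Fin.cases ?_ (fun i'' => ?_) i'
                · show a'' 1 ≠ 0
                  rw [a1]; exact hv1
                · rw [aj]; exact h'.ne _
          have hss : Submodule.span F (Set.range e'') ≤ Submodule.span F (Set.range e') := by
            rw [Submodule.span_le]
            rintro _ ⟨j, rfl⟩
            refine Fin.cases ?_ (fun j' => ?_) j
            · rw [e0]
              exact Submodule.add_mem _ (Submodule.smul_mem _ _ (Submodule.subset_span ⟨0, rfl⟩))
                (Submodule.smul_mem _ _ (Submodule.subset_span ⟨1, rfl⟩))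
            · refine Fin.cases ?_ (fun j'' => ?_) j'
              · show e'' 1 ∈ _
                rw [e1]
                exact Submodule.add_mem _ (Submodule.smul_mem _ _ (Submodule.subset_span ⟨0, rfl⟩))
                  (Submodule.smul_mem _ _ (Submodule.subset_span ⟨1, rfl⟩))
              · rw [ej]
                exact Submodule.subset_span ⟨_, rfl⟩
          have hss2 : Submodule.span F (Set.range e'') = Submodule.span F (Set.range e') := by
            haveI : FiniteDimensional F (Submodule.span F (Set.range e')) :=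
              FiniteDimensional.span_of_finite F (Set.finite_range e')
            apply Submodule.eq_of_le_of_finrank_eq hss
            rw [finrank_span_eq_card h''.linInd, finrank_span_eq_card h'.linInd]
          have q2 := step2 hF hB h' h'' (fun j => ej j) p q r s e0 e1
          rw [q2]
          refine step3 hF hB IH h h'' (hs.trans hss2.symm) ?_
          rw [a0, e0, map_add, map_smul, map_smul, smul_eq_mul, smul_eq_mul]
          exact hD
        by_cases c2 : a 0 * a' 1 - (B (e 0) (e' 1)) ^ 2 = 0
        · obtain ⟨x, hx0, hx⟩ := exists_x (a' 0) (a' 1) ha0' ha1'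
          have hb0 : B (e 0) (e' 0) ≠ 0 := by
            intro h3
            rw [h3] at c1
            have : a 0 * a' 0 = 0 := by linear_combination c1
            exact (mul_ne_zero ha0 ha0') this
          have hb1 : B (e 0) (e' 1) ≠ 0 := by
            intro h3
            rw [h3] at c2
            have : a 0 * a' 1 = 0 := by linear_combination c2
            exact (mul_ne_zero ha0 ha1') this
          apply key 1 x (x * a' 1) (-a' 0)
          · intro h3
            apply hx
            linear_combination -h3
          · ring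
          · intro h3
            apply hx
            linear_combination h3
          · have : (x * a' 1) ^ 2 * a' 0 + (-a' 0) ^ 2 * a' 1 =
                a' 0 * a' 1 * (a' 0 + x ^ 2 * a' 1) := by ring
            rw [this]
            exact mul_ne_zero (mul_ne_zero ha0' ha1') hx
          · have : a 0 * (1 ^ 2 * a' 0 + x ^ 2 * a' 1) -
                (1 * B (e 0) (e' 0) + x * B (e 0) (e' 1)) ^ 2 =
                -(2 * x * B (e 0) (e' 0) * B (e 0) (e' 1)) := by
              linear_combination c1 + x ^ 2 * c2
            rw [this]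
            exact neg_ne_zero.mpr (mul_ne_zero (mul_ne_zero (mul_ne_zero hF.two hx0) hb0) hb1)
        · apply key 0 1 1 0
          · simp
          · ring
          · have : (0 : F) ^ 2 * a' 0 + 1 ^ 2 * a' 1 = a' 1 := by ring
            rw [this]; exact ha1'
          · have : (1 : F) ^ 2 * a' 0 + 0 ^ 2 * a' 1 = a' 0 := by ring
            rw [this]; exact ha0'
          · intro h3
            apply c2
            linear_combination h3
      · exact step3 hF hB IH h h' hs c1

end ob

end Pool.Agent.Q187.EB
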